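import Mathlib

set_option autoImplicit false
set_option linter.unusedSectionVars false
set_option linter.unusedVariables false

namespace Pool.Agent.H741.QS

/-- auxiliary -/
theorem kernel_lemma {W : Type} [Fintype W] [DecidableEq W] {B : Type} [AddCommGroup B]
    [Module ℝ B] (k : W → W → ℝ) (hk : ∀ x y, k x y = k y x)
    (R : Submodule ℝ (W → ℝ)) (hR : ∀ y, (fun x => k x y) ∈ R)
    (Ψ : (W → ℝ) →ₗ[ℝ] (W → ℝ) →ₗ[ℝ] B) (hΨ : ∀ f ∈ R, ∀ g ∈ R, Ψ f g = 0) :
    ∑ x, ∑ y, k x y • Ψ (Pi.single x 1) (Pi.single y 1) = 0 := by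
  obtain ⟨p, hp⟩ := LinearMap.exists_leftInverse_of_injective R.subtype (by simp)
  have hP : ∀ f (hf : f ∈ R), ((p f : R) : W → ℝ) = f := by
    intro f hf
    have := LinearMap.congr_fun hp ⟨f, hf⟩
    simp only [LinearMap.comp_apply, Submodule.subtype_apply, LinearMap.id_apply] at this
    rw [this]
  have hsum : ∀ y, (fun x => k x y) = ∑ x, k x y • (Pi.single x (1:ℝ) : W → ℝ) := by
    intro y
    funext z
    simp [Finset.sum_apply, Pi.single_apply]
  have hsum' : ∀ x, (fun y => k y x) = ∑ y, k x y • (Pi.single y (1:ℝ) : W → ℝ) := by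
    intro x
    rw [hsum x]
    exact Finset.sum_congr rfl (fun y _ => by rw [hk x y])
  rw [Finset.sum_comm]
  have h1 : ∀ y, ∑ x, k x y • Ψ (Pi.single x 1) (Pi.single y 1) = ∑ x, k x y • Ψ ((p (Pi.single x 1) : R) : W → ℝ) (Pi.single y 1) := by
    intro y
    have e1 : Ψ (fun x => k x y) (Pi.single y 1) = ∑ x, k x y • Ψ (Pi.single x 1) (Pi.single y 1) := by
      rw [hsum y]
      simp [map_sum, LinearMap.sum_apply]
    have e2 : Ψ ((p (fun x => k x y) : R) : W → ℝ) (Pi.single y 1) = ∑ x, k x y • Ψ ((p (Pi.single x 1) : R) : W → ℝ) (Pi.single y 1) := by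
      rw [hsum y]
      simp [map_sum, LinearMap.sum_apply]
    rw [← e1, ← e2, hP _ (hR y)]
  rw [Finset.sum_congr rfl (fun y _ => h1 y), Finset.sum_comm]
  apply Finset.sum_eq_zero
  intro x _
  have e3 : Ψ ((p (Pi.single x 1) : R) : W → ℝ) (fun y => k y x) = ∑ y, k x y • Ψ ((p (Pi.single x 1) : R) : W → ℝ) (Pi.single y 1) := by
    rw [hsum' x]
    simp [map_sum]
  rw [← e3]
  exact hΨ _ (Subtype.mem _) _ (hR x)

theorem cancel2 {B : Type} [Ring B] [Module ℝ B] {x y : B} (h : x + x = y + y) : x = y := by
  have h2 : (2:ℝ) • x = (2:ℝ) • y := by rw [two_smul, two_smul, h]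
  have h3 := congrArg (fun z => (2:ℝ)⁻¹ • z) h2
  simpa [smul_smul] using h3

/-- auxiliary -/
theorem square_algebra {B : Type} [Ring B] [StarRing B] [Module ℝ B]
    (hB : ∀ x : B, star x * x = 0 → x = 0)
    (s s' S S' : B) (hs : star s = s) (hs' : star s' = s') (hS : star S = S) (hS' : star S' = S')
    (h1 : s * S + S * s = 0) (h2 : s' * S' + S' * s' = 0)
    (h3 : (s - s') * S = - (S' * (s - s'))) (h4 : (s - s') * S' = - (S * (s - s')))
    (h5 : (S - S') * s = - (s' * (S - S'))) (h6 : (S - S') * s' = - (s * (S - S')))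
    (h7 : s * S' - S' * s = s' * S - S * s') :
    (s * s' + s' * s) * (S - S') = 0 := by
  obtain ⟨D, hD⟩ : ∃ D, D = s - s' := ⟨_, rfl⟩
  obtain ⟨G, hG⟩ : ∃ G, G = S - S' := ⟨_, rfl⟩
  obtain ⟨q, hq⟩ : ∃ q, q = s + s' := ⟨_, rfl⟩
  obtain ⟨Q, hQ⟩ : ∃ Q, Q = S + S' := ⟨_, rfl⟩
  -- commutation
  have c1 : D * G = G * D := by
    rw [hD, hG]
    linear_combination (norm := noncomm_ring) h3 - h4
  have c2 : D * Q = - (Q * D) := by
    rw [hD, hQ]
    linear_combination (norm := noncomm_ring) h3 + h4
  have c3 : G * q = - (q * G) := by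
    rw [hG, hq]
    linear_combination (norm := noncomm_ring) h5 + h6
  have e1 : s' * S - S' * s = s * S' - S * s' := by
    have a3 : s' * S - S' * s = s * S + s' * S' + (s' * S - S' * s) - (s * S + s' * S') := by noncomm_ring
    have h3' : s' * S - S' * s = s * S - S' * s' := by
      linear_combination (norm := noncomm_ring) - h3
    have h4' : s * S' - S * s' = s' * S' - S * s := by
      linear_combination (norm := noncomm_ring) h4
    rw [h3', h4']
    linear_combination (norm := noncomm_ring) h1 - h2
  have e2 : S' * s = S * s' := by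
    apply cancel2 (B := B)
    linear_combination (norm := noncomm_ring) - h7 - e1
  have e3 : s' * S = s * S' := by
    linear_combination (norm := noncomm_ring) e1 + e2
  have e4 : q * G = D * Q := by
    rw [hq, hG, hD, hQ]
    linear_combination (norm := noncomm_ring) e3 + e3
  -- q*Q + Q*q = -2 D*G
  have e5 : q * Q + Q * q = - (D * G) - (D * G) := by
    have : D * G + D * G = D * G + G * D := by rw [c1]
    have h : q * Q + Q * q = - (D * G + G * D) := by
      rw [hq, hQ, hD, hG]
      linear_combination (norm := noncomm_ring) h1 + h1 + h2 + h2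
    rw [h, ← this]; abel
  have f1 : (D * q + q * D) * G = 0 := by
    have : (D * q + q * D) * G = D * (D * Q) + q * G * D := by
      rw [← e4]
      linear_combination (norm := noncomm_ring) q * c1
    rw [this, e4]
    linear_combination (norm := noncomm_ring) D * c2
  have f2 : D * G * Q + D * Q * G = 0 := by
    rw [← e4, c1]
    linear_combination (norm := noncomm_ring) (-1 : B) * G * e4 + c3 * G
  have f3 : D * G * q * Q = - (q * q * G * G) := by
    have g1 : D * G * q * Q = - (D * q * G * Q) := by
      linear_combination (norm := noncomm_ring) D * c3 * Q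
    have g2 : D * q * G * Q = - (q * D * G * Q) := by
      linear_combination (norm := noncomm_ring) f1 * Q
    have g3 : q * D * G * Q = - (q * (D * Q) * G) := by
      linear_combination (norm := noncomm_ring) q * f2
    rw [g1, g2, g3, ← e4]
    noncomm_ring
  have f4 : D * G * Q * q = - (q * q * G * G) := by
    have g1 : D * G * Q * q = - ((D * Q) * G * q) := by
      linear_combination (norm := noncomm_ring) f2 * q
    have g2 : q * G * G * q = - (q * G * (q * G)) := by
      linear_combination (norm := noncomm_ring) q * G * c3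
    have g3 : q * G * (q * G) = - (q * q * G * G) := by
      linear_combination (norm := noncomm_ring) q * c3 * G
    rw [g1, ← e4, g2, g3]
    noncomm_ring
  have f5 : D * G * D * G = D * D * G * G := by
    linear_combination (norm := noncomm_ring) (-1 : B) * D * c1 * G
  have f6 : (s * s' + s' * s) * G * G = 0 := by
    have h0 : q * q * G * G = D * D * G * G := by
      apply cancel2 (B := B)
      linear_combination (norm := noncomm_ring) (-1 : B) * D * G * e5 + f3 + f4 + f5 + f5
    have h1' : q * q - D * D = (s * s' + s' * s) + (s * s' + s' * s) := by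
      rw [hq, hD]; noncomm_ring
    apply cancel2 (B := B)
    have : (s * s' + s' * s) * G * G + (s * s' + s' * s) * G * G = (q * q - D * D) * G * G := by
      rw [h1']; noncomm_ring
    rw [this]
    linear_combination (norm := noncomm_ring) h0
  have sG : star G = G := by rw [hG, star_sub, hS, hS']
  rw [← hG]
  have k1 : star ((s * s' + s' * s) * G) = 0 := by
    apply hB
    rw [star_star]
    have : star ((s * s' + s' * s) * G) = G * (s * s' + s' * s) := by
      rw [star_mul, star_add, star_mul, star_mul, hs, hs', sG, add_comm]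
    rw [this]
    have : (s * s' + s' * s) * G * (G * (s * s' + s' * s)) = (s * s' + s' * s) * G * G * (s * s' + s' * s) := by
      noncomm_ring
    rw [this, f6, zero_mul]
  have := congrArg star k1
  simpa using this

/-- auxiliary -/
theorem square_algebra_zero {B : Type} [Ring B] [StarRing B] [Module ℝ B]
    (hB : ∀ x : B, star x * x = 0 → x = 0)
    (s s' S S' : B) (hs : star s = s) (hs' : star s' = s') (hS : star S = S) (hS' : star S' = S')
    (h1 : s * S + S * s = 0) (h2 : s' * S' + S' * s' = 0)
    (h3 : (s - s') * S = - (S' * (s - s'))) (h4 : (s - s') * S' = - (S * (s - s')))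
    (h5 : (S - S') * s = - (s' * (S - S'))) (h6 : (S - S') * s' = - (s * (S - S')))
    (h7 : s * S' - S' * s = s' * S - S * s') (h8 : (s - s') * (S - S') = 0) :
    s * (S - S') = 0 ∧ s' * (S - S') = 0 := by
  obtain ⟨D, hD⟩ : ∃ D, D = s - s' := ⟨_, rfl⟩
  obtain ⟨G, hG⟩ : ∃ G, G = S - S' := ⟨_, rfl⟩
  obtain ⟨q, hq⟩ : ∃ q, q = s + s' := ⟨_, rfl⟩
  obtain ⟨Q, hQ⟩ : ∃ Q, Q = S + S' := ⟨_, rfl⟩
  -- commutation
  have c1 : D * G = G * D := by
    rw [hD, hG]
    linear_combination (norm := noncomm_ring) h3 - h4
  have c2 : D * Q = - (Q * D) := by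
    rw [hD, hQ]
    linear_combination (norm := noncomm_ring) h3 + h4
  have c3 : G * q = - (q * G) := by
    rw [hG, hq]
    linear_combination (norm := noncomm_ring) h5 + h6
  have e1 : s' * S - S' * s = s * S' - S * s' := by
    have h3' : s' * S - S' * s = s * S - S' * s' := by
      linear_combination (norm := noncomm_ring) - h3
    have h4' : s * S' - S * s' = s' * S' - S * s := by
      linear_combination (norm := noncomm_ring) h4
    rw [h3', h4']
    linear_combination (norm := noncomm_ring) h1 - h2
  have e2 : S' * s = S * s' := by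
    apply cancel2 (B := B)
    linear_combination (norm := noncomm_ring) - h7 - e1
  have e3 : s' * S = s * S' := by
    linear_combination (norm := noncomm_ring) e1 + e2
  have e4 : q * G = D * Q := by
    rw [hq, hG, hD, hQ]
    linear_combination (norm := noncomm_ring) e3 + e3
  rw [← hD, ← hG] at h8
  have sG : star G = G := by rw [hG, star_sub, hS, hS']
  have sq : star q = q := by rw [hq, star_add, hs, hs']
  have k : q * G = 0 := by
    apply hB
    rw [star_mul, sG, sq]
    have : G * q * (q * G) = - (q * (G * D) * Q) := by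
      rw [e4]
      linear_combination (norm := noncomm_ring) c3 * D * Q
    rw [this, ← c1, h8]
    simp
  rw [← hG]
  constructor
  · apply cancel2 (B := B)
    have : s + s = q + D := by rw [hq, hD]; abel
    rw [← add_mul, this, add_mul, k, h8]
  · apply cancel2 (B := B)
    have : s' + s' = q - D := by rw [hq, hD]; abel
    rw [← add_mul, this, sub_mul, k, h8]; simp

end Pool.Agent.H741.QS
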