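import Pool.Agent.Helper741.QSym.Box

set_option autoImplicit false
set_option linter.unusedSectionVars false
set_option linter.unusedVariables false

namespace Pool.Agent.H741.QS

/-- auxiliary -/
theorem k2_struct {V : Type} [Fintype V] (G : SimpleGraph V) (hG : G.Connected) (h : V → ℤ)
    (hh : ∀ z, ∃ z', G.Adj z z' ∧ ((∀ y, (G.dist z y : ℤ) - G.dist z' y = h y) ∨
      (∀ y, (G.dist z' y : ℤ) - G.dist z y = h y))) :
    ∃ (W : Type) (_ : Fintype W) (H : SimpleGraph W),
      Nonempty (G ≃g ((⊤ : SimpleGraph Bool) □ H)) := by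
  classical
  choose s hs1 hs2 using hh
  have dz : ∀ z, (G.dist z z : ℤ) = 0 := fun z => by simp
  have d1 : ∀ z, (G.dist z (s z) : ℤ) = 1 := fun z => by
    have := SimpleGraph.dist_eq_one_iff_adj.2 (hs1 z); exact_mod_cast this
  have d1' : ∀ z, (G.dist (s z) z : ℤ) = 1 := fun z => by
    rw [SimpleGraph.dist_comm]; exact d1 z
  have key : ∀ z, (h z = -1 ∧ h (s z) = 1 ∧ ∀ y, (G.dist z y : ℤ) - G.dist (s z) y = h y) ∨
      (h z = 1 ∧ h (s z) = -1 ∧ ∀ y, (G.dist (s z) y : ℤ) - G.dist z y = h y) := by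
    intro z
    rcases hs2 z with h1 | h1
    · left
      have e1 := h1 z
      have e2 := h1 (s z)
      rw [dz, d1'] at e1
      rw [dz, d1] at e2
      exact ⟨by omega, by omega, h1⟩
    · right
      have e1 := h1 z
      have e2 := h1 (s z)
      rw [dz, d1'] at e1
      rw [dz, d1] at e2
      exact ⟨by omega, by omega, h1⟩
  have kneg : ∀ z, h z = -1 → h (s z) = 1 ∧ ∀ y, (G.dist z y : ℤ) - G.dist (s z) y = h y := by
    intro z hz
    rcases key z with h1 | h1
    · exact h1.2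
    · exfalso; have := h1.1; omega
  have kpos : ∀ z, h z ≠ -1 → h (s z) = -1 ∧ ∀ y, (G.dist (s z) y : ℤ) - G.dist z y = h y := by
    intro z hz
    rcases key z with h1 | h1
    · exact absurd h1.1 hz
    · exact h1.2
  have eq0 : ∀ a b, (G.dist a b : ℤ) = 0 → a = b := by
    intro a b hab
    exact hG.dist_eq_zero_iff.1 (by exact_mod_cast hab)
  have ss : ∀ z, s (s z) = z := by
    intro z
    by_cases hz : h z = -1
    · obtain ⟨h1, h2⟩ := kneg z hz
      obtain ⟨h3, h4⟩ := kpos (s z) (by omega)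
      apply eq0
      have e1 := h2 z
      have e2 := h4 z
      rw [dz] at e1
      omega
    · obtain ⟨h1, h2⟩ := kpos z hz
      obtain ⟨h3, h4⟩ := kneg (s z) h1
      apply eq0
      have e1 := h2 z
      have e2 := h4 z
      rw [dz] at e1
      omega
  let W := {z : V // h z = -1}
  let H : SimpleGraph W := G.comap (fun w : W => (w : V))
  let e : (Bool × W) ≃ V :=
    { toFun := fun p => if p.1 then s p.2 else p.2
      invFun := fun z => if hz : h z = -1 then (false, ⟨z, hz⟩) else (true, ⟨s z, (kpos z hz).1⟩)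
      left_inv := by
        rintro ⟨b, w, hw⟩
        cases b
        · simp [hw]
        · have h1 := (kneg w hw).1
          have : ¬ (h (s w) = -1) := by omega
          simp [this, ss]
      right_inv := by
        intro z
        by_cases hz : h z = -1
        · simp [hz]
        · simp [hz, ss] }
  have a1 : ∀ w w' : V, h w = -1 → h w' = -1 → (G.Adj (s w) (s w') ↔ G.Adj w w') := by
    intro w w' hw hw'
    obtain ⟨p1, p2⟩ := kneg w hw
    obtain ⟨q1, q2⟩ := kneg w' hw'
    have e1 := p2 w'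
    have e2 := q2 (s w)
    rw [hw'] at e1
    rw [p1] at e2
    rw [← SimpleGraph.dist_eq_one_iff_adj, ← SimpleGraph.dist_eq_one_iff_adj]
    rw [SimpleGraph.dist_comm (u := w') (v := s w), SimpleGraph.dist_comm (u := s w') (v := s w)] at e2
    constructor
    · intro hd; omega
    · intro hd; omega
  have a2 : ∀ w w' : V, h w = -1 → h w' = -1 → (G.Adj w (s w') ↔ w = w') := by
    intro w w' hw hw'
    obtain ⟨p1, p2⟩ := kneg w hw
    obtain ⟨q1, q2⟩ := kneg w' hw'
    constructor
    · intro ha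
      have hd := SimpleGraph.dist_eq_one_iff_adj.2 ha
      have e1 := p2 (s w')
      rw [q1, hd] at e1
      have : s w = s w' := eq0 _ _ (by push_cast at e1; omega)
      rw [← ss w, ← ss w', this]
    · rintro rfl; exact hs1 w
  refine ⟨W, inferInstance, H, ⟨RelIso.symm ⟨e, ?_⟩⟩⟩
  rintro ⟨b, w, hw⟩ ⟨b', w', hw'⟩
  simp only [e, Equiv.coe_fn_mk, SimpleGraph.boxProd_adj]
  cases b <;> cases b'
  · simp [H]
  · simp only [Bool.false_eq_true, if_false, if_true]
    rw [a2 w w' hw hw']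
    simp [H]
    exact ⟨fun h => Subtype.ext h, fun h => congrArg Subtype.val h⟩
  · simp only [Bool.false_eq_true, if_false, if_true]
    rw [SimpleGraph.adj_comm, a2 w' w hw' hw]
    simp [H, eq_comm]
    exact ⟨fun h => Subtype.ext h, fun h => congrArg Subtype.val h⟩
  · simp only [if_true]
    rw [a1 w w' hw hw']
    simp [H]

lemma dist_diff {ι : Type} [Fintype ι] [DecidableEq ι] {P : ι → Type} 
    (G : ∀ i, SimpleGraph (P i)) (hG : ∀ i, (G i).Connected) (k : ι) (x y w : ∀ i, P i) 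
    (hxy : ∀ j, j ≠ k → x j = y j) : 
    ((boxPi G).dist x w : ℤ) - (boxPi G).dist y w = ((G k).dist (x k) (w k) : ℤ) - (G k).dist (y k) (w k) := by
  rw [boxPi_dist G hG, boxPi_dist G hG]
  push_cast
  rw [← Finset.sum_sub_distrib]
  refine Finset.sum_eq_single k ?_ ?_
  · intro j _ hj
    rw [hxy j hj]; simp
  · intro hk; exact absurd (Finset.mem_univ k) hk

/-- auxiliary -/
theorem no_bad {ι : Type} [Fintype ι] [DecidableEq ι] {P : ι → Type} [∀ i, Fintype (P i)]
    (G : ∀ i, SimpleGraph (P i)) (hG : ∀ i, (G i).Connected) (hK : ∀ i, NoK2 (G i))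
    (Bd : (∀ i, P i) → (∀ i, P i) → Prop)
    (b1 : ∀ a b, Bd a b → (boxPi G).Adj a b)
    (b2 : ∀ a b, Bd a b → Bd b a)
    (b3 : ∀ a b c, Bd a b → (boxPi G).Adj a c → c ≠ b →
      ∃ d, (boxPi G).Adj b d ∧ (boxPi G).Adj c d ∧ Bd c d ∧
        ∀ z, ((boxPi G).dist a z : ℤ) - (boxPi G).dist b z =
          (boxPi G).dist c z - (boxPi G).dist d z) :
    ∀ a b, ¬ Bd a b := by
  intro a0 b0 hbd
  have hZ := boxPi_connected G hG
  obtain ⟨k, hk1, hk2⟩ := b1 a0 b0 hbd
  set h : (∀ i, P i) → ℤ := fun z => ((boxPi G).dist a0 z : ℤ) - (boxPi G).dist b0 z with hh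
  set h1 : P k → ℤ := fun q => ((G k).dist (a0 k) q : ℤ) - (G k).dist (b0 k) q with hh1
  have hz : ∀ z, h z = h1 (z k) := fun z => dist_diff G hG k a0 b0 z hk2
  have claim : ∀ z, ∃ z', (Bd z z' ∧ ∀ w, ((boxPi G).dist z w : ℤ) - (boxPi G).dist z' w = h w) ∨
      (Bd z' z ∧ ∀ w, ((boxPi G).dist z' w : ℤ) - (boxPi G).dist z w = h w) := by
    have step : ∀ a c, (boxPi G).Adj a c → 
      (∃ z', (Bd a z' ∧ ∀ w, ((boxPi G).dist a w : ℤ) - (boxPi G).dist z' w = h w) ∨
        (Bd z' a ∧ ∀ w, ((boxPi G).dist z' w : ℤ) - (boxPi G).dist a w = h w)) →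
      (∃ z', (Bd c z' ∧ ∀ w, ((boxPi G).dist c w : ℤ) - (boxPi G).dist z' w = h w) ∨
        (Bd z' c ∧ ∀ w, ((boxPi G).dist z' w : ℤ) - (boxPi G).dist c w = h w)) := by
      rintro a c hac ⟨b, ⟨hb1, hb2⟩ | ⟨hb1, hb2⟩⟩
      · by_cases hcb : c = b
        · subst hcb; exact ⟨a, Or.inr ⟨hb1, hb2⟩⟩
        · obtain ⟨d, _, _, hd3, hd4⟩ := b3 a b c hb1 hac hcb
          exact ⟨d, Or.inl ⟨hd3, fun w => by rw [← hd4 w]; exact hb2 w⟩⟩
      · by_cases hcb : c = b
        · subst hcb; exact ⟨a, Or.inl ⟨hb1, hb2⟩⟩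
        · obtain ⟨d, _, _, hd3, hd4⟩ := b3 a b c (b2 _ _ hb1) hac hcb
          refine ⟨d, Or.inr ⟨b2 _ _ hd3, fun w => ?_⟩⟩
          have e1 := hd4 w
          have e2 := hb2 w
          omega
    intro z
    obtain ⟨p⟩ := hZ.preconnected a0 z
    have hwalk : ∀ (u v : ∀ i, P i) (p : (boxPi G).Walk u v), 
      (∃ z', (Bd u z' ∧ ∀ w, ((boxPi G).dist u w : ℤ) - (boxPi G).dist z' w = h w) ∨
        (Bd z' u ∧ ∀ w, ((boxPi G).dist z' w : ℤ) - (boxPi G).dist u w = h w)) →
      (∃ z', (Bd v z' ∧ ∀ w, ((boxPi G).dist v w : ℤ) - (boxPi G).dist z' w = h w) ∨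
        (Bd z' v ∧ ∀ w, ((boxPi G).dist z' w : ℤ) - (boxPi G).dist v w = h w)) := by
      intro u v p
      induction p with
      | nil => exact id
      | cons hadj _ ih => intro hu; exact ih (step _ _ hadj hu)
    exact hwalk a0 z p ⟨b0, Or.inl ⟨hbd, fun w => rfl⟩⟩
  have main : ∀ p : P k, ∃ p', (G k).Adj p p' ∧ ((∀ q, ((G k).dist p q : ℤ) - (G k).dist p' q = h1 q) ∨
      (∀ q, ((G k).dist p' q : ℤ) - (G k).dist p q = h1 q)) := by
    intro p
    set z := Function.update a0 k p with hzdef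
    have hzk : z k = p := by rw [hzdef]; simp
    obtain ⟨z', hz'⟩ := claim z
    have hadj : (boxPi G).Adj z z' := by
      rcases hz' with h' | h'
      · exact b1 _ _ h'.1
      · exact (b1 _ _ h'.1).symm
    have hd1 : ((boxPi G).dist z z' : ℤ) = 1 := by
      have := SimpleGraph.dist_eq_one_iff_adj.2 hadj; exact_mod_cast this
    have hd1' : ((boxPi G).dist z' z : ℤ) = 1 := by rw [SimpleGraph.dist_comm]; exact hd1
    have hne : h z ≠ h z' := by
      rcases hz' with h' | h'
      · have e1 := h'.2 z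
        have e2 := h'.2 z'
        rw [SimpleGraph.dist_self, hd1'] at e1
        rw [SimpleGraph.dist_self, hd1] at e2
        push_cast at e1 e2
        omega
      · have e1 := h'.2 z
        have e2 := h'.2 z'
        rw [SimpleGraph.dist_self, hd1'] at e1
        rw [SimpleGraph.dist_self, hd1] at e2
        push_cast at e1 e2
        omega
    obtain ⟨i, hi1, hi2⟩ := hadj
    have hik : i = k := by
      by_contra hik
      apply hne
      rw [hz z, hz z', hi2 k (Ne.symm hik)]
    subst hik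
    refine ⟨z' i, by rw [← hzk]; exact hi1, ?_⟩
    rcases hz' with h' | h'
    · left
      intro q
      have e := h'.2 (Function.update a0 i q)
      rw [dist_diff G hG i z z' _ hi2, hz, hzk] at e
      simpa using e
    · right
      intro q
      have e := h'.2 (Function.update a0 i q)
      rw [dist_diff G hG i z' z _ (fun j hj => (hi2 j hj).symm), hz, hzk] at e
      simpa using e
  obtain ⟨W, hW, H, hiso⟩ := k2_struct (G k) (hG k) h1 main
  exact (hK k W H).false hiso.some

end Pool.Agent.H741.QS
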