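import Mathlib

set_option autoImplicit false
set_option linter.unusedSectionVars false

namespace Pool.Agent.H741.QS

/-- `b`, `c` are distinct nonadjacent vertices with exactly the two common neighbours `a`, `d`. -/
def Diag {V : Type} (G : SimpleGraph V) (b c a d : V) : Prop :=
  b ≠ c ∧ ¬ G.Adj b c ∧ a ≠ d ∧ ∀ e, (G.Adj b e ∧ G.Adj c e) ↔ (e = a ∨ e = d)

theorem Diag.symm {V : Type} {G : SimpleGraph V} {b c a d : V} (h : Diag G b c a d) :
    Diag G c b a d :=
  ⟨h.1.symm, fun h' => h.2.1 h'.symm, h.2.2.1, fun e => by rw [← h.2.2.2 e]; exact and_comm⟩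

theorem Diag.symm' {V : Type} {G : SimpleGraph V} {b c a d : V} (h : Diag G b c a d) :
    Diag G b c d a :=
  ⟨h.1, h.2.1, h.2.2.1.symm, fun e => by rw [h.2.2.2 e]; exact or_comm⟩

theorem Diag.adj1 {V : Type} {G : SimpleGraph V} {b c a d : V} (h : Diag G b c a d) :
    G.Adj b a := ((h.2.2.2 a).2 (Or.inl rfl)).1
theorem Diag.adj2 {V : Type} {G : SimpleGraph V} {b c a d : V} (h : Diag G b c a d) :
    G.Adj c a := ((h.2.2.2 a).2 (Or.inl rfl)).2
theorem Diag.adj3 {V : Type} {G : SimpleGraph V} {b c a d : V} (h : Diag G b c a d) :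
    G.Adj b d := ((h.2.2.2 d).2 (Or.inr rfl)).1
theorem Diag.adj4 {V : Type} {G : SimpleGraph V} {b c a d : V} (h : Diag G b c a d) :
    G.Adj c d := ((h.2.2.2 d).2 (Or.inr rfl)).2

section

variable {V W : Type} [Fintype V] [Fintype W]
variable {B : Type} [Ring B] [StarRing B] [Algebra ℝ B] [StarModule ℝ B]

/-- a quantum isomorphism (possibly over a noncommutative algebra) between two graphs -/
structure QIso (G : SimpleGraph V) (H : SimpleGraph W) (u : V → W → B) : Prop where
  star_eq : ∀ a w, star (u a w) = u a w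
  idem : ∀ a w, u a w * u a w = u a w
  rowOrth : ∀ a w w', w ≠ w' → u a w * u a w' = 0
  colOrth : ∀ a b w, a ≠ b → u a w * u b w = 0
  rowSum : ∀ a, ∑ w, u a w = 1
  colSum : ∀ w, ∑ a, u a w = 1
  adj : ∀ a b w v, ¬ (G.Adj a b ↔ H.Adj w v) → u a w * u b v = 0

/-- the element `∑ w, F w • u a w` -/
def al (u : V → W → B) (F : W → ℝ) (a : V) : B := ∑ w, F w • u a w

variable {G : SimpleGraph V} {H : SimpleGraph W} {u : V → W → B}

omit [Fintype V] [StarRing B] [StarModule ℝ B] in
theorem al_add (F F' : W → ℝ) (a : V) : al u (F + F') a = al u F a + al u F' a := by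
  simp [al, add_smul, Finset.sum_add_distrib]

omit [Fintype V] [StarRing B] [StarModule ℝ B] in
theorem al_sub (F F' : W → ℝ) (a : V) : al u (F - F') a = al u F a - al u F' a := by
  simp [al, sub_smul, Finset.sum_sub_distrib]

omit [Fintype V] [StarRing B] [StarModule ℝ B] in
theorem al_smul (c : ℝ) (F : W → ℝ) (a : V) : al u (c • F) a = c • al u F a := by
  simp [al, Finset.smul_sum, mul_smul]

omit [Fintype V] [StarRing B] [StarModule ℝ B] in
theorem al_zero (a : V) : al u (0 : W → ℝ) a = 0 := by
  simp [al]

/-- `al` as a linear map in the function -/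
def alL (u : V → W → B) (a : V) : (W → ℝ) →ₗ[ℝ] B where
  toFun F := al u F a
  map_add' F F' := al_add F F' a
  map_smul' c F := al_smul c F a

omit [Fintype V] [StarRing B] [StarModule ℝ B] in
@[simp] theorem alL_apply (u : V → W → B) (a : V) (F : W → ℝ) : alL u a F = al u F a := rfl

omit [Fintype V] [StarRing B] [StarModule ℝ B] in
theorem al_single [DecidableEq W] (w : W) (a : V) : al u (Pi.single w 1) a = u a w := by
  simp [al, Pi.single_apply]

namespace QIso

theorem al_one (h : QIso G H u) (c : ℝ) (a : V) : al u (fun _ => c) a = c • (1 : B) := by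
  simp only [al, ← Finset.smul_sum, h.rowSum]

theorem al_mul_u (h : QIso G H u) (F : W → ℝ) (a : V) (w : W) :
    al u F a * u a w = F w • u a w := by
  classical
  unfold al
  rw [Finset.sum_mul, Finset.sum_eq_single w]
  · rw [smul_mul_assoc, h.idem]
  · intro v _ hv
    rw [smul_mul_assoc, h.rowOrth a v w hv, smul_zero]
  · intro hw; exact absurd (Finset.mem_univ _) hw

theorem u_mul_al (h : QIso G H u) (F : W → ℝ) (a : V) (w : W) :
    u a w * al u F a = F w • u a w := by
  classical
  unfold al
  rw [Finset.mul_sum, Finset.sum_eq_single w]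
  · rw [mul_smul_comm, h.idem]
  · intro v _ hv
    rw [mul_smul_comm, h.rowOrth a w v hv.symm, smul_zero]
  · intro hw; exact absurd (Finset.mem_univ _) hw

theorem star_al (h : QIso G H u) (F : W → ℝ) (a : V) : star (al u F a) = al u F a := by
  simp [al, star_sum, star_smul, h.star_eq]

theorem al_comm (h : QIso G H u) (F F' : W → ℝ) (a : V) :
    al u F a * al u F' a = al u F' a * al u F a := by
  have h1 : ∀ F F' : W → ℝ, al u F a * al u F' a = ∑ w, (F w * F' w) • u a w := by
    intro F F'
    conv_lhs => rw [al, Finset.sum_mul]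
    refine Finset.sum_congr rfl fun w _ => ?_
    rw [smul_mul_assoc, h.u_mul_al, smul_smul]
  rw [h1, h1]
  exact Finset.sum_congr rfl fun w _ => by rw [mul_comm]

/-- sandwich principle, left version -/
theorem eq_zero_left (h : QIso G H u) (a : V) {x : B} (hx : ∀ w, u a w * x = 0) : x = 0 := by
  rw [← one_mul x, ← h.rowSum a, Finset.sum_mul]
  exact Finset.sum_eq_zero fun w _ => hx w

theorem eq_zero_right (h : QIso G H u) (a : V) {x : B} (hx : ∀ w, x * u a w = 0) : x = 0 := by
  rw [← mul_one x, ← h.rowSum a, Finset.mul_sum]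
  exact Finset.sum_eq_zero fun w _ => hx w

/-- sandwich principle -/
theorem eq_zero (h : QIso G H u) (a b : V) {x : B} (hx : ∀ w v, u a w * x * u b v = 0) :
    x = 0 :=
  h.eq_zero_left a fun w => h.eq_zero_right b fun v => hx w v

theorem eq_of (h : QIso G H u) (a b : V) {x y : B}
    (hx : ∀ w v, u a w * x * u b v = u a w * y * u b v) : x = y := by
  have : x - y = 0 := h.eq_zero a b fun w v => by
    rw [mul_sub, sub_mul, hx, sub_self]
  exact sub_eq_zero.1 this

/-- transpose -/
theorem transpose (h : QIso G H u) : QIso H G (fun w a => u a w) where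
  star_eq a w := h.star_eq w a
  idem a w := h.idem w a
  rowOrth a w w' hw := h.colOrth w w' a hw
  colOrth a b w hab := h.rowOrth w a b hab
  rowSum a := h.colSum a
  colSum w := h.rowSum w
  adj a b w v hn := h.adj w v a b fun h' => hn h'.symm

theorem star_mul_eq_zero (h : QIso G H u) {a b : V} {w v : W} (h0 : u a w * u b v = 0) :
    u b v * u a w = 0 := by
  have := congrArg star h0
  rwa [star_mul, h.star_eq, h.star_eq, star_zero] at this

/-- Preserved pairs of kernels. -/
def Pres (u : V → W → B) (M : V → V → ℝ) (N : W → W → ℝ) : Prop :=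
  ∀ a b w v, M a b ≠ N w v → u a w * u b v = 0

theorem pres_iff (h : QIso G H u) (M : V → V → ℝ) (N : W → W → ℝ) :
    Pres u M N ↔ ∀ a w, ∑ c, M a c • u c w = ∑ v, N v w • u a v := by
  constructor
  · intro hp a w
    calc ∑ c, M a c • u c w = ∑ v, u a v * ∑ c, M a c • u c w := by
          rw [← Finset.sum_mul, h.rowSum, one_mul]
      _ = ∑ v, ∑ c, N v w • (u a v * u c w) := by
          refine Finset.sum_congr rfl fun v _ => ?_
          rw [Finset.mul_sum]
          refine Finset.sum_congr rfl fun c _ => ?_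
          rw [mul_smul_comm]
          by_cases hMN : M a c = N v w
          · rw [hMN]
          · rw [hp a c v w hMN, smul_zero, smul_zero]
      _ = ∑ v, N v w • u a v := by
          refine Finset.sum_congr rfl fun v _ => ?_
          rw [← Finset.smul_sum, ← Finset.mul_sum, h.colSum, mul_one]
  · intro he a b w v hne
    have h1 : u a w * (∑ c, M a c • u c v) * u b v = u a w * (∑ x, N x v • u a x) * u b v := by
      rw [he a v]
    have h2 : u a w * (∑ c, M a c • u c v) * u b v = M a b • (u a w * u b v) := by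
      have : (∑ c, M a c • u c v) * u b v = M a b • u b v := by
        classical
        rw [Finset.sum_mul, Finset.sum_eq_single b]
        · rw [smul_mul_assoc, h.idem]
        · intro c _ hc
          rw [smul_mul_assoc, h.colOrth c b v hc, smul_zero]
        · intro hb; exact absurd (Finset.mem_univ _) hb
      rw [mul_assoc, this, mul_smul_comm]
    have h3 : u a w * (∑ x, N x v • u a x) * u b v = N w v • (u a w * u b v) := by
      have : u a w * (∑ x, N x v • u a x) = N w v • u a w := h.u_mul_al (fun x => N x v) a w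
      rw [this, smul_mul_assoc]
    rw [h2, h3, ← sub_eq_zero, ← sub_smul] at h1
    have h4 : (M a b - N w v) ≠ 0 := sub_ne_zero.2 hne
    have h5 := congrArg (fun x => (M a b - N w v)⁻¹ • x) h1
    simpa [smul_smul, inv_mul_cancel₀ h4] using h5

theorem Pres.mul (h : QIso G H u) {M M' : V → V → ℝ} {N N' : W → W → ℝ}
    (h1 : Pres u M N) (h2 : Pres u M' N') :
    Pres u (fun a b => ∑ c, M a c * M' c b) (fun w v => ∑ x, N w x * N' x v) := by
  rw [h.pres_iff] at h1 h2 ⊢
  intro a w
  calc ∑ c, (∑ e, M a e * M' e c) • u c w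
      = ∑ e, M a e • ∑ c, M' e c • u c w := by
        simp only [Finset.sum_smul, Finset.smul_sum, smul_smul]
        rw [Finset.sum_comm]
    _ = ∑ e, M a e • ∑ v, N' v w • u e v := by
        refine Finset.sum_congr rfl fun e _ => ?_
        rw [h2]
    _ = ∑ v, N' v w • ∑ e, M a e • u e v := by
        simp only [Finset.smul_sum, smul_smul]
        rw [Finset.sum_comm]
        refine Finset.sum_congr rfl fun v _ => Finset.sum_congr rfl fun e _ => ?_
        rw [mul_comm]
    _ = ∑ v, N' v w • ∑ x, N x v • u a x := by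
        refine Finset.sum_congr rfl fun v _ => ?_
        rw [h1]
    _ = ∑ v, (∑ x, N v x * N' x w) • u a v := by
        simp only [Finset.sum_smul, Finset.smul_sum, smul_smul]
        rw [Finset.sum_comm]
        refine Finset.sum_congr rfl fun v _ => Finset.sum_congr rfl fun x _ => ?_
        rw [mul_comm]

theorem Pres.comp {M : V → V → ℝ} {N : W → W → ℝ} (h1 : Pres u M N) (f : ℝ → ℝ) :
    Pres u (fun a b => f (M a b)) (fun w v => f (N w v)) := by
  intro a b w v hne
  exact h1 a b w v fun h => hne (by simp only [h])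

open Classical in
theorem pres_adj (h : QIso G H u) :
    Pres u (fun a b => if G.Adj a b then (1 : ℝ) else 0)
      (fun w v => if H.Adj w v then (1 : ℝ) else 0) := by
  intro a b w v hne
  apply h.adj a b w v
  intro hiff
  exact hne (by simp [hiff])

theorem pres_eq (h : QIso G H u) {a b : V} {w v : W} (hn : ¬ (a = b ↔ w = v)) :
    u a w * u b v = 0 := by
  by_cases hab : a = b
  · subst hab
    exact h.rowOrth a w v fun hw => hn ⟨fun _ => hw, fun _ => rfl⟩
  · by_cases hw : w = v
    · subst hw
      exact h.colOrth a b w hab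
    · exact absurd ⟨fun h' => absurd h' hab, fun h' => absurd h' hw⟩ hn

/-- number of common neighbours -/
noncomputable def _root_.Pool.Agent.H741.QS.cn {V : Type} [Fintype V] (G : SimpleGraph V) (b c : V) : ℕ := by
  classical
  exact (Finset.univ.filter fun e => G.Adj b e ∧ G.Adj e c).card

theorem pres_cn (h : QIso G H u) {a b : V} {w v : W} (hn : cn G a b ≠ cn H w v) :
    u a w * u b v = 0 := by
  classical
  have h1 := Pres.mul h h.pres_adj h.pres_adj
  apply h1 a b w v
  intro h2
  apply hn
  have h3 : ∀ {V : Type} [Fintype V] (G : SimpleGraph V) (a b : V),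
      (∑ c, (if G.Adj a c then (1 : ℝ) else 0) * (if G.Adj c b then (1 : ℝ) else 0)) =
      (cn G a b : ℝ) := by
    intro V _ G a b
    have : ∀ c, (if G.Adj a c then (1 : ℝ) else 0) * (if G.Adj c b then (1 : ℝ) else 0) =
        if (G.Adj a c ∧ G.Adj c b) then (1 : ℝ) else 0 := by
      intro c
      by_cases h1 : G.Adj a c <;> by_cases h2 : G.Adj c b <;> simp [h1, h2]
    simp only [this, Finset.sum_boole, cn]
  have h4 : (cn G a b : ℝ) = (cn H w v : ℝ) := by
    rw [← h3, ← h3]
    convert h2
  exact_mod_cast h4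

/-- distances are preserved -/
theorem dist_le (h : QIso G H u) : ∀ (n : ℕ) (a b : V) (w v : W), (∃ p : H.Walk w v, p.length = n) →
    u a w * u b v ≠ 0 → ∃ p : G.Walk a b, p.length ≤ n := by
  intro n
  induction n with
  | zero =>
    intro a b w v ⟨p, hp⟩ hne
    have hwv : w = v := SimpleGraph.Walk.eq_of_length_eq_zero hp
    subst hwv
    by_cases hab : a = b
    · subst hab
      exact ⟨SimpleGraph.Walk.nil, by simp⟩
    · exact absurd (h.colOrth a b w hab) hne
  | succ n ih =>
    intro a b w v ⟨p, hp⟩ hne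
    cases p with
    | nil => simp at hp
    | cons hadj q =>
      rename_i x
      simp only [SimpleGraph.Walk.length_cons, Nat.add_right_cancel_iff] at hp
      have h1 : u a w * u b v = ∑ c, u a w * u c x * u b v := by
        rw [← Finset.sum_mul, ← Finset.mul_sum, h.colSum, mul_one]
      rw [h1] at hne
      obtain ⟨c, -, hc⟩ := Finset.exists_ne_zero_of_sum_ne_zero hne
      have hac : G.Adj a c := by
        by_contra hac
        exact hc (by rw [h.adj a c w x (fun h' => hac (h'.2 hadj)), zero_mul])
      have hcb : u c x * u b v ≠ 0 := fun h' => hc (by rw [mul_assoc, h', mul_zero])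
      obtain ⟨p', hp'⟩ := ih c b x v ⟨q, hp⟩ hcb
      exact ⟨SimpleGraph.Walk.cons hac p', by simpa using hp'⟩

theorem dist_rel (h : QIso G H u) (hG : G.Connected) (hH : H.Connected) {a b : V} {w v : W}
    (hn : G.dist a b ≠ H.dist w v) : u a w * u b v = 0 := by
  by_contra hne
  apply hn
  apply le_antisymm
  · obtain ⟨p, hp⟩ := hH.exists_walk_length_eq_dist w v
    obtain ⟨q, hq⟩ := h.dist_le _ a b w v ⟨p, rfl⟩ hne
    exact (SimpleGraph.dist_le q).trans (hq.trans hp.le)
  · obtain ⟨p, hp⟩ := hG.exists_walk_length_eq_dist a b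
    obtain ⟨q, hq⟩ := h.transpose.dist_le _ w v a b ⟨p, rfl⟩ hne
    exact (SimpleGraph.dist_le q).trans (hq.trans hp.le)

/-- the intertwining relation for distances -/
theorem al_dist (h : QIso G H u) (hG : G.Connected) (hH : H.Connected) (o : W) (a : V) :
    al u (fun w => (H.dist w o : ℝ)) a = ∑ c, (G.dist a c : ℝ) • u c o := by
  have := (h.pres_iff (fun a b => (G.dist a b : ℝ)) (fun w v => (H.dist w v : ℝ))).1
    (fun a b w v hne => h.dist_rel hG hH (fun h' => hne (by simp [h'])))
  exact (this a o).symm

end QIso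

end

end Pool.Agent.H741.QS
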