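import Mathlib

set_option autoImplicit false
set_option linter.unusedSectionVars false
set_option linter.unusedVariables false

namespace Pool.Agent.H741.QS

/-- Cartesian product of a family of graphs. -/
def boxPi {ι : Type} {P : ι → Type} (G : ∀ i, SimpleGraph (P i)) : SimpleGraph (∀ i, P i) where
  Adj x y := ∃ i, (G i).Adj (x i) (y i) ∧ ∀ j, j ≠ i → x j = y j
  symm := ⟨fun _ _ ⟨i, h, h'⟩ => ⟨i, h.symm, fun j hj => (h' j hj).symm⟩⟩
  loopless := ⟨fun x ⟨i, h, _⟩ => (G i).loopless.irrefl _ h⟩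

/-- Not a nontrivial Cartesian product. -/
def PrimeGraph {V : Type} (G : SimpleGraph V) : Prop :=
  ∀ (V1 V2 : Type) [Fintype V1] [Fintype V2] (G1 : SimpleGraph V1) (G2 : SimpleGraph V2),
    2 ≤ Fintype.card V1 → 2 ≤ Fintype.card V2 → IsEmpty (G ≃g (G1 □ G2))

/-- `K_2` is not a Cartesian factor. -/
def NoK2 {V : Type} (G : SimpleGraph V) : Prop :=
  ∀ (W : Type) [Fintype W] (Y : SimpleGraph W), IsEmpty (G ≃g ((⊤ : SimpleGraph Bool) □ Y))

theorem boxPi_adj {ι : Type} {P : ι → Type} {G : ∀ i, SimpleGraph (P i)} {x y : ∀ i, P i} :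
    (boxPi G).Adj x y ↔ ∃ i, (G i).Adj (x i) (y i) ∧ ∀ j, j ≠ i → x j = y j := Iff.rfl

def prodCongr {A A' B B' : Type} {GA : SimpleGraph A} {GA' : SimpleGraph A'} {GB : SimpleGraph B}
    {GB' : SimpleGraph B'} (e : GA ≃g GA') (f : GB ≃g GB') : (GA □ GB) ≃g (GA' □ GB') where
  toEquiv := Equiv.prodCongr e.toEquiv f.toEquiv
  map_rel_iff' := by
    rintro ⟨a, b⟩ ⟨a', b'⟩
    simp only [SimpleGraph.boxProd_adj, Equiv.prodCongr_apply, Prod.map_apply]
    have h1 : GA'.Adj (e.toEquiv a) (e.toEquiv a') ↔ GA.Adj a a' := e.map_rel_iff'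
    have h2 : GB'.Adj (f.toEquiv b) (f.toEquiv b') ↔ GB.Adj b b' := f.map_rel_iff'
    rw [h1, h2]
    simp

theorem noK2_left {V V1 V2 : Type} [Fintype V2] {X : SimpleGraph V} {G1 : SimpleGraph V1}
    {G2 : SimpleGraph V2} (hK : NoK2 X) (e : X ≃g (G1 □ G2)) : NoK2 G1 := by
  intro W _ Y
  refine ⟨fun f => ?_⟩
  exact (hK (W × V2) (Y □ G2)).false
    (e.trans ((prodCongr f (SimpleGraph.Iso.refl (G := G2))).trans (SimpleGraph.boxProdAssoc _ _ _)))

theorem noK2_right {V V1 V2 : Type} [Fintype V1] {X : SimpleGraph V} {G1 : SimpleGraph V1}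
    {G2 : SimpleGraph V2} (hK : NoK2 X) (e : X ≃g (G1 □ G2)) : NoK2 G2 :=
  noK2_left hK (e.trans (SimpleGraph.boxProdComm _ _))

/-- the family over a sum of index types -/
def sumFam {ι₁ ι₂ : Type} {P₁ : ι₁ → Type} {P₂ : ι₂ → Type} (G₁ : ∀ i, SimpleGraph (P₁ i))
    (G₂ : ∀ i, SimpleGraph (P₂ i)) : ∀ i : ι₁ ⊕ ι₂, SimpleGraph (Sum.elim P₁ P₂ i)
  | Sum.inl a => G₁ a
  | Sum.inr b => G₂ b

def sumIso {ι₁ ι₂ : Type} {P₁ : ι₁ → Type} {P₂ : ι₂ → Type} (G₁ : ∀ i, SimpleGraph (P₁ i))
    (G₂ : ∀ i, SimpleGraph (P₂ i)) : (boxPi G₁ □ boxPi G₂) ≃g boxPi (sumFam G₁ G₂) where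
  toEquiv := (Equiv.sumPiEquivProdPi (Sum.elim P₁ P₂)).symm
  map_rel_iff' := by
    rintro ⟨x1, x2⟩ ⟨y1, y2⟩
    rw [SimpleGraph.boxProd_adj, boxPi_adj, boxPi_adj, boxPi_adj]
    constructor
    · rintro ⟨i | i, h1, h2⟩
      · left
        refine ⟨⟨i, h1, fun j hj => h2 (Sum.inl j) (fun h => hj (Sum.inl.inj h))⟩, ?_⟩
        funext j
        exact h2 (Sum.inr j) (by simp)
      · right
        refine ⟨⟨i, h1, fun j hj => h2 (Sum.inr j) (fun h => hj (Sum.inr.inj h))⟩, ?_⟩
        funext j
        exact h2 (Sum.inl j) (by simp)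
    · rintro (⟨⟨i, h1, h2⟩, h3⟩ | ⟨⟨i, h1, h2⟩, h3⟩)
      · refine ⟨Sum.inl i, h1, ?_⟩
        rintro (j | j) hj
        · exact h2 j (fun h => hj (by rw [h]))
        · exact congrFun h3 j
      · refine ⟨Sum.inr i, h1, ?_⟩
        rintro (j | j) hj
        · exact congrFun h3 j
        · exact h2 j (fun h => hj (by rw [h]))

theorem exists_aux (n : ℕ) : ∀ {V : Type} [Fintype V] (X : SimpleGraph V), Fintype.card V = n → X.Connected →
    NoK2 X →
    ∃ (ι : Type) (_ : Fintype ι) (_ : DecidableEq ι) (P : ι → Type) (_ : ∀ i, Fintype (P i))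
      (G : ∀ i, SimpleGraph (P i)),
      (∀ i, (G i).Connected ∧ 2 ≤ Fintype.card (P i) ∧ PrimeGraph (G i) ∧ NoK2 (G i)) ∧
      Nonempty (X ≃g boxPi G) := by
  induction n using Nat.strong_induction_on with
  | _ n ih =>
    intro V _ X hcard hX hK
    by_cases h2 : 2 ≤ Fintype.card V
    · by_cases hp : PrimeGraph X
      · refine ⟨Unit, inferInstance, inferInstance, fun _ => V, fun _ => inferInstance, fun _ => X,
          fun _ => ⟨hX, h2, hp, hK⟩, ⟨⟨(Equiv.funUnique Unit V).symm, ?_⟩⟩⟩
        intro a b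
        rw [boxPi_adj]
        constructor
        · rintro ⟨_, h, _⟩; exact h
        · intro h; exact ⟨(), h, fun j hj => absurd rfl hj⟩
      · unfold PrimeGraph at hp
        push Not at hp
        obtain ⟨V1, V2, f1, f2, G1, G2, c1, c2, he⟩ := hp
        obtain ⟨e⟩ := he
        have hc : Fintype.card V = Fintype.card V1 * Fintype.card V2 := by
          rw [Fintype.card_congr e.toEquiv, Fintype.card_prod]
        have hcon : (G1 □ G2).Connected := (e.connected_iff).mp hX
        obtain ⟨hc1, hc2⟩ := SimpleGraph.connected_boxProd.mp hcon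
        obtain ⟨ι₁, i1, i2, P₁, i3, H₁, p1, ⟨q1⟩⟩ := ih (Fintype.card V1) (by nlinarith) G1 rfl hc1 (noK2_left hK e)
        obtain ⟨ι₂, j1, j2, P₂, j3, H₂, p2, ⟨q2⟩⟩ := ih (Fintype.card V2) (by nlinarith) G2 rfl hc2 (noK2_right hK e)
        refine ⟨ι₁ ⊕ ι₂, inferInstance, inferInstance, Sum.elim P₁ P₂,
          fun i => match i with
            | Sum.inl a => i3 a
            | Sum.inr b => j3 b,
          sumFam H₁ H₂, ?_, ⟨e.trans ((prodCongr q1 q2).trans (sumIso H₁ H₂))⟩⟩
        rintro (a | b)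
        · exact p1 a
        · exact p2 b
    · have hne : Nonempty V := hX.nonempty
      have hle : Fintype.card V ≤ 1 := by omega
      have hss : Subsingleton V := Fintype.card_le_one_iff_subsingleton.mp hle
      obtain ⟨v⟩ := hne
      refine ⟨Empty, inferInstance, inferInstance, fun _ => Unit, fun _ => inferInstance, fun _ => ⊤,
        fun i => i.elim, ⟨⟨⟨fun _ i => i.elim, fun _ => v, fun a => Subsingleton.elim _ _,
          fun f => by funext i; exact i.elim⟩, ?_⟩⟩⟩
      intro a b
      rw [boxPi_adj]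
      constructor
      · rintro ⟨i, _⟩; exact i.elim
      · intro h
        exact absurd (Subsingleton.elim a b) h.ne

/-- prime factorization -/
theorem exists_prime_factorization {V : Type} [Fintype V] (X : SimpleGraph V) (hX : X.Connected)
    (hK : NoK2 X) :
    ∃ (ι : Type) (_ : Fintype ι) (_ : DecidableEq ι) (P : ι → Type) (_ : ∀ i, Fintype (P i))
      (G : ∀ i, SimpleGraph (P i)),
      (∀ i, (G i).Connected ∧ 2 ≤ Fintype.card (P i) ∧ PrimeGraph (G i) ∧ NoK2 (G i)) ∧
      Nonempty (X ≃g boxPi G) :=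
  exists_aux _ X rfl hX hK

/-- squares -/
theorem boxPi_square {ι : Type} {P : ι → Type} (G : ∀ i, SimpleGraph (P i)) :
    ∃ e : ((boxPi G) □ (boxPi G)) ≃g boxPi (fun k : ι × Bool => G k.1),
      ∀ x y k, e (x, y) k = if k.2 then y k.1 else x k.1 := by
  refine ⟨⟨⟨fun p k => if k.2 then p.2 k.1 else p.1 k.1, fun f => (fun i => f (i, false), fun i => f (i, true)), ?_, ?_⟩, ?_⟩,
    fun x y k => rfl⟩
  · rintro ⟨x, y⟩
    simp
  · intro f
    funext ⟨i, b⟩
    cases b <;> simp
  · rintro ⟨x1, x2⟩ ⟨y1, y2⟩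
    rw [SimpleGraph.boxProd_adj, boxPi_adj, boxPi_adj, boxPi_adj]
    simp only [Equiv.coe_fn_mk]
    constructor
    · rintro ⟨⟨i, b⟩, h1, h2⟩
      cases b
      · left
        simp only [Bool.false_eq_true, if_false] at h1
        refine ⟨⟨i, h1, fun j hj => ?_⟩, ?_⟩
        · have := h2 (j, false) (by simpa using hj)
          simpa using this
        · funext j
          have := h2 (j, true) (by simp)
          simpa using this
      · right
        simp only [if_true] at h1
        refine ⟨⟨i, h1, fun j hj => ?_⟩, ?_⟩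
        · have := h2 (j, true) (by simpa using hj)
          simpa using this
        · funext j
          have := h2 (j, false) (by simp)
          simpa using this
    · rintro (⟨⟨i, h1, h2⟩, h3⟩ | ⟨⟨i, h1, h2⟩, h3⟩)
      · refine ⟨(i, false), by simpa using h1, ?_⟩
        rintro ⟨j, b⟩ hj
        cases b
        · have : j ≠ i := by simpa using hj
          simpa using h2 j this
        · simpa using congrFun h3 j
      · refine ⟨(i, true), by simpa using h1, ?_⟩
        rintro ⟨j, b⟩ hj
        cases b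
        · simpa using congrFun h3 j
        · have : j ≠ i := by simpa using hj
          simpa using h2 j this

/-- inclusion of one coordinate -/
def coordHom {ι : Type} [DecidableEq ι] {P : ι → Type} (G : ∀ i, SimpleGraph (P i)) (x : ∀ i, P i) (a : ι) :
    (G a) →g boxPi G where
  toFun t := Function.update x a t
  map_rel' := by
    intro s t h
    rw [boxPi_adj]
    refine ⟨a, by simpa using h, fun j hj => ?_⟩
    rw [Function.update_of_ne hj, Function.update_of_ne hj]

theorem reach_dist {ι : Type} [DecidableEq ι] {P : ι → Type} (G : ∀ i, SimpleGraph (P i))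
    (h : ∀ i, (G i).Connected) (s : Finset ι) : ∀ x y : ∀ i, P i, (∀ i, i ∉ s → x i = y i) →
    ∃ p : (boxPi G).Walk x y, p.length = ∑ i ∈ s, (G i).dist (x i) (y i) := by
  induction s using Finset.induction_on with
  | empty =>
    intro x y hxy
    have : x = y := by funext i; exact hxy i (by simp)
    subst this
    exact ⟨SimpleGraph.Walk.nil, by simp⟩
  | insert a s ha ih =>
    intro x y hxy
    obtain ⟨p, hp⟩ := (h a).exists_walk_length_eq_dist (x a) (y a)
    have e1 : coordHom G x a (x a) = x := Function.update_eq_self a x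
    have e2 : coordHom G x a (y a) = Function.update x a (y a) := rfl
    obtain ⟨q, hq⟩ := ih (Function.update x a (y a)) y (by
      intro i hi
      by_cases hia : i = a
      · subst hia; simp
      · rw [Function.update_of_ne hia]
        exact hxy i (by simp [hia, hi]))
    refine ⟨((p.map (coordHom G x a)).copy e1 e2).append q, ?_⟩
    rw [SimpleGraph.Walk.length_append, SimpleGraph.Walk.length_copy, SimpleGraph.Walk.length_map, hp, hq,
      Finset.sum_insert ha]
    congr 1
    apply Finset.sum_congr rfl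
    intro i hi
    have : i ≠ a := fun h => ha (h ▸ hi)
    rw [Function.update_of_ne this]

/-- auxiliary -/
theorem boxPi_connected {ι : Type} [Fintype ι] {P : ι → Type} (G : ∀ i, SimpleGraph (P i))
    (h : ∀ i, (G i).Connected) : (boxPi G).Connected := by
  classical
  have hne : Nonempty (∀ i, P i) := by
    have : ∀ i, Nonempty (P i) := fun i => (h i).nonempty
    exact inferInstance
  refine ⟨fun x y => ?_⟩
  obtain ⟨p, _⟩ := reach_dist G h Finset.univ x y (fun i hi => absurd (Finset.mem_univ i) hi)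
  exact ⟨p⟩

theorem sum_dist_le {ι : Type} [Fintype ι] {P : ι → Type} (G : ∀ i, SimpleGraph (P i))
    (h : ∀ i, (G i).Connected) {x y : ∀ i, P i} (p : (boxPi G).Walk x y) :
    ∑ i, (G i).dist (x i) (y i) ≤ p.length := by
  classical
  induction p with
  | nil => simp
  | @cons x x' y hadj p ih =>
    rw [SimpleGraph.Walk.length_cons]
    obtain ⟨i0, h1, h2⟩ := boxPi_adj.mp hadj
    calc ∑ i, (G i).dist (x i) (y i) ≤ ∑ i, ((G i).dist (x i) (x' i) + (G i).dist (x' i) (y i)) :=
          Finset.sum_le_sum fun i _ => (h i).dist_triangle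
      _ = ∑ i, (G i).dist (x i) (x' i) + ∑ i, (G i).dist (x' i) (y i) := Finset.sum_add_distrib
      _ ≤ 1 + p.length := by
          apply add_le_add _ ih
          rw [Finset.sum_eq_single i0]
          · exact (SimpleGraph.dist_eq_one_iff_adj.mpr h1).le
          · intro j _ hj
            rw [h2 j hj, SimpleGraph.dist_self]
          · intro h; exact absurd (Finset.mem_univ _) h
      _ = p.length + 1 := by ring

/-- distances add up -/
theorem boxPi_dist {ι : Type} [Fintype ι] {P : ι → Type} (G : ∀ i, SimpleGraph (P i))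
    (h : ∀ i, (G i).Connected) (x y : ∀ i, P i) :
    (boxPi G).dist x y = ∑ i, (G i).dist (x i) (y i) := by
  classical
  apply le_antisymm
  · obtain ⟨p, hp⟩ := reach_dist G h Finset.univ x y (fun i hi => absurd (Finset.mem_univ i) hi)
    rw [← hp]
    exact SimpleGraph.dist_le p
  · obtain ⟨p, hp⟩ := (boxPi_connected G h).exists_walk_length_eq_dist x y
    rw [← hp]
    exact sum_dist_le G h p

/-- `x`, `y` differ exactly in coordinate `k`, where they are adjacent -/
def DirAdj {ι : Type} {P : ι → Type} (G : ∀ i, SimpleGraph (P i)) (k : ι) (x y : ∀ i, P i) : Prop :=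
  (G k).Adj (x k) (y k) ∧ ∀ j, j ≠ k → x j = y j

end Pool.Agent.H741.QS
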