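import Pool.Agent.Helper741.QSym.Basic

set_option autoImplicit false
set_option linter.unusedSectionVars false
set_option linter.unusedVariables false

namespace Pool.Agent.H741.QS

/-- a set of (oriented) edges closed under the local parallelism moves -/
structure ParClosed {V : Type} (G : SimpleGraph V) (S : V → V → Prop) : Prop where
  flip : ∀ a b, G.Adj a b → S a b → S b a
  loc : ∀ a b c, G.Adj a b → G.Adj a c → b ≠ c → (¬ ∃ d, Diag G b c a d) → S a b → S a c
  sq : ∀ a b c d, Diag G b c a d → S a b → S c d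
  tw : ∀ a b c d z, Diag G b c a d → Diag G a d b c →
     (G.dist a z : ℤ) - G.dist b z - G.dist c z + G.dist d z ≠ 0 → S a b → S a c

open Relation

section

variable {V : Type} {G : SimpleGraph V}

theorem Diag.swap {b c a d : V} (h : Diag G b c a d) : Diag G c b a d := by
  obtain ⟨h1, h2, h3, h4⟩ := h
  exact ⟨h1.symm, fun h => h2 h.symm, h3, fun e => by rw [and_comm]; exact h4 e⟩

theorem Diag.swap2 {b c a d : V} (h : Diag G b c a d) : Diag G b c d a := by
  obtain ⟨h1, h2, h3, h4⟩ := h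
  exact ⟨h1, h2, h3.symm, fun e => by rw [or_comm]; exact h4 e⟩

theorem Diag.adjA1 {b c a d : V} (h : Diag G b c a d) : G.Adj b a ∧ G.Adj c a :=
  (h.2.2.2 a).2 (Or.inl rfl)

theorem Diag.adjA2 {b c a d : V} (h : Diag G b c a d) : G.Adj b d ∧ G.Adj c d :=
  (h.2.2.2 d).2 (Or.inr rfl)

/-- two complementary colours -/
structure Two (G : SimpleGraph V) (E1 E2 : V → V → Prop) : Prop where
  symm1 : ∀ a b, E1 a b → E1 b a
  symm2 : ∀ a b, E2 a b → E2 b a
  adj : ∀ a b, G.Adj a b ↔ E1 a b ∨ E2 a b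
  sq : ∀ a b c, E1 a b → E2 a c → ∃ d, E1 c d ∧ E2 b d ∧ G.dist b c = 2 ∧
    ∀ z, (G.dist a z : ℤ) - G.dist b z - G.dist c z + G.dist d z = 0

theorem Two.swap {E1 E2 : V → V → Prop} (h : Two G E1 E2) : Two G E2 E1 where
  symm1 := h.symm2
  symm2 := h.symm1
  adj := fun a b => by rw [h.adj, or_comm]
  sq := by
    intro a b c hb hc
    obtain ⟨d, h1, h2, h3, h4⟩ := h.sq a c b hc hb
    refine ⟨d, h2, h1, by rw [SimpleGraph.dist_comm]; exact h3, fun z => ?_⟩
    have := h4 z
    linarith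

theorem two_of_par (hG : G.Connected) {S : V → V → Prop} (hS : ParClosed G S) :
    Two G (fun a b => G.Adj a b ∧ S a b) (fun a b => G.Adj a b ∧ ¬ S a b) where
  symm1 := fun a b h => ⟨h.1.symm, hS.flip a b h.1 h.2⟩
  symm2 := fun a b h => ⟨h.1.symm, fun h2 => h.2 (hS.flip b a h.1.symm h2)⟩
  adj := fun a b => by
    constructor
    · intro h
      by_cases h2 : S a b
      · exact Or.inl ⟨h, h2⟩
      · exact Or.inr ⟨h, h2⟩
    · rintro (h | h)
      · exact h.1
      · exact h.1
  sq := by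
    rintro a b c ⟨hab, hSab⟩ ⟨hac, hSac⟩
    have hbc : b ≠ c := by rintro rfl; exact hSac hSab
    obtain ⟨d, hd⟩ : ∃ d, Diag G b c a d := by
      by_contra hcon
      exact hSac (hS.loc a b c hab hac hbc hcon hSab)
    have hScd : S c d := hS.sq a b c d hd hSab
    have hSbd : ¬ S b d := by
      intro h
      -- S d b, then sq on (d, b, c, a)
      have h1 : S d b := hS.flip b d hd.adjA2.1 h
      have h2 : S c a := hS.sq d b c a hd.swap2 h1
      exact hSac (hS.flip c a hac.symm h2)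
    obtain ⟨e, he⟩ : ∃ e, Diag G a d b e := by
      by_contra hcon
      exact hSbd (hS.loc b a d hab.symm hd.adjA2.1 hd.2.2.1 hcon (hS.flip a b hab hSab))
    have hce : c = e := by
      rcases (he.2.2.2 c).1 ⟨hac, hd.adjA2.2.symm⟩ with h | h
      · exact absurd h hbc.symm
      · exact h
    subst hce
    refine ⟨d, ⟨hd.adjA2.2, hScd⟩, ⟨hd.adjA2.1, hSbd⟩, ?_, fun z => ?_⟩
    · have h1 : G.dist b c ≤ G.dist b a + G.dist a c := hG.dist_triangle
      have h2 : G.dist b a = 1 := SimpleGraph.dist_eq_one_iff_adj.2 hab.symm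
      have h3 : G.dist a c = 1 := SimpleGraph.dist_eq_one_iff_adj.2 hac
      have h4 : G.dist b c ≠ 1 := fun h => hd.2.1 (SimpleGraph.dist_eq_one_iff_adj.1 h)
      have h5 : G.dist b c ≠ 0 := fun h => hbc (hG.dist_eq_zero_iff.1 h)
      omega
    · by_contra hcon
      exact hSac (hS.tw a b c d z hd he hcon hSab)

variable {E1 E2 : V → V → Prop}

theorem Two.push (h : Two G E1 E2) {m y : V} (hp : ReflTransGen E1 m y) :
    ∀ {y' : V}, E2 y y' → ∃ m'', E2 m m'' ∧ ReflTransGen E1 m'' y' ∧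
      ∀ z, (G.dist y z : ℤ) - G.dist y' z = G.dist m z - G.dist m'' z := by
  induction hp with
  | refl =>
    intro y' hy
    exact ⟨y', hy, ReflTransGen.refl, fun z => rfl⟩
  | @tail y0 y _ h2 ih =>
    intro y' hy
    obtain ⟨d, hd1, hd2, _, hd4⟩ := h.sq y y0 y' (h.symm1 _ _ h2) hy
    obtain ⟨m'', hm1, hm2, hm3⟩ := ih hd2
    refine ⟨m'', hm1, hm2.tail (h.symm1 _ _ hd1), fun z => ?_⟩
    have e1 := hd4 z
    have e2 := hm3 z
    linarith

theorem Two.rev1 (h : Two G E1 E2) {x y : V} (hp : ReflTransGen E1 x y) :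
    ReflTransGen E1 y x := by
  induction hp with
  | refl => exact ReflTransGen.refl
  | tail _ h2 ih => exact ReflTransGen.head (h.symm1 _ _ h2) ih

theorem Two.rev2 (h : Two G E1 E2) {x y : V} (hp : ReflTransGen E2 x y) :
    ReflTransGen E2 y x := h.swap.rev1 hp

theorem Two.sort (h : Two G E1 E2) (hG : G.Connected) (x y : V) :
    ∃ m, ReflTransGen E2 x m ∧ ReflTransGen E1 m y := by
  obtain ⟨p⟩ := hG.preconnected y x
  induction p with
  | nil => exact ⟨_, ReflTransGen.refl, ReflTransGen.refl⟩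
  | cons hadj p ih =>
    obtain ⟨m, hm1, hm2⟩ := ih
    rcases (h.adj _ _).1 hadj.symm with h1 | h1
    · exact ⟨m, hm1, hm2.tail h1⟩
    · obtain ⟨m'', h3, h4, _⟩ := h.push hm2 h1
      exact ⟨m'', hm1.tail h3, h4⟩

theorem Two.f3 (h : Two G E1 E2) (hG : G.Connected) {x x' y y' : V} (hx : E1 x x')
    (hy : E2 y y') :
    (G.dist x y : ℤ) - G.dist x y' - G.dist x' y + G.dist x' y' = 0 := by
  obtain ⟨m, hm1, hm2⟩ := h.sort hG x y
  obtain ⟨m', h1, _, h3⟩ := h.swap.push (h.rev2 hm1) hx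
  obtain ⟨m'', h4, _, h6⟩ := h.push hm2 hy
  obtain ⟨d, _, _, h7, _⟩ := h.sq m m' m'' h1 h4
  have hd1 : G.dist m m' = 1 :=
    SimpleGraph.dist_eq_one_iff_adj.2 ((h.adj _ _).2 (Or.inl h1))
  have hd2 : G.dist m m'' = 1 :=
    SimpleGraph.dist_eq_one_iff_adj.2 ((h.adj _ _).2 (Or.inr h4))
  have e1 := h3 y
  have e2 := h3 y'
  have e3 := h6 m
  have e4 := h6 m'
  rw [G.dist_comm (u := y), G.dist_comm (u := y'), SimpleGraph.dist_self,
    G.dist_comm (u := m'') (v := m), hd2] at e3
  rw [G.dist_comm (u := y), G.dist_comm (u := y'), hd1, G.dist_comm (u := m'') (v := m'), h7] at e4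
  push_cast at *
  linarith

theorem Two.f4 (h : Two G E1 E2) (hG : G.Connected) {x y : V} (h1 : ReflTransGen E1 x y)
    (h2 : ReflTransGen E2 x y) : x = y := by
  have hstep : ∀ {x y : V}, ReflTransGen E1 x y → ∀ z z', E2 z z' →
      (G.dist x z : ℤ) - G.dist x z' - G.dist y z + G.dist y z' = 0 := by
    intro x y hxy z z' hz
    induction hxy with
    | refl => ring
    | tail _ h4 ih =>
      have := h.f3 hG h4 hz
      linarith
  have hpath : ∀ {z z' : V}, ReflTransGen E2 z z' →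
      (G.dist x z : ℤ) - G.dist x z' - G.dist y z + G.dist y z' = 0 := by
    intro z z' hz
    induction hz with
    | refl => ring
    | tail _ h4 ih =>
      have := hstep h1 _ _ h4
      linarith
  have := hpath h2
  rw [SimpleGraph.dist_self, SimpleGraph.dist_self, G.dist_comm (u := y)] at this
  have h0 : G.dist x y = 0 := by
    have : (G.dist x y : ℤ) = 0 := by push_cast at this; linarith
    exact_mod_cast this
  exact hG.dist_eq_zero_iff.1 h0

theorem Two.lift (h : Two G E1 E2) (hG : G.Connected) {x y x' y' : V}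
    (h1 : ReflTransGen E1 x y) (hx : ReflTransGen E2 x x') (hy : ReflTransGen E2 y' y)
    (he : E1 x' y') : E1 x y := by
  obtain ⟨m, hm1, hm2, _⟩ := h.swap.push hx he
  have : m = y := h.f4 hG ((ReflTransGen.single (h.symm1 _ _ hm1)).trans h1) (hm2.trans hy)
  exact this ▸ hm1

/-- setoid of reachability -/
def Two.setoid2 (h : Two G E1 E2) : Setoid V where
  r := ReflTransGen E2
  iseqv := ⟨fun _ => ReflTransGen.refl, fun hp => h.rev2 hp, fun h1 h2 => h1.trans h2⟩

/-- the factor in which colour 1 lives -/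
def Two.fac (h : Two G E1 E2) (hG : G.Connected) : SimpleGraph (Quotient h.setoid2) where
  Adj p q := ∃ x y, (Quotient.mk h.setoid2 x) = p ∧ (Quotient.mk h.setoid2 y) = q ∧ E1 x y
  symm := ⟨by
    rintro p q ⟨x, y, h1, h2, h3⟩
    exact ⟨y, x, h2, h1, h.symm1 _ _ h3⟩⟩
  loopless := ⟨by
    rintro p ⟨x, y, h1, h2, h3⟩
    have h4 : ReflTransGen E2 x y := Quotient.exact (h1.trans h2.symm)
    have h5 := h.f4 hG (ReflTransGen.single h3) h4
    subst h5
    exact G.loopless.irrefl x ((h.adj _ _).2 (Or.inl h3))⟩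

theorem Two.fac_adj (h : Two G E1 E2) (hG : G.Connected) {x y : V}
    (h1 : ReflTransGen E1 x y) :
    (h.fac hG).Adj (Quotient.mk h.setoid2 x) (Quotient.mk h.setoid2 y) ↔ E1 x y := by
  constructor
  · rintro ⟨x', y', hx, hy, he⟩
    exact h.lift hG h1 (Quotient.exact hx.symm) (Quotient.exact hy) he
  · intro he
    exact ⟨x, y, rfl, rfl, he⟩

end

/-- auxiliary -/
theorem theoremF {V : Type} [Fintype V] (G : SimpleGraph V) (hG : G.Connected)
    (S : V → V → Prop) (hS : ParClosed G S)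
    (a b c d : V) (hab : G.Adj a b) (hSab : S a b) (hcd : G.Adj c d) (hScd : ¬ S c d) :
    ∃ (V1 V2 : Type) (_ : Fintype V1) (_ : Fintype V2) (G1 : SimpleGraph V1) (G2 : SimpleGraph V2),
      2 ≤ Fintype.card V1 ∧ 2 ≤ Fintype.card V2 ∧ Nonempty (G ≃g (G1 □ G2)) := by
  classical
  have h := two_of_par hG hS
  have h' := h.swap
  set E1 : V → V → Prop := fun a b => G.Adj a b ∧ S a b with hE1
  set E2 : V → V → Prop := fun a b => G.Adj a b ∧ ¬ S a b with hE2
  refine ⟨Quotient h.setoid2, Quotient h'.setoid2, Fintype.ofFinite _, Fintype.ofFinite _,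
    h.fac hG, h'.fac hG, ?_, ?_, ?_⟩
  · let : Fintype (Quotient h.setoid2) := Fintype.ofFinite _
    apply Fintype.one_lt_card_iff.2
    refine ⟨Quotient.mk _ a, Quotient.mk _ b, fun heq => ?_⟩
    exact hab.ne (h.f4 hG (ReflTransGen.single ⟨hab, hSab⟩) (Quotient.exact heq))
  · let : Fintype (Quotient h'.setoid2) := Fintype.ofFinite _
    apply Fintype.one_lt_card_iff.2
    refine ⟨Quotient.mk _ c, Quotient.mk _ d, fun heq => ?_⟩
    exact hcd.ne (h'.f4 hG (ReflTransGen.single ⟨hcd, hScd⟩) (Quotient.exact heq))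
  · have hbij : Function.Bijective (fun x : V =>
        ((Quotient.mk h.setoid2 x, Quotient.mk h'.setoid2 x) :
          Quotient h.setoid2 × Quotient h'.setoid2)) := by
      constructor
      · intro x y hxy
        have h1 := Quotient.exact (Prod.mk.inj hxy).1
        have h2 := Quotient.exact (Prod.mk.inj hxy).2
        exact h.f4 hG h2 h1
      · rintro ⟨p, q⟩
        obtain ⟨x, rfl⟩ := Quotient.exists_rep p
        obtain ⟨y, rfl⟩ := Quotient.exists_rep q
        obtain ⟨m, hm1, hm2⟩ := h.sort hG x y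
        exact ⟨m, Prod.ext (Quotient.sound (h.rev2 hm1)) (Quotient.sound hm2)⟩
    refine ⟨⟨Equiv.ofBijective _ hbij, ?_⟩⟩
    intro x y
    rw [SimpleGraph.boxProd_adj]
    simp only [Equiv.ofBijective_apply]
    constructor
    · rintro (⟨h1, h2⟩ | ⟨h1, h2⟩)
      · have h3 : ReflTransGen E1 x y := Quotient.exact h2
        exact ((h.fac_adj hG h3).1 h1).1
      · have h3 : ReflTransGen E2 x y := Quotient.exact h2
        exact ((h'.fac_adj hG h3).1 h1).1
    · intro hxy
      rcases (h.adj x y).1 hxy with h1 | h1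
      · left
        exact ⟨(h.fac_adj hG (ReflTransGen.single h1)).2 h1, Quotient.sound (ReflTransGen.single h1)⟩
      · right
        exact ⟨(h'.fac_adj hG (ReflTransGen.single h1)).2 h1, Quotient.sound (ReflTransGen.single h1)⟩

end Pool.Agent.H741.QS
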