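import Pool.Agent.Helper741.QSym.Box
import Pool.Agent.Helper741.QSym.GraphF

set_option autoImplicit false
set_option linter.unusedSectionVars false
set_option linter.unusedVariables false

namespace Pool.Agent.H741.QS

section aux

variable {ι : Type} [DecidableEq ι] {P : ι → Type} (G : ∀ i, SimpleGraph (P i)) (k : ι)

theorem pl_adj (z : ∀ i, P i) (p q : P k) :
    (boxPi G).Adj (Function.update z k p) (Function.update z k q) ↔ (G k).Adj p q := by
  constructor
  · rintro ⟨i, h1, h2⟩
    by_cases hi : i = k
    · subst hi
      simpa using h1
    · rw [Function.update_of_ne hi, Function.update_of_ne hi] at h1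
      exact absurd h1 ((G i).loopless.irrefl _)
  · intro h
    refine ⟨k, by simpa using h, fun j hj => ?_⟩
    rw [Function.update_of_ne hj, Function.update_of_ne hj]

theorem pl_nb (z e : ∀ i, P i) (p q : P k) (hpq : p ≠ q)
    (h1 : (boxPi G).Adj (Function.update z k p) e) (h2 : (boxPi G).Adj (Function.update z k q) e) :
    e = Function.update z k (e k) := by
  obtain ⟨i, hi1, hi2⟩ := h1
  obtain ⟨j, hj1, hj2⟩ := h2
  have hik : i = k := by
    by_contra hik
    have e1 := hi2 k (Ne.symm hik)
    rw [Function.update_self] at e1
    rw [Function.update_of_ne hik] at hi1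
    by_cases hjk : j = k
    · have e2 := hj2 i (by rw [hjk]; exact hik)
      rw [Function.update_of_ne hik] at e2
      rw [e2] at hi1
      exact (G i).loopless.irrefl _ hi1
    · have e2 := hj2 k (Ne.symm hjk)
      rw [Function.update_self] at e2
      exact hpq (e1.trans e2.symm)
  subst hik
  funext l
  by_cases hl : l = i
  · subst hl; simp
  · have := hi2 l hl
    rw [Function.update_of_ne hl] at this ⊢
    exact this.symm

theorem pl_diag (z : ∀ i, P i) (b c a d : P k) :
    Diag (boxPi G) (Function.update z k b) (Function.update z k c) (Function.update z k a)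
      (Function.update z k d) ↔ Diag (G k) b c a d := by
  have hinj := Function.update_injective z k
  constructor
  · rintro ⟨h1, h2, h3, h4⟩
    refine ⟨fun h => h1 (by rw [h]), fun h => h2 ((pl_adj G k z b c).2 h),
      fun h => h3 (by rw [h]), fun e => ?_⟩
    have := h4 (Function.update z k e)
    rw [pl_adj, pl_adj, hinj.eq_iff, hinj.eq_iff] at this
    exact this
  · rintro ⟨h1, h2, h3, h4⟩
    refine ⟨fun h => h1 (hinj h), fun h => h2 ((pl_adj G k z b c).1 h), fun h => h3 (hinj h),
      fun e => ?_⟩
    constructor
    · rintro ⟨e1, e2⟩
      have he := pl_nb G k z e b c h1 e1 e2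
      rw [he, pl_adj] at e1
      rw [he, pl_adj] at e2
      rcases (h4 _).1 ⟨e1, e2⟩ with h | h
      · left; rw [he, h]
      · right; rw [he, h]
    · rintro (rfl | rfl)
      · rw [pl_adj, pl_adj]; exact (h4 _).2 (Or.inl rfl)
      · rw [pl_adj, pl_adj]; exact (h4 _).2 (Or.inr rfl)

theorem pl_dist [Fintype ι] (hG : ∀ i, (G i).Connected) (z : ∀ i, P i) (p t : P k) :
    (boxPi G).dist (Function.update z k p) (Function.update z k t) = (G k).dist p t := by
  rw [boxPi_dist G hG, Finset.sum_eq_single k]
  · simp
  · intro j _ hj
    rw [Function.update_of_ne hj, Function.update_of_ne hj, SimpleGraph.dist_self]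
  · intro h; exact absurd (Finset.mem_univ k) h

theorem pl_closed [Fintype ι] (hG : ∀ i, (G i).Connected)
    (S : (∀ i, P i) → (∀ i, P i) → Prop) (hS : ParClosed (boxPi G) S) (z : ∀ i, P i) :
    ParClosed (G k) (fun a b => S (Function.update z k a) (Function.update z k b)) := by
  constructor
  · intro a b hab h
    exact hS.flip _ _ ((pl_adj G k z a b).2 hab) h
  · intro a b c hab hac hbc hno h
    refine hS.loc _ _ _ ((pl_adj G k z a b).2 hab) ((pl_adj G k z a c).2 hac)
      (fun h => hbc (Function.update_injective z k h)) ?_ h
    rintro ⟨w, hw⟩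
    have h1 := (hw.2.2.2 w).2 (Or.inr rfl)
    have h2 := pl_nb G k z w b c hbc h1.1 h1.2
    rw [h2, pl_diag] at hw
    exact hno ⟨_, hw⟩
  · intro a b c d hd h
    exact hS.sq _ _ _ _ ((pl_diag G k z b c a d).2 hd) h
  · intro a b c d t hd1 hd2 ht h
    refine hS.tw _ _ _ _ (Function.update z k t) ((pl_diag G k z b c a d).2 hd1)
      ((pl_diag G k z a d b c).2 hd2) ?_ h
    rw [pl_dist G k hG, pl_dist G k hG, pl_dist G k hG, pl_dist G k hG]
    exact ht

theorem pl_move (z w : ∀ i, P i) (i : ι) (hik : i ≠ k) (hzw : (G i).Adj (z i) (w i))
    (hzw' : ∀ j, j ≠ i → z j = w j) (p q : P k) (hpq : (G k).Adj p q) :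
    Diag (boxPi G) (Function.update z k q) (Function.update w k p) (Function.update z k p)
      (Function.update w k q) := by
  have hpq' : p ≠ q := hpq.ne
  have hz' : z i ≠ w i := hzw.ne
  have hdir : ∀ r : P k, (boxPi G).Adj (Function.update z k r) (Function.update w k r) := by
    intro r
    refine ⟨i, ?_, fun j hj => ?_⟩
    · rw [Function.update_of_ne hik, Function.update_of_ne hik]; exact hzw
    · by_cases hjk : j = k
      · subst hjk; simp
      · rw [Function.update_of_ne hjk, Function.update_of_ne hjk]; exact hzw' j hj
  refine ⟨?_, ?_, ?_, ?_⟩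
  · intro h
    have := congrFun h k
    simp only [Function.update_self] at this
    exact hpq' this.symm
  · rintro ⟨l, _, hl2⟩
    by_cases hl : l = k
    · have := hl2 i (by rw [hl]; exact hik)
      rw [Function.update_of_ne hik, Function.update_of_ne hik] at this
      exact hz' this
    · have := hl2 k (Ne.symm hl)
      simp only [Function.update_self] at this
      exact hpq' this.symm
  · intro h
    have := congrFun h k
    simp only [Function.update_self] at this
    exact hpq' this
  · intro e
    constructor
    · rintro ⟨⟨l1, h1, h1'⟩, ⟨l2, h2, h2'⟩⟩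
      by_cases hl1 : l1 = k
      · left
        have e1 : ∀ j, j ≠ k → z j = e j := by
          intro j hj
          have := h1' j (by rw [hl1]; exact hj)
          rwa [Function.update_of_ne hj] at this
        have e2 : l2 = i := by
          by_contra hne
          have := h2' i (Ne.symm hne)
          rw [Function.update_of_ne hik, ← e1 i hik] at this
          exact hz' this.symm
        have e3 := h2' k (by rw [e2]; exact Ne.symm hik)
        rw [Function.update_self] at e3
        funext j
        by_cases hj : j = k
        · subst hj; rw [Function.update_self]; exact e3.symm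
        · rw [Function.update_of_ne hj]; exact (e1 j hj).symm
      · right
        have e1 := h1' k (Ne.symm hl1)
        rw [Function.update_self] at e1
        have e2 : l2 = k := by
          by_contra hne
          have := h2' k (Ne.symm hne)
          rw [Function.update_self] at this
          exact hpq' (this.trans e1.symm)
        funext j
        by_cases hj : j = k
        · subst hj; rw [Function.update_self]; exact e1.symm
        · have := h2' j (by rw [e2]; exact hj)
          rw [Function.update_of_ne hj] at this ⊢
          exact this.symm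
    · rintro (rfl | rfl)
      · exact ⟨(pl_adj G k z q p).2 hpq.symm, (hdir p).symm⟩
      · exact ⟨hdir q, (pl_adj G k w p q).2 hpq⟩

end aux

/-- auxiliary -/
theorem par_lift {ι : Type} [Fintype ι] [DecidableEq ι] {P : ι → Type}
    (G : ∀ i, SimpleGraph (P i)) (hG : ∀ i, (G i).Connected)
    (hirr : ∀ i (S : P i → P i → Prop), ParClosed (G i) S →
      (∃ a b, (G i).Adj a b ∧ S a b) → ∀ a b, (G i).Adj a b → S a b)
    (S : (∀ i, P i) → (∀ i, P i) → Prop) (hS : ParClosed (boxPi G) S)
    (k : ι) (x x' y y' : ∀ i, P i) (hx : DirAdj G k x x') (hy : DirAdj G k y y')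
    (h : S x x') : S y y' := by
  have hstep : ∀ z w : (∀ i, P i), (boxPi G).Adj z w →
      (∀ p q, (G k).Adj p q → S (Function.update z k p) (Function.update z k q)) →
      (∀ p q, (G k).Adj p q → S (Function.update w k p) (Function.update w k q)) := by
    rintro z w ⟨i, hi1, hi2⟩ hz p q hpq
    by_cases hik : i = k
    · have : ∀ r : P k, Function.update w k r = Function.update z k r := by
        intro r
        funext j
        by_cases hj : j = k
        · subst hj; simp
        · rw [Function.update_of_ne hj, Function.update_of_ne hj, hi2 j (by rw [hik]; exact hj)]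
      rw [this, this]
      exact hz p q hpq
    · exact hS.sq _ _ _ _ (pl_move G k z w i hik hi1 hi2 p q hpq) (hz p q hpq)
  have hreach : ∀ z w : (∀ i, P i), (boxPi G).Reachable z w →
      (∀ p q, (G k).Adj p q → S (Function.update z k p) (Function.update z k q)) →
      (∀ p q, (G k).Adj p q → S (Function.update w k p) (Function.update w k q)) := by
    rintro z w ⟨W⟩
    induction W with
    | nil => exact id
    | cons hadj _ ih => exact fun hz => ih (hstep _ _ hadj hz)
  have hx0 : Function.update x k (x k) = x := Function.update_eq_self k x
  have hx1 : Function.update x k (x' k) = x' := by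
    funext j
    by_cases hj : j = k
    · subst hj; simp
    · rw [Function.update_of_ne hj]; exact hx.2 j hj
  have hy0 : Function.update y k (y k) = y := Function.update_eq_self k y
  have hy1 : Function.update y k (y' k) = y' := by
    funext j
    by_cases hj : j = k
    · subst hj; simp
    · rw [Function.update_of_ne hj]; exact hy.2 j hj
  have hQx := hirr k _ (pl_closed G k hG S hS x) ⟨x k, x' k, hx.1, by rw [hx0, hx1]; exact h⟩
  have hQy := hreach x y ((boxPi_connected G hG).preconnected x y) hQx (y k) (y' k) hy.1
  rwa [hy0, hy1] at hQy

end Pool.Agent.H741.QS
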