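import Pool.Agent.Helper741.QSym.Good
import Pool.Agent.Helper741.QSym.Lift
import Pool.Agent.Helper741.QSym.Bad

set_option autoImplicit false
set_option linter.unusedSectionVars false

namespace Pool.Agent.H741.QS

section

variable {J : Type} [Fintype J] [DecidableEq J] {P : J → Type} [∀ k, Fintype (P k)]

/-- the other coordinates -/
def rest (P : J → Type) (l : J) (w : ∀ k, P k) : ∀ k : {k // k ≠ l}, P k.1 := fun k => w k.1

theorem split_boxPi (G : ∀ k, SimpleGraph (P k)) (hG : ∀ k, (G k).Connected) (l : J) :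
    Split (boxPi G) (G l) (boxPi fun k : {k // k ≠ l} => G k.1) (fun w => w l) (rest P l) where
  inj w v h1 h2 := by
    funext k
    by_cases hk : k = l
    · subst hk; exact h1
    · exact congrFun h2 ⟨k, hk⟩
  surj x y := by
    refine ⟨fun k => if h : k = l then h ▸ x else y ⟨k, h⟩, ?_, ?_⟩
    · simp
    · funext k
      simp [rest, k.2]
  adj w v := by
    constructor
    · rintro ⟨i, hi, hne⟩
      by_cases hil : i = l
      · subst hil
        left
        refine ⟨hi, ?_⟩
        funext k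
        exact hne k.1 k.2
      · right
        refine ⟨hne l (Ne.symm hil), ⟨⟨i, hil⟩, hi, ?_⟩⟩
        intro j hj
        apply hne j.1
        intro h
        exact hj (Subtype.ext h)
    · rintro (⟨h1, h2⟩ | ⟨h1, ⟨i, hi, hne⟩⟩)
      · exact ⟨l, h1, fun j hj => congrFun h2 ⟨j, hj⟩⟩
      · refine ⟨i.1, hi, fun j hj => ?_⟩
        by_cases hjl : j = l
        · subst hjl; exact h1
        · exact hne ⟨j, hjl⟩ fun h => hj (congrArg Subtype.val h)
  dist w v := by
    rw [boxPi_dist G hG, boxPi_dist _ (fun k : {k // k ≠ l} => hG k.1)]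
    rw [Fintype.sum_eq_add_sum_subtype_ne (fun i => (G i).dist (w i) (v i)) l]
    rfl
  conn := boxPi_connected G hG

theorem dir1_iff (G : ∀ k, SimpleGraph (P k)) (l : J) (w v : ∀ k, P k) :
    Dir1 (boxPi G) (rest P l) w v ↔ DirAdj G l w v := by
  constructor
  · rintro ⟨⟨i, hi, hne⟩, h2⟩
    have hil : i = l := by
      by_contra hil
      have : w i = v i := congrFun h2 ⟨i, hil⟩
      rw [this] at hi
      exact hi.ne rfl
    subst hil
    exact ⟨hi, hne⟩
  · rintro ⟨h1, h2⟩
    exact ⟨⟨l, h1, h2⟩, funext fun k => h2 k.1 k.2⟩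

theorem par_irred {V : Type} [Fintype V] (G : SimpleGraph V) (hG : G.Connected)
    (hp : PrimeGraph G) (S : V → V → Prop) (hS : ParClosed G S)
    (h : ∃ a b, G.Adj a b ∧ S a b) (a b : V) (hab : G.Adj a b) : S a b := by
  by_contra hn
  obtain ⟨c, d, hcd, hS1⟩ := h
  obtain ⟨V1, V2, i1, i2, G1, G2, h1, h2, ⟨e⟩⟩ := theoremF G hG S hS c d a b hcd hS1 hab hn
  exact (hp V1 V2 G1 G2 h1 h2).false e

variable {A : Type} [Ring A] [StarRing A] [Algebra ℝ A] [StarModule ℝ A]

theorem all_good (G : ∀ k, SimpleGraph (P k)) (hG : ∀ k, (G k).Connected)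
    (hK : ∀ k, NoK2 (G k)) (hB : ∀ x : A, star x * x = 0 → x = 0)
    (u : (∀ k, P k) → (∀ k, P k) → A) (h : QIso (boxPi G) (boxPi G) u) (l : J)
    {a b : ∀ k, P k} (hab : (boxPi G).Adj a b) :
    Good (boxPi G) (fun w : ∀ k, P k => w l) (rest P l) u a b := by
  by_contra hbad
  have hs := split_boxPi G hG l
  refine no_bad G hG hK (fun a b => (boxPi G).Adj a b ∧
    ¬ Good (boxPi G) (fun w : ∀ k, P k => w l) (rest P l) u a b) ?_ ?_ ?_ a b ⟨hab, hbad⟩
  · intro a b h1; exact h1.1
  · rintro a b ⟨h1, h2⟩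
    exact ⟨h1.symm, fun h3 => h2 (good_symm h hs h1.symm h3)⟩
  · rintro a b c ⟨h1, h2⟩ h3 h4
    obtain ⟨d, h5, h6, h7, h8⟩ := bad_move h (boxPi_connected G hG) hs hB h1 h2 h3 h4
    exact ⟨d, h5, h6, ⟨h6, h7⟩, h8⟩

theorem EE_const (G : ∀ k, SimpleGraph (P k)) (hG : ∀ k, (G k).Connected)
    (hprime : ∀ k, PrimeGraph (G k)) (hK : ∀ k, NoK2 (G k))
    (hB : ∀ x : A, star x * x = 0 → x = 0)
    (u : (∀ k, P k) → (∀ k, P k) → A) (h : QIso (boxPi G) (boxPi G) u) (k l : J)
    {a b c d : ∀ k, P k} (hab : DirAdj G k a b) (hcd : DirAdj G k c d) :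
    EE (Dir1 (boxPi G) (rest P l)) u c d = EE (Dir1 (boxPi G) (rest P l)) u a b := by
  have hs := split_boxPi G hG l
  have hgood : ∀ {a b : ∀ k, P k}, (boxPi G).Adj a b → _ :=
    fun hab => all_good G hG hK hB u h l hab
  refine par_lift G hG (fun i S hS h1 a b hab => par_irred (G i) (hG i) (hprime i) S hS h1 a b hab)
    (fun c d => EE (Dir1 (boxPi G) (rest P l)) u c d = EE (Dir1 (boxPi G) (rest P l)) u a b)
    ?_ k a b c d hab hcd rfl
  constructor
  · intro x y hxy h1
    rw [← h1]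
    exact (EE_flip h hs hxy (hgood hxy)).symm
  · intro x y z hxy hxz hyz hn h1
    rw [← h1]
    exact (EE_loc h hs hxy hxz hyz hn).symm
  · intro x y z t hd h1
    rw [← h1]
    exact (EE_sq h hs hd (hgood hd.adj1.symm) (hgood hd.adj4)).symm
  · intro x y z t s hd1 hd2 hz h1
    rw [← h1]
    exact (EE_tw h (boxPi_connected G hG) hs hB hd1 hd2 hz).symm

theorem exists_nbr (G : ∀ k, SimpleGraph (P k)) (hG : ∀ k, (G k).Connected)
    (hP : ∀ k, 2 ≤ Fintype.card (P k)) (k : J) (a : ∀ k, P k) : ∃ b, DirAdj G k a b := by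
  have : Nontrivial (P k) := Fintype.one_lt_card_iff_nontrivial.1 (hP k)
  obtain ⟨y, hy⟩ := (hG k).preconnected.exists_adj_of_nontrivial (a k)
  refine ⟨Function.update a k y, ?_, ?_⟩
  · simpa using hy
  · intro j hj
    simp [Function.update_of_ne hj]

theorem exists_central (G : ∀ k, SimpleGraph (P k)) (hG : ∀ k, (G k).Connected)
    (hP : ∀ k, 2 ≤ Fintype.card (P k))
    (hprime : ∀ k, PrimeGraph (G k)) (hK : ∀ k, NoK2 (G k))
    (hB : ∀ x : A, star x * x = 0 → x = 0)
    (u : (∀ k, P k) → (∀ k, P k) → A) (h : QIso (boxPi G) (boxPi G) u) :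
    ∃ E : J → J → A, (∀ k l, star (E k l) = E k l) ∧ (∀ k l, E k l * E k l = E k l) ∧
      (∀ k l k' l', E k l * E k' l' = E k' l' * E k l) ∧ (∀ k, ∑ l, E k l = 1) ∧
      (∀ k l a w, E k l * u a w = u a w * E k l) ∧
      (∀ k l a b w v, DirAdj G k a b → ¬ DirAdj G l w v → u a w * u b v * E k l = 0) := by
  classical
  have hconn := boxPi_connected G hG
  obtain ⟨o⟩ := hconn.nonempty
  choose b hb using fun k => exists_nbr G hG hP k o
  have hgood : ∀ (l : J) {a b : ∀ k, P k}, (boxPi G).Adj a b → _ :=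
    fun l a b hab => all_good G hG hK hB u h l hab
  have hs := split_boxPi G hG
  have hadj : ∀ {k} {a b : ∀ k, P k}, DirAdj G k a b → (boxPi G).Adj a b :=
    fun {k} {a b} h => ⟨k, h.1, h.2⟩
  have hconst : ∀ k l {a c : ∀ k, P k}, DirAdj G k a c →
      EE (Dir1 (boxPi G) (rest P l)) u a c = EE (Dir1 (boxPi G) (rest P l)) u o (b k) :=
    fun k l a c hac => EE_const G hG hprime hK hB u h k l (hb k) hac
  have hcu : ∀ k l a w, EE (Dir1 (boxPi G) (rest P l)) u o (b k) * u a w =
      u a w * EE (Dir1 (boxPi G) (rest P l)) u o (b k) := by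
    intro k l a w
    obtain ⟨c, hc⟩ := exists_nbr G hG hP k a
    rw [← hconst k l hc]
    exact (EE_props h (hs l) (hadj hc) (hgood l (hadj hc))).2.2.1 w
  refine ⟨fun k l => EE (Dir1 (boxPi G) (rest P l)) u o (b k), ?_, ?_, ?_, ?_, ?_, ?_⟩
  · intro k l
    exact (EE_props h (hs l) (hadj (hb k)) (hgood l (hadj (hb k)))).1
  · intro k l
    exact (EE_props h (hs l) (hadj (hb k)) (hgood l (hadj (hb k)))).2.1
  · intro k l k' l'
    have h1 : ∀ w v, EE (Dir1 (boxPi G) (rest P l)) u o (b k) * (u o w * u (b k') v) =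
        (u o w * u (b k') v) * EE (Dir1 (boxPi G) (rest P l)) u o (b k) := by
      intro w v
      rw [← mul_assoc, hcu, mul_assoc, hcu, mul_assoc]
    show EE (Dir1 (boxPi G) (rest P l)) u o (b k) * EE (Dir1 (boxPi G) (rest P l')) u o (b k') =
      EE (Dir1 (boxPi G) (rest P l')) u o (b k') * EE (Dir1 (boxPi G) (rest P l)) u o (b k)
    have e2 : EE (Dir1 (boxPi G) (rest P l')) u o (b k') = ∑ w, ∑ v,
      if Dir1 (boxPi G) (rest P l') w v then u o w * u (b k') v else 0 := rfl
    rw [e2, Finset.mul_sum, Finset.sum_mul]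
    refine Finset.sum_congr rfl fun w _ => ?_
    rw [Finset.mul_sum, Finset.sum_mul]
    refine Finset.sum_congr rfl fun v _ => ?_
    split_ifs
    · exact h1 w v
    · simp
  · intro k
    have hx : ∀ w v, ∑ l, (if Dir1 (boxPi G) (rest P l) w v then u o w * u (b k) v else 0) =
        u o w * u (b k) v := by
      intro w v
      by_cases hwv : (boxPi G).Adj w v
      · obtain ⟨i, hi, hne⟩ := hwv
        rw [Finset.sum_eq_single i]
        · rw [if_pos ((dir1_iff G i w v).2 ⟨hi, hne⟩)]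
        · intro l _ hl
          rw [if_neg]
          rw [dir1_iff]
          rintro ⟨h1, h2⟩
          have h3 := h2 i (Ne.symm hl)
          rw [h3] at hi
          exact hi.ne rfl
        · intro hi'; exact absurd (Finset.mem_univ _) hi'
      · have h0 : u o w * u (b k) v = 0 :=
          h.adj _ _ _ _ fun h' => hwv (h'.1 (hadj (hb k)))
        rw [h0]
        simp
    calc ∑ l, EE (Dir1 (boxPi G) (rest P l)) u o (b k)
        = ∑ l, ∑ w, ∑ v, (if Dir1 (boxPi G) (rest P l) w v then u o w * u (b k) v else 0) := rfl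
      _ = ∑ w, ∑ v, ∑ l, (if Dir1 (boxPi G) (rest P l) w v then u o w * u (b k) v else 0) := by
          rw [Finset.sum_comm]
          refine Finset.sum_congr rfl fun w _ => ?_
          rw [Finset.sum_comm]
      _ = ∑ w, ∑ v, u o w * u (b k) v := by
          refine Finset.sum_congr rfl fun w _ => Finset.sum_congr rfl fun v _ => hx w v
      _ = 1 := by
          simp only [← Finset.mul_sum, h.rowSum, mul_one]
  · intro k l a w
    exact hcu k l a w
  · intro k l a c w v hac hn
    show u a w * u c v * EE (Dir1 (boxPi G) (rest P l)) u o (b k) = 0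
    rw [mul_assoc, ← hcu, ← mul_assoc, ← hconst k l hac, EE_sandwich h, if_neg]
    rw [dir1_iff]
    exact hn

end

end Pool.Agent.H741.QS
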