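import Mathlib

set_option autoImplicit false
set_option linter.unusedSectionVars false
set_option linter.unusedVariables false

namespace Pool.Agent.H741.QS

/-- A magic unitary of size `V` over a unital C*-algebra `A`. -/
structure IsMagic {V : Type} [Fintype V] {A : Type} [CStarAlgebra A] (u : Matrix V V A) : Prop where
  star_eq : ∀ x y, star (u x y) = u x y
  mul_self : ∀ x y, u x y * u x y = u x y
  row_sum : ∀ x, ∑ y, u x y = 1
  col_sum : ∀ y, ∑ x, u x y = 1

open Classical in
/-- A finite graph has no quantum symmetry if the entries of every magic unitary (over every unital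
C*-algebra) that commutes with the adjacency matrix commute with each other. -/
def NoQuantumSymmetry {V : Type} [Fintype V] (G : SimpleGraph V) : Prop :=
  ∀ (A : Type) [CStarAlgebra A] (u : Matrix V V A), IsMagic u →
    u * G.adjMatrix A = G.adjMatrix A * u → ∀ x y z w, u x y * u z w = u z w * u x y

/-- auxiliary: commutation with the adjacency matrix, entrywise -/
theorem qsn_comm_iff {V : Type} [Fintype V] {A : Type} [Ring A] (G : SimpleGraph V)
    [DecidableRel G.Adj] (u : Matrix V V A) :
    u * G.adjMatrix A = G.adjMatrix A * u ↔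
      ∀ x z, (∑ y, if G.Adj y z then u x y else 0) = ∑ y, if G.Adj x y then u y z else 0 := by
  rw [← Matrix.ext_iff]
  simp only [Matrix.mul_apply, SimpleGraph.adjMatrix_apply, mul_ite, mul_one, mul_zero, ite_mul,
    one_mul, zero_mul]

/-- auxiliary -/
theorem necessity_self {V W : Type} [Fintype V] [Fintype W] [Nonempty W] (X : SimpleGraph V) (Y : SimpleGraph W)
    (h : NoQuantumSymmetry (X □ Y)) : NoQuantumSymmetry X := by
  classical
  intro A _ v hv hc
  have hc' := (qsn_comm_iff X v).1 hc
  set u : Matrix (V × W) (V × W) A := fun p q => if p.2 = q.2 then v p.1 q.1 else 0 with hu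
  have hum : IsMagic u := by
    refine ⟨?_, ?_, ?_, ?_⟩
    · rintro ⟨x, y⟩ ⟨x', y'⟩
      simp only [hu]
      split_ifs
      · exact hv.star_eq _ _
      · exact star_zero _
    · rintro ⟨x, y⟩ ⟨x', y'⟩
      simp only [hu]
      split_ifs
      · exact hv.mul_self _ _
      · exact mul_zero _
    · rintro ⟨x, y⟩
      simp only [hu]
      rw [Fintype.sum_prod_type]
      simp only [Finset.sum_ite_eq, Finset.mem_univ, if_true]
      exact hv.row_sum x
    · rintro ⟨x, y⟩
      simp only [hu]
      rw [Fintype.sum_prod_type]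
      simp only [Finset.sum_ite_eq', Finset.mem_univ, if_true]
      exact hv.col_sum x
  have huc : u * (X □ Y).adjMatrix A = (X □ Y).adjMatrix A * u := by
    rw [qsn_comm_iff]
    rintro ⟨x, y⟩ ⟨x', y'⟩
    simp only [hu]
    rw [Fintype.sum_prod_type, Fintype.sum_prod_type]
    have e1 : ∀ a : V, (∑ b : W, if (X □ Y).Adj (a, b) (x', y') then
        (if y = b then v x a else 0) else 0) =
        (if X.Adj a x' ∧ y = y' ∨ Y.Adj y y' ∧ a = x' then v x a else 0) := by
      intro a
      rw [Finset.sum_eq_single y]
      · simp only [SimpleGraph.boxProd_adj, if_true]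
      · intro b _ hb
        rw [if_neg (fun hh : y = b => hb hh.symm)]
        simp
      · intro hh
        exact absurd (Finset.mem_univ _) hh
    have e2 : ∀ a : V, (∑ b : W, if (X □ Y).Adj (x, y) (a, b) then
        (if b = y' then v a x' else 0) else 0) =
        (if X.Adj x a ∧ y = y' ∨ Y.Adj y y' ∧ x = a then v a x' else 0) := by
      intro a
      rw [Finset.sum_eq_single y']
      · simp only [SimpleGraph.boxProd_adj, if_true]
      · intro b _ hb
        rw [if_neg hb]
        simp
      · intro hh
        exact absurd (Finset.mem_univ _) hh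
    rw [Finset.sum_congr rfl (fun a _ => e1 a), Finset.sum_congr rfl (fun a _ => e2 a)]
    by_cases hyy : y = y'
    · subst hyy
      simp only [and_true, SimpleGraph.irrefl, false_and, or_false]
      exact hc' x x'
    · simp only [hyy, and_false, false_or]
      by_cases hY : Y.Adj y y'
      · simp only [hY, true_and]
        simp
      · simp [hY]
  intro x y z w
  obtain ⟨t⟩ := ‹Nonempty W›
  have := h A u hum huc (x, t) (y, t) (z, t) (w, t)
  simpa [hu] using this

/-- the elementary factor -/
def qsnT {V : Type} [DecidableEq V] {A : Type} [Ring A] (p : A) (g : V → V) : Matrix V V A :=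
  fun x y => (if y = g x then p else 0) + (if y = x then 1 - p else 0)

theorem qsnT_comm {V : Type} [Fintype V] [DecidableEq V] {A : Type} [Ring A] (G : SimpleGraph V)
    [DecidableRel G.Adj] (p : A) (g : V → V) (hg : ∀ x, g (g x) = x)
    (ag : ∀ x y, G.Adj x y → G.Adj (g x) (g y)) :
    qsnT p g * G.adjMatrix A = G.adjMatrix A * qsnT p g := by
  rw [qsn_comm_iff]
  intro x z
  have ag' : ∀ x z, G.Adj (g x) z ↔ G.Adj x (g z) := by
    intro x z
    constructor
    · intro h
      have := ag _ _ h
      rwa [hg] at this
    · intro h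
      have := ag _ _ h
      rwa [hg] at this
  have e1 : (∑ y, if G.Adj y z then qsnT p g x y else 0) =
      (if G.Adj (g x) z then p else 0) + (if G.Adj x z then 1 - p else 0) := by
    have : ∀ y, (if G.Adj y z then qsnT p g x y else 0) =
        (if y = g x then (if G.Adj (g x) z then p else 0) else 0) +
        (if y = x then (if G.Adj x z then 1 - p else 0) else 0) := by
      intro y
      unfold qsnT
      by_cases h1 : y = g x
      · by_cases h2 : y = x
        · subst h2
          by_cases h3 : G.Adj y z
          · rw [← h1]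
            simp [h3]
          · rw [← h1]
            simp [h3]
        · subst h1
          simp [h2]
      · by_cases h2 : y = x
        · subst h2
          simp [h1]
        · simp [h1, h2]
    rw [Finset.sum_congr rfl (fun y _ => this y), Finset.sum_add_distrib]
    simp
  have e2 : (∑ y, if G.Adj x y then qsnT p g y z else 0) =
      (if G.Adj x (g z) then p else 0) + (if G.Adj x z then 1 - p else 0) := by
    have : ∀ y, (if G.Adj x y then qsnT p g y z else 0) =
        (if y = g z then (if G.Adj x (g z) then p else 0) else 0) +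
        (if y = z then (if G.Adj x z then 1 - p else 0) else 0) := by
      intro y
      unfold qsnT
      have h0 : z = g y ↔ y = g z := by
        constructor
        · intro h; rw [h, hg]
        · intro h; rw [h, hg]
      by_cases h1 : y = g z
      · by_cases h2 : y = z
        · subst h2
          by_cases h3 : G.Adj x y
          · rw [← h1]
            simp [h3]
          · rw [← h1]
            simp [h3]
        · have h2' : z ≠ y := fun h => h2 h.symm
          rw [if_pos (h0.2 h1)]
          subst h1
          simp [h2, h2']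
      · rw [if_neg (fun h => h1 (h0.1 h))]
        by_cases h2 : y = z
        · subst h2
          simp [h1]
        · have h2' : z ≠ y := fun h => h2 h.symm
          simp [h1, h2, h2']
    rw [Finset.sum_congr rfl (fun y _ => this y), Finset.sum_add_distrib]
    simp
  rw [e1, e2]
  simp only [ag']

open scoped ComplexOrder in
/-- two noncommuting projections in a concrete C*-algebra -/
theorem qsn_exists_proj : ∃ (A : Type) (_ : CStarAlgebra A) (p q : A),
    star p = p ∧ star q = q ∧ p * p = p ∧ q * q = q ∧ p * q ≠ q * p := by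
  refine ⟨CStarMatrix (Fin 2) (Fin 2) ℂ, inferInstance,
    CStarMatrix.ofMatrix !![1, 0; 0, 0], CStarMatrix.ofMatrix !![1/2, 1/2; 1/2, 1/2],
    ?_, ?_, ?_, ?_, ?_⟩
  · ext i j
    fin_cases i <;> fin_cases j <;> simp [CStarMatrix.star_apply]
  · ext i j
    fin_cases i <;> fin_cases j <;> simp [CStarMatrix.star_apply]
  · ext i j
    fin_cases i <;> fin_cases j <;> simp [CStarMatrix.mul_apply, Fin.sum_univ_two]
  · ext i j
    fin_cases i <;> fin_cases j <;> simp [CStarMatrix.mul_apply, Fin.sum_univ_two] <;> norm_num
  · intro h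
    have := congrFun (congrFun (congrArg CStarMatrix.ofMatrix.symm h) 0) 1
    simp [CStarMatrix.mul_apply, Fin.sum_univ_two] at this

theorem qsn_key {V : Type} [Fintype V] (G : SimpleGraph V) (g h : V → V)
    (hg : ∀ x, g (g x) = x) (hh : ∀ x, h (h x) = x)
    (ag : ∀ x y, G.Adj x y → G.Adj (g x) (g y))
    (ah : ∀ x y, G.Adj x y → G.Adj (h x) (h y))
    (disj : ∀ x, g x = x ∨ h x = x) (a b : V) (ha : g a ≠ a) (hb : h b ≠ b) :
    ¬ NoQuantumSymmetry G := by
  classical
  intro hN
  obtain ⟨A, iA, p, q, sp, sq, pp, qq, hpq⟩ := qsn_exists_proj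
  set u : Matrix V V A := qsnT p g * qsnT q h with hu
  have hux : ∀ x y, u x y = p * qsnT q h (g x) y + (1 - p) * qsnT q h x y := by
    intro x y
    rw [hu, Matrix.mul_apply]
    have : ∀ w, qsnT p g x w * qsnT q h w y =
        (if w = g x then p * qsnT q h (g x) y else 0) + (if w = x then (1 - p) * qsnT q h x y else 0) := by
      intro w
      have e : qsnT p g x w = (if w = g x then p else 0) + (if w = x then 1 - p else 0) := rfl
      rw [e, add_mul]
      congr 1
      · split_ifs with hw
        · rw [hw]
        · rw [zero_mul]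
      · split_ifs with hw
        · rw [hw]
        · rw [zero_mul]
    rw [Finset.sum_congr rfl (fun w _ => this w), Finset.sum_add_distrib]
    simp
  have hfix : ∀ x y, h x = x → qsnT q h x y = if y = x then 1 else 0 := by
    intro x y hx
    unfold qsnT
    rw [hx]
    split_ifs <;> simp
  have hu1 : ∀ x y, g x ≠ x → u x y = (if y = g x then p else if y = x then 1 - p else 0) := by
    intro x y hx
    have hx1 : h x = x := (disj x).resolve_left hx
    have hx2 : h (g x) = g x := by
      refine (disj (g x)).resolve_left ?_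
      rw [hg]
      exact fun hh => hx hh.symm
    rw [hux, hfix _ _ hx1, hfix _ _ hx2]
    by_cases h1 : y = g x
    · have h2 : y ≠ x := by rw [h1]; exact hx
      simp [h1, hx]
    · by_cases h2 : y = x
      · subst h2
        rw [if_neg h1, if_neg h1]
        simp
      · simp [h1, h2]
  have hu2 : ∀ x y, g x = x → u x y = qsnT q h x y := by
    intro x y hx
    rw [hux, hx, ← add_mul]
    simp
  have hu3 : ∀ x y, g x = x → h x ≠ x → u x y = (if y = h x then q else if y = x then 1 - q else 0) := by
    intro x y hx hx'
    rw [hu2 x y hx]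
    unfold qsnT
    by_cases h1 : y = h x
    · have h2 : y ≠ x := by rw [h1]; exact hx'
      simp [h1, hx']
    · simp [h1]
  have hu4 : ∀ x y, g x = x → h x = x → u x y = if y = x then 1 else 0 := by
    intro x y hx hx'
    rw [hu2 x y hx, hfix x y hx']
  have rowT : ∀ (r : A) (k : V → V) (x : V), ∑ y, qsnT r k x y = 1 := by
    intro r k x
    unfold qsnT
    rw [Finset.sum_add_distrib]
    simp
  have colT : ∀ (r : A) (k : V → V), (∀ x, k (k x) = x) → ∀ y : V, ∑ x, qsnT r k x y = 1 := by
    intro r k hk y
    unfold qsnT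
    rw [Finset.sum_add_distrib]
    have : ∀ x, (if y = k x then r else 0) = if x = k y then r else 0 := by
      intro x
      have : y = k x ↔ x = k y := by
        constructor
        · intro h; rw [h, hk]
        · intro h; rw [h, hk]
      simp only [this]
    rw [Finset.sum_congr rfl (fun x _ => this x)]
    simp
  have hum : IsMagic u := by
    refine ⟨?_, ?_, ?_, ?_⟩
    · intro x y
      by_cases hx : g x = x
      · by_cases hx' : h x = x
        · rw [hu4 x y hx hx']
          split_ifs <;> simp
        · rw [hu3 x y hx hx']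
          split_ifs <;> simp [sq]
      · rw [hu1 x y hx]
        split_ifs <;> simp [sp]
    · intro x y
      by_cases hx : g x = x
      · by_cases hx' : h x = x
        · rw [hu4 x y hx hx']
          split_ifs <;> simp
        · rw [hu3 x y hx hx']
          split_ifs
          · exact qq
          · rw [mul_sub, sub_mul, sub_mul, qq]
            simp
          · simp
      · rw [hu1 x y hx]
        split_ifs
        · exact pp
        · rw [mul_sub, sub_mul, sub_mul, pp]
          simp
        · simp
    · intro x
      rw [Finset.sum_congr rfl (fun y _ => hux x y), Finset.sum_add_distrib, ← Finset.mul_sum,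
        ← Finset.mul_sum, rowT, rowT]
      simp
    · intro y
      rw [hu]
      simp only [Matrix.mul_apply]
      rw [Finset.sum_comm]
      simp only [← Finset.sum_mul]
      rw [Finset.sum_congr rfl (fun w _ => by rw [colT p g hg w, one_mul])]
      exact colT q h hh y
  have huc : u * G.adjMatrix A = G.adjMatrix A * u := by
    rw [hu, Matrix.mul_assoc, qsnT_comm G q h hh ah, ← Matrix.mul_assoc, qsnT_comm G p g hg ag,
      Matrix.mul_assoc]
  have hb' : g b = b := (disj b).resolve_right hb
  have hfin := hN A u hum huc a (g a) b (h b)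
  rw [hu1 a (g a) ha, hu3 b (h b) hb' hb] at hfin
  simp only [if_true] at hfin
  exact hpq hfin

open Classical in
/-- conditional flip -/
noncomputable def qsnFlip {V : Type} (S : V → V → Prop) : V × V → V × V :=
  fun x => if S x.1 x.2 then (x.2, x.1) else x

theorem qsnFlip_pos {V : Type} (S : V → V → Prop) (x y : V) (h : S x y) :
    qsnFlip S (x, y) = (y, x) := by
  unfold qsnFlip
  simp [h]

theorem qsnFlip_neg {V : Type} (S : V → V → Prop) (x y : V) (h : ¬ S x y) :
    qsnFlip S (x, y) = (x, y) := by
  unfold qsnFlip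
  simp [h]

theorem qsnFlip_inv {V : Type} (S : V → V → Prop) (hS : ∀ x y, S x y → S y x) (x : V × V) :
    qsnFlip S (qsnFlip S x) = x := by
  obtain ⟨x, y⟩ := x
  by_cases h : S x y
  · rw [qsnFlip_pos S x y h, qsnFlip_pos S y x (hS _ _ h)]
  · rw [qsnFlip_neg S x y h, qsnFlip_neg S x y h]

theorem qsnFlip_adj {V : Type} (X : SimpleGraph V) (S : V → V → Prop)
    (h1 : ∀ x x' y, X.Adj x x' → S x y → S x' y)
    (h2 : ∀ x y y', X.Adj y y' → S x y → S x y') (p q : V × V)
    (h : (X □ X).Adj p q) : (X □ X).Adj (qsnFlip S p) (qsnFlip S q) := by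
  obtain ⟨x, y⟩ := p
  obtain ⟨x', y'⟩ := q
  rw [SimpleGraph.boxProd_adj] at h
  simp only at h
  rcases h with ⟨h, e⟩ | ⟨h, e⟩
  · subst e
    by_cases hs : S x y
    · rw [qsnFlip_pos S _ _ hs, qsnFlip_pos S _ _ (h1 _ _ _ h hs), SimpleGraph.boxProd_adj]
      exact Or.inr ⟨h, rfl⟩
    · rw [qsnFlip_neg S _ _ hs, qsnFlip_neg S _ _ (fun hh => hs (h1 _ _ _ h.symm hh)),
        SimpleGraph.boxProd_adj]
      exact Or.inl ⟨h, rfl⟩
  · subst e
    by_cases hs : S x y
    · rw [qsnFlip_pos S _ _ hs, qsnFlip_pos S _ _ (h2 _ _ _ h hs), SimpleGraph.boxProd_adj]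
      exact Or.inl ⟨h, rfl⟩
    · rw [qsnFlip_neg S _ _ hs, qsnFlip_neg S _ _ (fun hh => hs (h2 _ _ _ h.symm hh)),
        SimpleGraph.boxProd_adj]
      exact Or.inr ⟨h, rfl⟩

/-- auxiliary -/
theorem necessity_connected {V : Type} [Fintype V] [Nonempty V] (X : SimpleGraph V)
    (h : NoQuantumSymmetry (X □ X)) : X.Connected := by
  classical
  by_contra hcon
  have hpre : ¬ X.Preconnected := fun hp => hcon ⟨hp⟩
  unfold SimpleGraph.Preconnected at hpre
  push Not at hpre
  obtain ⟨c, d, hcd⟩ := hpre
  by_cases hE : ∃ a a', X.Adj a a'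
  · obtain ⟨a, a', haa⟩ := hE
    obtain ⟨e, he⟩ : ∃ e, ¬ X.Reachable a e := by
      by_contra hno
      push Not at hno
      exact hcd ((hno c).symm.trans (hno d))
    have hae : a ≠ e := by
      rintro rfl
      exact he (SimpleGraph.Reachable.refl _)
    set S1 : V → V → Prop := fun x y => X.Reachable a x ∧ X.Reachable a y with hS1
    set S2 : V → V → Prop := fun x y => (X.Reachable a x ∧ X.Reachable e y) ∨
      (X.Reachable e x ∧ X.Reachable a y) with hS2
    have hno : ∀ x, X.Reachable a x → X.Reachable e x → False := fun x h1 h2 =>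
      he (h1.trans h2.symm)
    refine qsn_key (X □ X) (qsnFlip S1) (qsnFlip S2) (qsnFlip_inv S1 ?_) (qsnFlip_inv S2 ?_)
      (fun x y => qsnFlip_adj X S1 ?_ ?_ x y) (fun x y => qsnFlip_adj X S2 ?_ ?_ x y) ?_
      (a, a') (a, e) ?_ ?_ h
    · intro x y hxy
      exact ⟨hxy.2, hxy.1⟩
    · intro x y hxy
      rcases hxy with hxy | hxy
      · exact Or.inr ⟨hxy.2, hxy.1⟩
      · exact Or.inl ⟨hxy.2, hxy.1⟩
    · intro x x' y hx hs
      exact ⟨hs.1.trans hx.reachable, hs.2⟩
    · intro x y y' hy hs
      exact ⟨hs.1, hs.2.trans hy.reachable⟩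
    · intro x x' y hx hs
      rcases hs with hs | hs
      · exact Or.inl ⟨hs.1.trans hx.reachable, hs.2⟩
      · exact Or.inr ⟨hs.1.trans hx.reachable, hs.2⟩
    · intro x y y' hy hs
      rcases hs with hs | hs
      · exact Or.inl ⟨hs.1, hs.2.trans hy.reachable⟩
      · exact Or.inr ⟨hs.1, hs.2.trans hy.reachable⟩
    · rintro ⟨x, y⟩
      by_cases hs : S1 x y
      · right
        refine qsnFlip_neg S2 x y ?_
        rintro (hh | hh)
        · exact hno _ hs.2 hh.2
        · exact hno _ hs.1 hh.1
      · left
        exact qsnFlip_neg S1 x y hs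
    · rw [qsnFlip_pos S1 a a' ⟨SimpleGraph.Reachable.refl _, haa.reachable⟩]
      intro hh
      exact haa.ne (Prod.ext_iff.1 hh).2
    · rw [qsnFlip_pos S2 a e (Or.inl ⟨SimpleGraph.Reachable.refl _, SimpleGraph.Reachable.refl _⟩)]
      intro hh
      exact hae (Prod.ext_iff.1 hh).2
  · push Not at hE
    have hcd' : c ≠ d := by
      rintro rfl
      exact hcd (SimpleGraph.Reachable.refl _)
    have hE2 : ∀ p q : V × V, ¬ (X □ X).Adj p q := by
      intro p q hpq
      rw [SimpleGraph.boxProd_adj] at hpq
      rcases hpq with hpq | hpq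
      · exact hE _ _ hpq.1
      · exact hE _ _ hpq.1
    refine qsn_key (X □ X) (Equiv.swap (c, c) (c, d)) (Equiv.swap (d, c) (d, d))
      (fun x => Equiv.swap_apply_self _ _ x) (fun x => Equiv.swap_apply_self _ _ x)
      (fun x y hxy => absurd hxy (hE2 _ _)) (fun x y hxy => absurd hxy (hE2 _ _)) ?_ (c, c) (d, c)
      ?_ ?_ h
    · rintro ⟨x, y⟩
      by_cases hx : x = c
      · right
        refine Equiv.swap_apply_of_ne_of_ne ?_ ?_
        · intro hh
          exact hcd' (hx.symm.trans (Prod.ext_iff.1 hh).1)
        · intro hh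
          exact hcd' (hx.symm.trans (Prod.ext_iff.1 hh).1)
      · left
        refine Equiv.swap_apply_of_ne_of_ne ?_ ?_
        · intro hh
          exact hx (Prod.ext_iff.1 hh).1
        · intro hh
          exact hx (Prod.ext_iff.1 hh).1
    · rw [Equiv.swap_apply_left]
      intro hh
      exact hcd' (Prod.ext_iff.1 hh).2.symm
    · rw [Equiv.swap_apply_left]
      intro hh
      exact hcd' (Prod.ext_iff.1 hh).2.symm

/-- auxiliary -/
theorem necessity_K2 {V W : Type} [Fintype V] [Fintype W] (X : SimpleGraph V) [Nonempty V]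
    (Y : SimpleGraph W) (e : X ≃g ((⊤ : SimpleGraph Bool) □ Y)) : ¬ NoQuantumSymmetry (X □ X) := by
  classical
  set fl : V → V := fun x => e.symm (!(e x).1, (e x).2) with hfl
  have efl : ∀ x, e (fl x) = (!(e x).1, (e x).2) := by
    intro x
    simp only [hfl]
    exact e.apply_symm_apply _
  have flfl : ∀ x, fl (fl x) = x := by
    intro x
    apply e.injective
    rw [efl, efl]
    simp
  have flne : ∀ x, fl x ≠ x := by
    intro x hh
    have := congrArg e hh
    rw [efl] at this
    have h1 := (Prod.ext_iff.1 this).1
    simp at h1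
  have bfl : ∀ x, (e (fl x)).1 = !(e x).1 := by
    intro x
    rw [efl]
  have adjfl : ∀ x, X.Adj x (fl x) := by
    intro x
    rw [← e.map_adj_iff, efl, SimpleGraph.boxProd_adj]
    left
    simp
  have adjflfl : ∀ x y, X.Adj x y → X.Adj (fl x) (fl y) := by
    intro x y hxy
    rw [← e.map_adj_iff] at hxy ⊢
    rw [efl, efl]
    rw [SimpleGraph.boxProd_adj] at hxy ⊢
    rcases hxy with hxy | hxy
    · left
      refine ⟨?_, hxy.2⟩
      have h1 := hxy.1
      simp only [SimpleGraph.top_adj] at h1 ⊢
      intro hh
      exact h1 (by simpa using hh)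
    · right
      refine ⟨hxy.1, ?_⟩
      simp only
      rw [hxy.2]
  have adjcase : ∀ x x', X.Adj x x' → (e x).1 = (e x').1 ∨ x' = fl x := by
    intro x x' hx
    rw [← e.map_adj_iff, SimpleGraph.boxProd_adj] at hx
    rcases hx with hx | hx
    · right
      apply e.injective
      rw [efl]
      apply Prod.ext
      · have h1 := hx.1
        simp only [SimpleGraph.top_adj] at h1
        simp only
        revert h1
        cases (e x).1 <;> cases (e x').1 <;> simp
      · exact hx.2.symm
    · left
      exact hx.2
  -- conditional double flip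
  have main : ∀ (R : Bool → Bool → Prop), (∀ b b', R b b' → R (!b) (!b')) →
      (∀ b b', R b b' ↔ ¬ R (!b) b') → (∀ b b', R b b' ↔ ¬ R b (!b')) →
      (∀ x : V × V, (fun x : V × V => if R (e x.1).1 (e x.2).1 then (fl x.1, fl x.2) else x)
        ((fun x : V × V => if R (e x.1).1 (e x.2).1 then (fl x.1, fl x.2) else x) x) = x) ∧
      (∀ x y : V × V, (X □ X).Adj x y → (X □ X).Adj
        ((fun x : V × V => if R (e x.1).1 (e x.2).1 then (fl x.1, fl x.2) else x) x)
        ((fun x : V × V => if R (e x.1).1 (e x.2).1 then (fl x.1, fl x.2) else x) y)) := by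
    intro R hR1 hR2 hR3
    constructor
    · rintro ⟨x, y⟩
      simp only
      by_cases hr : R (e x).1 (e y).1
      · rw [if_pos hr]
        simp only
        rw [bfl, bfl, if_pos (hR1 _ _ hr), flfl, flfl]
      · rw [if_neg hr]
        simp only
        rw [if_neg hr]
    · rintro ⟨x, y⟩ ⟨x', y'⟩ hadj
      rw [SimpleGraph.boxProd_adj] at hadj
      simp only at hadj ⊢
      rcases hadj with ⟨hx, rfl⟩ | ⟨hy, rfl⟩
      · rcases adjcase x x' hx with hc | hc
        · rw [← hc]
          by_cases hr : R (e x).1 (e y).1
          · rw [if_pos hr, if_pos hr, SimpleGraph.boxProd_adj]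
            exact Or.inl ⟨adjflfl _ _ hx, rfl⟩
          · rw [if_neg hr, if_neg hr, SimpleGraph.boxProd_adj]
            exact Or.inl ⟨hx, rfl⟩
        · subst hc
          rw [bfl]
          by_cases hr : R (e x).1 (e y).1
          · rw [if_pos hr, if_neg ((hR2 _ _).1 hr), SimpleGraph.boxProd_adj]
            exact Or.inr ⟨(adjfl y).symm, rfl⟩
          · have hr' : R (!(e x).1) (e y).1 := by
              by_contra hh
              exact hr ((hR2 _ _).2 hh)
            rw [if_neg hr, if_pos hr', SimpleGraph.boxProd_adj]
            refine Or.inr ⟨adjfl y, ?_⟩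
            simp only
            rw [flfl]
      · rcases adjcase y y' hy with hc | hc
        · rw [← hc]
          by_cases hr : R (e x).1 (e y).1
          · rw [if_pos hr, if_pos hr, SimpleGraph.boxProd_adj]
            exact Or.inr ⟨adjflfl _ _ hy, rfl⟩
          · rw [if_neg hr, if_neg hr, SimpleGraph.boxProd_adj]
            exact Or.inr ⟨hy, rfl⟩
        · subst hc
          rw [bfl]
          by_cases hr : R (e x).1 (e y).1
          · rw [if_pos hr, if_neg ((hR3 _ _).1 hr), SimpleGraph.boxProd_adj]
            exact Or.inl ⟨(adjfl x).symm, rfl⟩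
          · have hr' : R (e x).1 (!(e y).1) := by
              by_contra hh
              exact hr ((hR3 _ _).2 hh)
            rw [if_neg hr, if_pos hr', SimpleGraph.boxProd_adj]
            refine Or.inl ⟨adjfl x, ?_⟩
            simp only
            rw [flfl]
  obtain ⟨m1, m2⟩ := main (fun b b' => b = b') (by simp) (by decide) (by decide)
  obtain ⟨m3, m4⟩ := main (fun b b' => b ≠ b') (by simp) (by decide) (by decide)
  obtain ⟨x0⟩ := ‹Nonempty V›
  refine qsn_key (X □ X) _ _ m1 m3 m2 m4 ?_ (x0, x0) (x0, fl x0) ?_ ?_
  · rintro ⟨x, y⟩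
    by_cases hb : (e x).1 = (e y).1
    · right
      simp [hb]
    · left
      simp [hb]
  · simp only [if_true]
    intro hh
    exact flne x0 (Prod.ext_iff.1 hh).1
  · have hb : (e x0).1 ≠ (e (fl x0)).1 := by
      rw [bfl]
      cases (e x0).1 <;> simp
    simp only
    rw [if_pos hb]
    intro hh
    exact flne x0 (Prod.ext_iff.1 hh).1

end Pool.Agent.H741.QS
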