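import Mathlib

set_option autoImplicit false
set_option linter.unusedSectionVars false
set_option linter.unusedVariables false

namespace Pool.Agent.H741.QS

/-- auxiliary -/
theorem exists_selection {ι : Type} [Fintype ι] [DecidableEq ι] (σ : Equiv.Perm (ι × Bool)) :
    ∃ κ : ι → Bool, Function.Bijective (fun i => (σ (i, κ i)).1) ∧
      Function.Bijective (fun i => (σ (i, !κ i)).1) := by
  classical
  let t : ι → Finset ι := fun i => {(σ (i, true)).1, (σ (i, false)).1}
  have hall : ∀ s : Finset ι, s.card ≤ (s.biUnion t).card := by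
    intro s
    have h1 : ((s ×ˢ (Finset.univ : Finset Bool)).map σ.toEmbedding) ⊆
        (s.biUnion t) ×ˢ (Finset.univ : Finset Bool) := by
      intro p hp
      rw [Finset.mem_map] at hp
      obtain ⟨⟨i, b⟩, hib, rfl⟩ := hp
      rw [Finset.mem_product] at hib ⊢
      refine ⟨?_, Finset.mem_univ _⟩
      rw [Finset.mem_biUnion]
      refine ⟨i, hib.1, ?_⟩
      simp only [t, Finset.mem_insert, Finset.mem_singleton, Equiv.coe_toEmbedding]
      cases b <;> simp
    have h2 := Finset.card_le_card h1
    rw [Finset.card_map, Finset.card_product, Finset.card_product] at h2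
    simp at h2
    exact h2
  obtain ⟨f, hf, hft⟩ := (Finset.all_card_le_biUnion_card_iff_exists_injective t).1 hall
  have hex : ∀ i, ∃ b, (σ (i, b)).1 = f i := by
    intro i
    have := hft i
    simp only [t, Finset.mem_insert, Finset.mem_singleton] at this
    rcases this with h | h
    · exact ⟨true, h.symm⟩
    · exact ⟨false, h.symm⟩
  choose κ hκ using hex
  have hinj : Function.Injective (fun i => (σ (i, κ i)).1) := by
    intro i j hij
    simp only [hκ] at hij
    exact hf hij
  refine ⟨κ, Finite.injective_iff_bijective.1 hinj, Finite.surjective_iff_bijective.1 ?_⟩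
  intro j
  rcases h1 : σ.symm (j, true) with ⟨i1, b1⟩
  rcases h2 : σ.symm (j, false) with ⟨i2, b2⟩
  have h1' : σ (i1, b1) = (j, true) := by rw [← h1, Equiv.apply_symm_apply]
  have h2' : σ (i2, b2) = (j, false) := by rw [← h2, Equiv.apply_symm_apply]
  by_cases hb1 : b1 = κ i1
  · by_cases hb2 : b2 = κ i2
    · exfalso
      have : i1 = i2 := by
        apply hinj
        simp only
        rw [← hb1, ← hb2, h1', h2']
      subst this
      rw [hb1] at h1'
      rw [hb2, h1'] at h2'
      simp at h2'
    · refine ⟨i2, ?_⟩
      have : (!κ i2) = b2 := by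
        revert hb2; cases b2 <;> cases κ i2 <;> simp
      simp only [this, h2']
  · refine ⟨i1, ?_⟩
    have : (!κ i1) = b1 := by
      revert hb1; cases b1 <;> cases κ i1 <;> simp
    simp only [this, h1']

end Pool.Agent.H741.QS
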