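import Pool.Agent.Helper741.QSym.Central
import Pool.Agent.Helper741.QSym.Magic
import Pool.Agent.Helper741.QSym.Sel

set_option autoImplicit false
set_option linter.unusedSectionVars false
set_option linter.unusedVariables false

namespace Pool.Agent.H741.QS

section

theorem sum_star_zero_aux {A : Type} [CStarAlgebra A] {ι : Type} (s : Finset ι) (a : ι → A)
    (h : ∑ i ∈ s, star (a i) * a i = 0) : ∀ i ∈ s, a i = 0 := by
  letI := CStarAlgebra.spectralOrder A
  have := CStarAlgebra.spectralOrderedRing A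
  intro i hi
  have h1 := (Finset.sum_eq_zero_iff_of_nonneg (fun i _ => star_mul_self_nonneg (a i))).mp h i hi
  exact (CStarRing.star_mul_self_eq_zero_iff (a i)).mp h1

theorem orth_aux {A : Type} [CStarAlgebra A] {ι : Type} [Fintype ι] (p : ι → A)
    (hs : ∀ i, star (p i) = p i) (hp : ∀ i, p i * p i = p i) (h1 : ∑ i, p i = 1)
    {i j : ι} (hij : i ≠ j) : p i * p j = 0 := by
  classical
  have h2 : ∑ k, p j * p k * p j = p j := by
    rw [← Finset.sum_mul, ← Finset.mul_sum, h1, mul_one, hp]
  rw [← Finset.add_sum_erase _ _ (Finset.mem_univ j), hp, hp] at h2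
  have h3 : ∑ k ∈ Finset.univ.erase j, star (p k * p j) * (p k * p j) = 0 := by
    have h4 : ∑ k ∈ Finset.univ.erase j, star (p k * p j) * (p k * p j) =
        ∑ k ∈ Finset.univ.erase j, p j * p k * p j := by
      refine Finset.sum_congr rfl fun k _ => ?_
      rw [star_mul, hs, hs, mul_assoc, ← mul_assoc (p k) (p k), hp, mul_assoc]
    rw [h4]
    exact left_eq_add.mp h2.symm
  exact sum_star_zero_aux _ _ h3 i (Finset.mem_erase.mpr ⟨hij, Finset.mem_univ _⟩)

theorem IsMagic.orth_row {V : Type} [Fintype V] {A : Type} [CStarAlgebra A] {u : Matrix V V A}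
    (hu : IsMagic u) {x y y' : V} (h : y ≠ y') : u x y * u x y' = 0 :=
  orth_aux (fun y => u x y) (fun y => hu.star_eq x y) (fun y => hu.mul_self x y) (hu.row_sum x) h

theorem IsMagic.orth_col {V : Type} [Fintype V] {A : Type} [CStarAlgebra A] {u : Matrix V V A}
    (hu : IsMagic u) {x x' y : V} (h : x ≠ x') : u x y * u x' y = 0 :=
  orth_aux (fun x => u x y) (fun x => hu.star_eq x y) (fun x => hu.mul_self x y) (hu.col_sum y) h

theorem magic_transpose_aux {V : Type} [Fintype V] {A : Type} [CStarAlgebra A] {u : Matrix V V A}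
    (hu : IsMagic u) : IsMagic u.transpose :=
  ⟨fun x y => hu.star_eq y x, fun x y => hu.mul_self y x, fun x => hu.col_sum x,
    fun y => hu.row_sum y⟩

open Classical in
theorem mul_adj_aux {V : Type} [Fintype V] {A : Type} [CStarAlgebra A] (u : Matrix V V A)
    (G : SimpleGraph V) (x y : V) :
    (u * G.adjMatrix A) x y = ∑ z, if G.Adj z y then u x z else 0 := by
  simp [Matrix.mul_apply, SimpleGraph.adjMatrix_apply]

open Classical in
theorem adj_mul_aux {V : Type} [Fintype V] {A : Type} [CStarAlgebra A] (u : Matrix V V A)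
    (G : SimpleGraph V) (x y : V) :
    (G.adjMatrix A * u) x y = ∑ z, if G.Adj x z then u z y else 0 := by
  simp [Matrix.mul_apply, SimpleGraph.adjMatrix_apply]

open Classical in
theorem transpose_comm_aux {V : Type} [Fintype V] {A : Type} [CStarAlgebra A] {u : Matrix V V A}
    (G : SimpleGraph V) (hc : u * G.adjMatrix A = G.adjMatrix A * u) :
    u.transpose * G.adjMatrix A = G.adjMatrix A * u.transpose := by
  ext x y
  rw [mul_adj_aux, adj_mul_aux]
  have h := congrFun (congrFun hc y) x
  rw [mul_adj_aux, adj_mul_aux] at h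
  simp only [Matrix.transpose_apply]
  have e1 : ∀ z, (if G.Adj z y then u z x else 0) = (if G.Adj y z then u z x else 0) := by
    intro z; simp [G.adj_comm]
  have e2 : ∀ z, (if G.Adj x z then u y z else 0) = (if G.Adj z x then u y z else 0) := by
    intro z; simp [G.adj_comm]
  rw [Finset.sum_congr rfl fun z _ => e1 z, Finset.sum_congr rfl fun z _ => e2 z]
  exact h.symm

open Classical in
theorem adj_rel_aux {V : Type} [Fintype V] {A : Type} [CStarAlgebra A] {u : Matrix V V A}
    (G : SimpleGraph V) (hu : IsMagic u) (hc : u * G.adjMatrix A = G.adjMatrix A * u)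
    {x x' y y' : V} (h1 : G.Adj x x') (h2 : ¬ G.Adj y y') : u x y * u x' y' = 0 := by
  have h := congrFun (congrFun hc x) y'
  rw [mul_adj_aux, adj_mul_aux] at h
  have h3 : u x y * (∑ z, if G.Adj z y' then u x z else 0) * u x y = 0 := by
    rw [Finset.mul_sum, Finset.sum_mul]
    refine Finset.sum_eq_zero fun z _ => ?_
    split_ifs with hz
    · have : y ≠ z := by rintro rfl; exact h2 hz
      rw [hu.orth_row this, zero_mul]
    · simp
  rw [h, Finset.mul_sum, Finset.sum_mul] at h3
  have h4 : ∑ z ∈ Finset.univ.filter (fun z => G.Adj x z),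
      star (u z y' * u x y) * (u z y' * u x y) = 0 := by
    rw [Finset.sum_filter]
    refine (Finset.sum_congr rfl fun z _ => ?_).trans h3
    split_ifs with hz
    · rw [star_mul, hu.star_eq, hu.star_eq, mul_assoc, ← mul_assoc (u z y') (u z y'), hu.mul_self,
        mul_assoc]
    · simp
  have h5 := sum_star_zero_aux _ _ h4 x' (by simp [h1])
  have h6 := congrArg star h5
  rw [star_mul, hu.star_eq, hu.star_eq, star_zero] at h6
  exact h6

open Classical in
theorem IsMagic.adj_rel {V : Type} [Fintype V] {A : Type} [CStarAlgebra A] {u : Matrix V V A}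
    (G : SimpleGraph V) (hu : IsMagic u) (hc : u * G.adjMatrix A = G.adjMatrix A * u)
    {x x' y y' : V} (h : ¬ (G.Adj x x' ↔ G.Adj y y')) : u x y * u x' y' = 0 := by
  by_cases h1 : G.Adj x x'
  · have h2 : ¬ G.Adj y y' := fun h2 => h ⟨fun _ => h2, fun _ => h1⟩
    exact adj_rel_aux G hu hc h1 h2
  · have h2 : G.Adj y y' := by
      by_contra h2
      exact h ⟨fun h3 => absurd h3 h1, fun h3 => absurd h3 h2⟩
    exact adj_rel_aux G (magic_transpose_aux hu) (transpose_comm_aux G hc) h2 h1

open Classical in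
/-- from a magic unitary commuting with the adjacency matrix to `QIso` -/
theorem qiso_of_magic {V : Type} [Fintype V] (X : SimpleGraph V) {A : Type} [CStarAlgebra A]
    (u : Matrix V V A) (hu : IsMagic u) (hc : u * X.adjMatrix A = X.adjMatrix A * u) :
    QIso X X (fun a b => u a b) where
  star_eq a w := hu.star_eq a w
  idem a w := hu.mul_self a w
  rowOrth a w w' hw := hu.orth_row hw
  colOrth a b w hab := hu.orth_col hab
  rowSum a := hu.row_sum a
  colSum w := hu.col_sum w
  adj a b w v hn := IsMagic.adj_rel X hu hc hn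

/-- and back -/
theorem comm_of_qiso {V : Type} [Fintype V] (X : SimpleGraph V) (hNQ : NoQuantumSymmetry X)
    {A : Type} [CStarAlgebra A] (u : V → V → A) (h : QIso X X u) (x y z w : V) :
    u x y * u z w = u z w * u x y := by
  classical
  have hm : IsMagic (Matrix.of u) :=
    ⟨fun a b => h.star_eq a b, fun a b => h.idem a b, fun a => h.rowSum a, fun b => h.colSum b⟩
  refine hNQ A (Matrix.of u) hm ?_ x y z w
  ext a b
  rw [mul_adj_aux, adj_mul_aux]
  simp only [Matrix.of_apply]
  have h1 : (∑ c, if X.Adj a c then u c b else 0) =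
      ∑ c, ∑ v, (if X.Adj a c then (if X.Adj v b then u a v * u c b else 0) else 0) := by
    refine Finset.sum_congr rfl fun c _ => ?_
    by_cases hac : X.Adj a c
    · simp only [if_pos hac]
      calc u c b = (∑ v, u a v) * u c b := by rw [h.rowSum, one_mul]
        _ = ∑ v, u a v * u c b := Finset.sum_mul _ _ _
        _ = _ := by
            refine Finset.sum_congr rfl fun v _ => ?_
            by_cases hvb : X.Adj v b
            · rw [if_pos hvb]
            · rw [if_neg hvb, h.adj a c v b (fun hh => hvb (hh.1 hac))]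
    · simp [if_neg hac]
  have h2 : (∑ v, if X.Adj v b then u a v else 0) =
      ∑ v, ∑ c, (if X.Adj a c then (if X.Adj v b then u a v * u c b else 0) else 0) := by
    refine Finset.sum_congr rfl fun v _ => ?_
    by_cases hvb : X.Adj v b
    · simp only [if_pos hvb]
      calc u a v = u a v * ∑ c, u c b := by rw [h.colSum, mul_one]
        _ = ∑ c, u a v * u c b := Finset.mul_sum _ _ _
        _ = _ := by
            refine Finset.sum_congr rfl fun c _ => ?_
            by_cases hac : X.Adj a c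
            · rw [if_pos hac]
            · rw [if_neg hac, h.adj a c v b (fun hh => hac (hh.2 hvb))]
    · simp [if_neg hvb]
  rw [h1, h2, Finset.sum_comm]

section EHsec

variable {V : Type} [Fintype V] {B : Type} [Ring B] [StarRing B] [Algebra ℝ B] [StarModule ℝ B]

/-- bundle of the hypotheses of `end_lemma` -/
structure EH (X : SimpleGraph V) (u : (V × V) → (V × V) → B) (e : B) : Prop where
  q : QIso (X □ X) (X □ X) u
  e1 : star e = e
  e2 : e * e = e
  e3 : ∀ a w, e * u a w = u a w * e
  d1 : ∀ a b w v : V × V, X.Adj a.1 b.1 → a.2 = b.2 → ¬ (X.Adj w.1 v.1 ∧ w.2 = v.2) →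
      u a w * u b v * e = 0
  d2 : ∀ a b w v : V × V, a.1 = b.1 → X.Adj a.2 b.2 → ¬ (w.1 = v.1 ∧ X.Adj w.2 v.2) →
      u a w * u b v * e = 0

variable {X : SimpleGraph V} {u : (V × V) → (V × V) → B} {e : B}

theorem EH.c1 (h : EH X u e) (a b w v : V × V) (hw : X.Adj w.1 v.1) (hw2 : w.2 = v.2)
    (hn : ¬ (X.Adj a.1 b.1 ∧ a.2 = b.2)) : u a w * u b v * e = 0 := by
  by_cases hab : (X □ X).Adj a b
  · rw [SimpleGraph.boxProd_adj] at hab
    rcases hab with hab | hab
    · exact absurd hab hn
    · exact h.d2 a b w v hab.2 hab.1 (fun hh => X.ne_of_adj hw hh.1)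
  · have hwv : (X □ X).Adj w v := by
      rw [SimpleGraph.boxProd_adj]
      exact Or.inl ⟨hw, hw2⟩
    rw [h.q.adj a b w v (fun hh => hab (hh.2 hwv)), zero_mul]

theorem EH.c2 (h : EH X u e) (a b w v : V × V) (hw : w.1 = v.1) (hw2 : X.Adj w.2 v.2)
    (hn : ¬ (a.1 = b.1 ∧ X.Adj a.2 b.2)) : u a w * u b v * e = 0 := by
  by_cases hab : (X □ X).Adj a b
  · rw [SimpleGraph.boxProd_adj] at hab
    rcases hab with hab | hab
    · exact h.d1 a b w v hab.1 hab.2 (fun hh => X.ne_of_adj hw2 hh.2)
    · exact absurd ⟨hab.2, hab.1⟩ hn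
  · have hwv : (X □ X).Adj w v := by
      rw [SimpleGraph.boxProd_adj]
      exact Or.inr ⟨hw2, hw⟩
    rw [h.q.adj a b w v (fun hh => hab (hh.2 hwv)), zero_mul]

theorem EH.transpose (h : EH X u e) : EH X (fun w a => u a w) e where
  q := h.q.transpose
  e1 := h.e1
  e2 := h.e2
  e3 a w := h.e3 w a
  d1 a b w v h1 h2 h3 := h.c1 w v a b h1 h2 h3
  d2 a b w v h1 h2 h3 := h.c2 w v a b h1 h2 h3

theorem EH.swap (h : EH X u e) : EH X (fun a w => u a.swap w.swap) e where
  q := by
    refine ⟨fun a w => h.q.star_eq _ _, fun a w => h.q.idem _ _, fun a w w' hw => ?_,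
      fun a b w hab => ?_, fun a => ?_, fun w => ?_, fun a b w v hn => ?_⟩
    · exact h.q.rowOrth _ _ _ (fun hh => hw (Prod.swap_injective hh))
    · exact h.q.colOrth _ _ _ (fun hh => hab (Prod.swap_injective hh))
    · have := (Equiv.prodComm V V).sum_comp (fun w => u a.swap w)
      exact this.trans (h.q.rowSum _)
    · have := (Equiv.prodComm V V).sum_comp (fun a => u a w.swap)
      exact this.trans (h.q.colSum _)
    · apply h.q.adj
      intro hh
      apply hn
      simp only [SimpleGraph.boxProd_adj, Prod.fst_swap, Prod.snd_swap] at hh ⊢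
      tauto
  e1 := h.e1
  e2 := h.e2
  e3 a w := h.e3 _ _
  d1 a b w v h1 h2 h3 := h.d2 _ _ _ _ h2 h1 (fun hh => h3 ⟨hh.2, hh.1⟩)
  d2 a b w v h1 h2 h3 := h.d1 _ _ _ _ h2 h1 (fun hh => h3 ⟨hh.2, hh.1⟩)

theorem EH.row_adj (h : EH X u e) {x x' x'' y : V} (hx : X.Adj x' x'') :
    (∑ y', u (x, x') (y, y')) * e = (∑ y', u (x, x'') (y, y')) * e := by
  have A1 : (∑ y', u (x, x') (y, y')) * e =
      ∑ y', ∑ v', u (x, x') (y, y') * u (x, x'') (y, v') * e := by
    rw [Finset.sum_mul]
    refine Finset.sum_congr rfl fun y' _ => ?_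
    calc u (x, x') (y, y') * e = u (x, x') (y, y') * (∑ v : V × V, u (x, x'') v) * e := by
          rw [h.q.rowSum, mul_one]
      _ = ∑ v : V × V, u (x, x') (y, y') * u (x, x'') v * e := by
          rw [Finset.mul_sum, Finset.sum_mul]
      _ = ∑ v1, ∑ v2, u (x, x') (y, y') * u (x, x'') (v1, v2) * e := Fintype.sum_prod_type _
      _ = ∑ v2, u (x, x') (y, y') * u (x, x'') (y, v2) * e := by
          rw [Finset.sum_eq_single y]
          · intro v1 _ hv1
            refine Finset.sum_eq_zero fun v2 _ => ?_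
            exact h.d2 _ _ _ _ rfl hx (fun hh => hv1 hh.1.symm)
          · intro hh
            exact absurd (Finset.mem_univ _) hh
  have A2 : (∑ v', u (x, x'') (y, v')) * e =
      ∑ v', ∑ y', u (x, x') (y, y') * u (x, x'') (y, v') * e := by
    rw [Finset.sum_mul]
    refine Finset.sum_congr rfl fun v' _ => ?_
    calc u (x, x'') (y, v') * e = (∑ w : V × V, u (x, x') w) * u (x, x'') (y, v') * e := by
          rw [h.q.rowSum, one_mul]
      _ = ∑ w : V × V, u (x, x') w * u (x, x'') (y, v') * e := by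
          rw [Finset.sum_mul, Finset.sum_mul]
      _ = ∑ w1, ∑ w2, u (x, x') (w1, w2) * u (x, x'') (y, v') * e := Fintype.sum_prod_type _
      _ = ∑ w2, u (x, x') (y, w2) * u (x, x'') (y, v') * e := by
          rw [Finset.sum_eq_single y]
          · intro w1 _ hw1
            refine Finset.sum_eq_zero fun w2 _ => ?_
            exact h.d2 _ _ _ _ rfl hx (fun hh => hw1 hh.1)
          · intro hh
            exact absurd (Finset.mem_univ _) hh
  rw [A1, A2, Finset.sum_comm]

theorem EH.row_indep (h : EH X u e) (hX : X.Connected) (x x' x'' y : V) :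
    (∑ y', u (x, x') (y, y')) * e = (∑ y', u (x, x'') (y, y')) * e := by
  obtain ⟨p⟩ := hX.preconnected x' x''
  induction p with
  | nil => rfl
  | cons hadj p ih => exact (h.row_adj hadj).trans ih

theorem EH.col_indep (h : EH X u e) (hX : X.Connected) (x y y' y'' : V) :
    (∑ x', u (x, x') (y, y')) * e = (∑ x', u (x, x') (y, y'')) * e :=
  h.transpose.row_indep hX y y' y'' x

theorem EH.row_eq_col (h : EH X u e) (hX : X.Connected) (x x' y y' : V) :
    (∑ v', u (x, x') (y, v')) * e = (∑ z', u (x, z') (y, y')) * e := by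
  have h1 : ∑ z : V, (∑ v', u (x, z) (y, v')) * e = ∑ v : V, (∑ z', u (x, z') (y, v)) * e := by
    simp only [Finset.sum_mul]
    rw [Finset.sum_comm]
  have h2 : ∑ z : V, (∑ v', u (x, z) (y, v')) * e =
      Fintype.card V • ((∑ v', u (x, x') (y, v')) * e) := by
    rw [Finset.sum_congr rfl (fun z _ => h.row_indep hX x z x' y), Finset.sum_const,
      Finset.card_univ]
  have h3 : ∑ v : V, (∑ z', u (x, z') (y, v)) * e =
      Fintype.card V • ((∑ z', u (x, z') (y, y')) * e) := by
    rw [Finset.sum_congr rfl (fun v _ => h.col_indep hX x y v y'), Finset.sum_const,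
      Finset.card_univ]
  rw [h2, h3, ← Nat.cast_smul_eq_nsmul ℝ, ← Nat.cast_smul_eq_nsmul ℝ] at h1
  have hc : (Fintype.card V : ℝ) ≠ 0 := by
    have : 0 < Fintype.card V := Fintype.card_pos_iff.2 ⟨x⟩
    exact_mod_cast this.ne'
  exact (IsUnit.mk0 _ hc).smul_left_cancel.1 h1

theorem EH.rho_e (h : EH X u e) (x x' y : V) :
    e * (∑ y', u (x, x') (y, y')) = (∑ y', u (x, x') (y, y')) * e := by
  rw [Finset.mul_sum, Finset.sum_mul]
  exact Finset.sum_congr rfl fun y' _ => h.e3 _ _

theorem EH.mul_e (h : EH X u e) (r : B) (x x' y : V) :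
    (r * e) * ((∑ y', u (x, x') (y, y')) * e) = r * (∑ y', u (x, x') (y, y')) * e := by
  rw [← mul_assoc, mul_assoc r e, h.rho_e, ← mul_assoc, mul_assoc, h.e2]

theorem EH.u_mul (h : EH X u e) [DecidableEq V] (a w v : V × V) :
    u a w * u a v = if w = v then u a w else 0 := by
  by_cases hw : w = v
  · subst hw
    rw [if_pos rfl, h.q.idem]
  · rw [if_neg hw, h.q.rowOrth _ _ _ hw]

theorem EH.rho_idem (h : EH X u e) (x x' y : V) :
    (∑ y', u (x, x') (y, y')) * (∑ y', u (x, x') (y, y')) = ∑ y', u (x, x') (y, y') := by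
  classical
  rw [Finset.sum_mul]
  refine Finset.sum_congr rfl fun y' _ => ?_
  rw [Finset.mul_sum, Finset.sum_eq_single y']
  · exact h.q.idem _ _
  · intro v' _ hv
    exact h.q.rowOrth _ _ _ (fun hh => hv (Prod.ext_iff.1 hh).2.symm)
  · intro hh
    exact absurd (Finset.mem_univ _) hh

theorem EH.rho_orth (h : EH X u e) (x x' : V) {y z : V} (hyz : y ≠ z) :
    (∑ y', u (x, x') (y, y')) * (∑ y', u (x, x') (z, y')) = 0 := by
  rw [Finset.sum_mul]
  refine Finset.sum_eq_zero fun y' _ => ?_
  rw [Finset.mul_sum]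
  refine Finset.sum_eq_zero fun z' _ => ?_
  exact h.q.rowOrth _ _ _ (fun hh => hyz (Prod.ext_iff.1 hh).1)

/-- the first marginal -/
def U0 (u : (V × V) → (V × V) → B) (e : B) (x0 x y : V) : B := (∑ y', u (x, x0) (y, y')) * e

theorem EH.U0_star (h : EH X u e) (x0 x y : V) : star (U0 u e x0 x y) = U0 u e x0 x y := by
  unfold U0
  rw [star_mul, h.e1, star_sum, Finset.sum_congr rfl (fun y' _ => h.q.star_eq _ _), h.rho_e]

theorem EH.U0_idem (h : EH X u e) (x0 x y : V) :
    U0 u e x0 x y * U0 u e x0 x y = U0 u e x0 x y := by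
  unfold U0
  rw [h.mul_e, h.rho_idem]

theorem EH.U0_e (h : EH X u e) (x0 x y : V) : U0 u e x0 x y * e = U0 u e x0 x y := by
  unfold U0
  rw [mul_assoc, h.e2]

theorem EH.e_U0 (h : EH X u e) (x0 x y : V) : e * U0 u e x0 x y = U0 u e x0 x y := by
  unfold U0
  rw [← mul_assoc, h.rho_e, mul_assoc, h.e2]

theorem EH.U0_orth (h : EH X u e) (x0 x : V) {y z : V} (hyz : y ≠ z) :
    U0 u e x0 x y * U0 u e x0 x z = 0 := by
  unfold U0
  rw [h.mul_e, h.rho_orth x x0 hyz, zero_mul]

theorem EH.U0_sum (h : EH X u e) (x0 x : V) : ∑ y, U0 u e x0 x y = e := by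
  unfold U0
  rw [← Finset.sum_mul]
  have : ∑ y, ∑ y', u (x, x0) (y, y') = ∑ w : V × V, u (x, x0) w :=
    (Fintype.sum_prod_type _).symm
  rw [this, h.q.rowSum, one_mul]

theorem EH.U0_adj (h : EH X u e) (x0 : V) {a b w v : V} (hab : X.Adj a b) (hwv : ¬ X.Adj w v) :
    U0 u e x0 a w * U0 u e x0 b v = 0 := by
  unfold U0
  rw [h.mul_e, Finset.sum_mul, Finset.sum_mul]
  refine Finset.sum_eq_zero fun y' _ => ?_
  rw [Finset.mul_sum, Finset.sum_mul]
  refine Finset.sum_eq_zero fun v' _ => ?_
  exact h.d1 _ _ _ _ hab rfl (fun hh => hwv hh.1)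

theorem EH.U0_eq (h : EH X u e) (hX : X.Connected) (x0 x1 x y : V) :
    U0 u e x0 x y = U0 (fun w a => u a w) e x1 y x :=
  h.row_eq_col hX x x0 y x1

open Classical in
theorem EH.qiso (h : EH X u e) (hX : X.Connected) (x0 : V) :
    QIso X X (fun x y => U0 u e x0 x y + if x = y then (1 - e) else 0) where
  star_eq a w := by
    rw [star_add, h.U0_star]
    congr 1
    split_ifs
    · rw [star_sub, star_one, h.e1]
    · exact star_zero _
  idem a w := by
    rw [add_mul, mul_add, mul_add, h.U0_idem]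
    split_ifs
    · rw [mul_sub, mul_one, h.U0_e, sub_self, sub_mul, one_mul, h.e_U0, sub_self, sub_mul, one_mul,
        mul_sub, mul_one, h.e2, sub_self, sub_zero, add_zero, zero_add]
    · simp
  rowOrth a w w' hw := by
    rw [add_mul, mul_add, mul_add, h.U0_orth x0 a hw]
    have hA : U0 u e x0 a w * (if a = w' then (1 - e) else 0) = 0 := by
      split_ifs
      · rw [mul_sub, mul_one, h.U0_e, sub_self]
      · exact mul_zero _
    have hB : (if a = w then (1 - e) else 0) * U0 u e x0 a w' = 0 := by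
      split_ifs
      · rw [sub_mul, one_mul, h.e_U0, sub_self]
      · exact zero_mul _
    have hC : (if a = w then (1 - e) else 0) * (if a = w' then (1 - e) else 0) = (0 : B) := by
      split_ifs with h1 h2
      · exact absurd (h1.symm.trans h2) hw
      · exact mul_zero _
      · exact zero_mul _
      · exact zero_mul _
    rw [hA, hB, hC]
    simp
  colOrth a b w hab := by
    have h0 : U0 u e x0 a w * U0 u e x0 b w = 0 := by
      rw [h.U0_eq hX x0 x0, h.U0_eq hX x0 x0]
      exact h.transpose.U0_orth x0 w hab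
    rw [add_mul, mul_add, mul_add, h0]
    have hA : U0 u e x0 a w * (if b = w then (1 - e) else 0) = 0 := by
      split_ifs
      · rw [mul_sub, mul_one, h.U0_e, sub_self]
      · exact mul_zero _
    have hB : (if a = w then (1 - e) else 0) * U0 u e x0 b w = 0 := by
      split_ifs
      · rw [sub_mul, one_mul, h.e_U0, sub_self]
      · exact zero_mul _
    have hC : (if a = w then (1 - e) else 0) * (if b = w then (1 - e) else 0) = (0 : B) := by
      split_ifs with h1 h2
      · exact absurd (h1.trans h2.symm) hab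
      · exact mul_zero _
      · exact zero_mul _
      · exact zero_mul _
    rw [hA, hB, hC]
    simp
  rowSum a := by
    rw [Finset.sum_add_distrib, h.U0_sum]
    simp
  colSum w := by
    rw [Finset.sum_add_distrib]
    have h0 : ∑ a, U0 u e x0 a w = e := by
      rw [Finset.sum_congr rfl (fun a _ => h.U0_eq hX x0 x0 a w)]
      exact h.transpose.U0_sum x0 w
    rw [h0]
    simp
  adj a b w v hn := by
    have h0 : U0 u e x0 a w * U0 u e x0 b v = 0 := by
      by_cases hab : X.Adj a b
      · exact h.U0_adj x0 hab (fun hwv => hn ⟨fun _ => hwv, fun _ => hab⟩)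
      · have hwv : X.Adj w v := by
          by_contra hwv
          exact hn ⟨fun hh => absurd hh hab, fun hh => absurd hh hwv⟩
        rw [h.U0_eq hX x0 x0, h.U0_eq hX x0 x0]
        exact h.transpose.U0_adj x0 hwv hab
    rw [add_mul, mul_add, mul_add, h0]
    have hA : U0 u e x0 a w * (if b = v then (1 - e) else 0) = 0 := by
      split_ifs
      · rw [mul_sub, mul_one, h.U0_e, sub_self]
      · exact mul_zero _
    have hB : (if a = w then (1 - e) else 0) * U0 u e x0 b v = 0 := by
      split_ifs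
      · rw [sub_mul, one_mul, h.e_U0, sub_self]
      · exact zero_mul _
    have hC : (if a = w then (1 - e) else 0) * (if b = v then (1 - e) else 0) = (0 : B) := by
      split_ifs with h1 h2
      · subst h1 h2
        exact absurd Iff.rfl hn
      · exact mul_zero _
      · exact zero_mul _
      · exact zero_mul _
    rw [hA, hB, hC]
    simp

theorem EH.U0_comm (h : EH X u e) (hX : X.Connected)
    (hcomm : ∀ U : V → V → B, QIso X X U → ∀ x y z w, U x y * U z w = U z w * U x y)
    (x0 x y z w : V) : U0 u e x0 x y * U0 u e x0 z w = U0 u e x0 z w * U0 u e x0 x y := by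
  classical
  have h1 := hcomm _ (h.qiso hX x0) x y z w
  have key : ∀ x y : V, (U0 u e x0 x y + if x = y then (1 - e) else 0) * e = U0 u e x0 x y := by
    intro x y
    rw [add_mul, h.U0_e]
    split_ifs
    · rw [sub_mul, one_mul, h.e2, sub_self, add_zero]
    · rw [zero_mul, add_zero]
  have key2 : ∀ x y : V, e * (U0 u e x0 x y + if x = y then (1 - e) else 0) = U0 u e x0 x y := by
    intro x y
    rw [mul_add, h.e_U0]
    split_ifs
    · rw [mul_sub, mul_one, h.e2, sub_self, add_zero]
    · rw [mul_zero, add_zero]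
  have h2 := congrArg (fun t => e * t * e) h1
  beta_reduce at h2
  rw [← mul_assoc, key2, mul_assoc, key, ← mul_assoc, key2, mul_assoc, key] at h2
  exact h2

theorem EH.factor (h : EH X u e) (x x' y y' : V) :
    U0 u e x' x y * U0 (fun a w => u a.swap w.swap) e x x' y' = u (x, x') (y, y') * e ∧
    U0 (fun a w => u a.swap w.swap) e x x' y' * U0 u e x' x y = u (x, x') (y, y') * e := by
  have e1 : U0 (fun a w => u a.swap w.swap) e x x' y' = (∑ v, u (x, x') (v, y')) * e := rfl
  have hce : e * (∑ v, u (x, x') (v, y')) = (∑ v, u (x, x') (v, y')) * e := by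
    rw [Finset.mul_sum, Finset.sum_mul]
    exact Finset.sum_congr rfl fun v _ => h.e3 _ _
  rw [e1]
  unfold U0
  constructor
  · rw [← mul_assoc, mul_assoc (∑ y', u (x, x') (y, y')) e, hce, ← mul_assoc, mul_assoc, h.e2]
    congr 1
    rw [Finset.sum_mul, Finset.sum_eq_single y']
    · rw [Finset.mul_sum, Finset.sum_eq_single y]
      · exact h.q.idem _ _
      · intro v _ hv
        exact h.q.rowOrth _ _ _ (fun hh => hv (Prod.ext_iff.1 hh).1.symm)
      · intro hh
        exact absurd (Finset.mem_univ _) hh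
    · intro v' _ hv'
      rw [Finset.mul_sum]
      refine Finset.sum_eq_zero fun v _ => ?_
      exact h.q.rowOrth _ _ _ (fun hh => hv' (Prod.ext_iff.1 hh).2)
    · intro hh
      exact absurd (Finset.mem_univ _) hh
  · rw [← mul_assoc, mul_assoc (∑ v, u (x, x') (v, y')) e, h.rho_e, ← mul_assoc, mul_assoc, h.e2]
    congr 1
    rw [Finset.sum_mul, Finset.sum_eq_single y]
    · rw [Finset.mul_sum, Finset.sum_eq_single y']
      · exact h.q.idem _ _
      · intro v _ hv
        exact h.q.rowOrth _ _ _ (fun hh => hv (Prod.ext_iff.1 hh).2.symm)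
      · intro hh
        exact absurd (Finset.mem_univ _) hh
    · intro v' _ hv'
      rw [Finset.mul_sum]
      refine Finset.sum_eq_zero fun v _ => ?_
      exact h.q.rowOrth _ _ _ (fun hh => hv' (Prod.ext_iff.1 hh).1)
    · intro hh
      exact absurd (Finset.mem_univ _) hh

theorem EH.U0_indep (h : EH X u e) (hX : X.Connected) (x0 x1 x y : V) :
    U0 u e x0 x y = U0 u e x1 x y := h.row_indep hX x x0 x1 y

theorem EH.final (h : EH X u e) (hX : X.Connected)
    (hcomm : ∀ U : V → V → B, QIso X X U → ∀ x y z w, U x y * U z w = U z w * U x y)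
    (a w b v : V × V) : e * (u a w * u b v) = e * (u b v * u a w) := by
  obtain ⟨x, x'⟩ := a
  obtain ⟨y, y'⟩ := w
  obtain ⟨z, z'⟩ := b
  obtain ⟨t, t'⟩ := v
  -- commuting factors
  have f1 : ∀ p q r s : V, U0 u e x p q * U0 u e x r s = U0 u e x r s * U0 u e x p q :=
    fun p q r s => h.U0_comm hX hcomm x p q r s
  have f2 : ∀ p q r s : V, U0 (fun a w => u a.swap w.swap) e x p q *
      U0 (fun a w => u a.swap w.swap) e x r s = U0 (fun a w => u a.swap w.swap) e x r s *
      U0 (fun a w => u a.swap w.swap) e x p q :=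
    fun p q r s => h.swap.U0_comm hX hcomm x p q r s
  have f3 : ∀ p q r s : V, U0 u e x p q * U0 (fun a w => u a.swap w.swap) e x r s =
      u (p, r) (q, s) * e ∧ U0 (fun a w => u a.swap w.swap) e x r s * U0 u e x p q =
      u (p, r) (q, s) * e := by
    intro p q r s
    rw [h.U0_indep hX x r, h.swap.U0_indep hX x p]
    exact h.factor p r q s
  have g1 : ∀ a w b v : V × V, e * (u a w * u b v) = (u a w * e) * (u b v * e) := by
    intro a w b v
    calc e * (u a w * u b v) = (e * u a w) * u b v := (mul_assoc _ _ _).symm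
      _ = (u a w * e) * u b v := by rw [h.e3]
      _ = (u a w * (e * e)) * u b v := by rw [h.e2]
      _ = (u a w * e) * (e * u b v) := by simp only [mul_assoc]
      _ = (u a w * e) * (u b v * e) := by rw [h.e3]
  rw [g1, g1, ← (f3 x y x' y').1, ← (f3 z t z' t').1]
  set P := U0 u e x x y
  set Q := U0 (fun a w => u a.swap w.swap) e x x' y' with hQ
  set P' := U0 u e x z t with hP'
  set Q' := U0 (fun a w => u a.swap w.swap) e x z' t' with hQ'
  have c1 : P * P' = P' * P := f1 _ _ _ _
  have c2 : Q * Q' = Q' * Q := f2 _ _ _ _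
  have c3 : P * Q' = Q' * P := (f3 _ _ _ _).1.trans (f3 _ _ _ _).2.symm
  have c4 : P' * Q = Q * P' := (f3 _ _ _ _).1.trans (f3 _ _ _ _).2.symm
  calc P * Q * (P' * Q') = P * (Q * P') * Q' := by simp only [mul_assoc]
    _ = P * (P' * Q) * Q' := by rw [c4]
    _ = (P * P') * (Q * Q') := by simp only [mul_assoc]
    _ = (P' * P) * (Q' * Q) := by rw [c1, c2]
    _ = P' * (P * Q') * Q := by simp only [mul_assoc]
    _ = P' * (Q' * P) * Q := by rw [c3]
    _ = P' * Q' * (P * Q) := by simp only [mul_assoc]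

end EHsec

/-- auxiliary -/
theorem end_lemma {V : Type} [Fintype V] [Nonempty V] (X : SimpleGraph V) (hX : X.Connected)
    (hNQ : NoQuantumSymmetry X) {A : Type} [CStarAlgebra A] (u : (V × V) → (V × V) → A)
    (h : QIso (X □ X) (X □ X) u) (e : A) (he1 : star e = e) (he2 : e * e = e)
    (he3 : ∀ a w, e * u a w = u a w * e)
    (hd1 : ∀ a b w v : V × V, X.Adj a.1 b.1 → a.2 = b.2 → ¬ (X.Adj w.1 v.1 ∧ w.2 = v.2) →
      u a w * u b v * e = 0)
    (hd2 : ∀ a b w v : V × V, a.1 = b.1 → X.Adj a.2 b.2 → ¬ (w.1 = v.1 ∧ X.Adj w.2 v.2) →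
      u a w * u b v * e = 0) (a w b v : V × V) :
    e * (u a w * u b v) = e * (u b v * u a w) := by
  have hEH : EH X u e := ⟨h, he1, he2, he3, hd1, hd2⟩
  exact hEH.final hX (fun U hU x y z w => comm_of_qiso X hNQ U hU x y z w) a w b v

/-- a pure central projection that does not kill `x` -/
theorem exists_pure {J : Type} [Fintype J] [DecidableEq J] {A : Type} [Ring A] [StarRing A]
    (E : J → J → A) (h1 : ∀ k l, star (E k l) = E k l) (h2 : ∀ k l, E k l * E k l = E k l)
    (h3 : ∀ k l k' l', E k l * E k' l' = E k' l' * E k l) (h4 : ∀ k, ∑ l, E k l = 1)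
    (U : Set A) (h5 : ∀ k l, ∀ y ∈ U, E k l * y = y * E k l) (x : A) (hx : x ≠ 0) :
    ∃ (e : A) (σ : J → J), star e = e ∧ e * e = e ∧ (∀ y ∈ U, e * y = y * e) ∧
      (∀ k, e * E k (σ k) = e) ∧ e * x ≠ 0 := by
  have key : ∀ K : Finset J, ∃ (e : A) (σ : J → J), star e = e ∧ e * e = e ∧
      (∀ y ∈ U, e * y = y * e) ∧ (∀ k l, e * E k l = E k l * e) ∧
      (∀ k ∈ K, e * E k (σ k) = e) ∧ e * x ≠ 0 := by
    intro K
    induction K using Finset.induction_on with
    | empty =>
      refine ⟨1, id, star_one A, one_mul 1, fun y _ => by rw [one_mul, mul_one],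
        fun k l => by rw [one_mul, mul_one], fun k hk => absurd hk (Finset.notMem_empty k), ?_⟩
      rwa [one_mul]
    | insert k K hk ih =>
      obtain ⟨e, σ, he1, he2, he3, he4, he5, he6⟩ := ih
      have hs : ∑ l, e * E k l * x = e * x := by
        rw [← Finset.sum_mul, ← Finset.mul_sum, h4, mul_one]
      have hne : ∑ l, e * E k l * x ≠ 0 := by rw [hs]; exact he6
      obtain ⟨l, -, hl⟩ := Finset.exists_ne_zero_of_sum_ne_zero hne
      refine ⟨e * E k l, Function.update σ k l, ?_, ?_, ?_, ?_, ?_, hl⟩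
      · rw [star_mul, h1, he1, he4]
      · calc e * E k l * (e * E k l) = e * (E k l * e) * E k l := by simp only [mul_assoc]
          _ = e * (e * E k l) * E k l := by rw [he4]
          _ = (e * e) * (E k l * E k l) := by simp only [mul_assoc]
          _ = e * E k l := by rw [he2, h2]
      · intro y hy
        calc e * E k l * y = e * (E k l * y) := mul_assoc _ _ _
          _ = e * (y * E k l) := by rw [h5 k l y hy]
          _ = (e * y) * E k l := (mul_assoc _ _ _).symm
          _ = (y * e) * E k l := by rw [he3 y hy]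
          _ = y * (e * E k l) := mul_assoc _ _ _
      · intro k' l'
        calc e * E k l * E k' l' = e * (E k l * E k' l') := mul_assoc _ _ _
          _ = e * (E k' l' * E k l) := by rw [h3]
          _ = (e * E k' l') * E k l := (mul_assoc _ _ _).symm
          _ = (E k' l' * e) * E k l := by rw [he4]
          _ = E k' l' * (e * E k l) := mul_assoc _ _ _
      · intro k' hk'
        by_cases hkk : k' = k
        · subst hkk
          rw [Function.update_self, mul_assoc, h2]
        · have hK : k' ∈ K := by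
            rcases Finset.mem_insert.1 hk' with h | h
            · exact absurd h hkk
            · exact h
          rw [Function.update_of_ne hkk]
          calc e * E k l * E k' (σ k') = e * (E k l * E k' (σ k')) := mul_assoc _ _ _
            _ = e * (E k' (σ k') * E k l) := by rw [h3]
            _ = (e * E k' (σ k')) * E k l := (mul_assoc _ _ _).symm
            _ = e * E k l := by rw [he5 k' hK]
  obtain ⟨e, σ, he1, he2, he3, -, he5, he6⟩ := key Finset.univ
  exact ⟨e, σ, he1, he2, he3, fun k => he5 k (Finset.mem_univ k), he6⟩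

/-- the map `σ` is a permutation -/
theorem sigma_bijective {J : Type} [Fintype J] [DecidableEq J] {P : J → Type} [∀ k, Fintype (P k)]
    (G : ∀ k, SimpleGraph (P k)) (hG : ∀ k, (G k).Connected) (hP : ∀ k, 2 ≤ Fintype.card (P k))
    {A : Type} [Ring A] [StarRing A] [Algebra ℝ A] [StarModule ℝ A]
    (u : (∀ k, P k) → (∀ k, P k) → A) (h : QIso (boxPi G) (boxPi G) u)
    (e : A) (he0 : e ≠ 0) (he2 : e * e = e) (he3 : ∀ a w, e * u a w = u a w * e) (σ : J → J)
    (hσ : ∀ k a b w v, DirAdj G k a b → ¬ DirAdj G (σ k) w v → u a w * u b v * e = 0) :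
    Function.Bijective σ := by
  classical
  have hsurj : Function.Surjective σ := by
    intro l
    by_contra hl
    have hl' : ∀ k, σ k ≠ l := fun k hk => hl ⟨k, hk⟩
    have hne : ∀ k, Nonempty (P k) := fun k =>
      Fintype.card_pos_iff.1 (lt_of_lt_of_le (by norm_num) (hP k))
    -- step 1: invariance along one edge
    have step : ∀ (f : (∀ k, P k) → ℝ) (k : J) (z z' : ∀ k, P k),
        (∀ w v, DirAdj G (σ k) w v → f w = f v) → DirAdj G k z z' →
        al u f z * e = al u f z' * e := by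
      intro f k z z' hf hz
      have e1 : al u f z * e = ∑ w, ∑ v, f w • (u z w * u z' v * e) := by
        rw [al, Finset.sum_mul]
        refine Finset.sum_congr rfl fun w _ => ?_
        rw [← Finset.smul_sum, ← Finset.sum_mul, ← Finset.mul_sum, h.rowSum, mul_one,
          smul_mul_assoc]
      have e2 : al u f z' * e = ∑ w, ∑ v, f v • (u z w * u z' v * e) := by
        rw [al, Finset.sum_mul, Finset.sum_comm]
        refine Finset.sum_congr rfl fun v _ => ?_
        rw [← Finset.smul_sum, ← Finset.sum_mul, ← Finset.sum_mul, h.rowSum, one_mul,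
          smul_mul_assoc]
      rw [e1, e2]
      refine Finset.sum_congr rfl fun w _ => Finset.sum_congr rfl fun v _ => ?_
      by_cases hwv : DirAdj G (σ k) w v
      · rw [hf w v hwv]
      · rw [hσ k z z' w v hz hwv, smul_zero, smul_zero]
    -- the indicator functions
    let F : P l → (∀ k, P k) → ℝ := fun ω w => if w l = ω then 1 else 0
    have hconst : ∀ (ω : P l) (z z' : ∀ k, P k), al u (F ω) z * e = al u (F ω) z' * e := by
      intro ω z z'
      have hc := (boxPi_connected G hG).preconnected z z'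
      obtain ⟨p⟩ := hc
      induction p with
      | nil => rfl
      | cons hadj q ih =>
        obtain ⟨k, hk1, hk2⟩ := hadj
        rw [← ih]
        refine step (F ω) k _ _ ?_ ⟨hk1, hk2⟩
        intro w v hwv
        have : w l = v l := hwv.2 l (hl' k).symm
        simp only [F, this]
    have hsum : ∀ ω : P l, ∑ z, al u (F ω) z * e = (∑ w, F ω w) • e := by
      intro ω
      rw [← Finset.sum_mul, Finset.sum_smul]
      simp only [al]
      rw [Finset.sum_comm, Finset.sum_mul]
      refine Finset.sum_congr rfl fun w _ => ?_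
      rw [← Finset.smul_sum, h.colSum, smul_mul_assoc, one_mul]
    have hcard : ∀ (ω : P l) (z : ∀ k, P k),
        (Fintype.card (∀ k, P k) : ℝ) • (al u (F ω) z * e) = (∑ w, F ω w) • e := by
      intro ω z
      rw [← hsum ω]
      rw [Finset.sum_congr rfl fun z' _ => hconst ω z' z]
      rw [Finset.sum_const, Finset.card_univ, Nat.cast_smul_eq_nsmul]
    have hpos : ∀ ω : P l, (∑ w, F ω w) ≠ 0 := by
      intro ω
      have h0 : ∀ w, 0 ≤ F ω w := by
        intro w
        simp only [F]
        split_ifs <;> norm_num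
      apply ne_of_gt
      let w0 : ∀ k, P k := Function.update (fun k => (hne k).some) l ω
      have hw0 : F ω w0 = 1 := by simp [F, w0]
      have : F ω w0 ≤ ∑ w, F ω w := Finset.single_le_sum (fun w _ => h0 w) (Finset.mem_univ w0)
      linarith
    obtain ⟨ω0, ω1, hω⟩ : ∃ ω0 ω1 : P l, ω0 ≠ ω1 := by
      have : 1 < Fintype.card (P l) := hP l
      exact Fintype.exists_pair_of_one_lt_card this |>.imp fun a ⟨b, hb⟩ => ⟨b, hb⟩
    let z : ∀ k, P k := fun k => (hne k).some
    have hecomm : ∀ (f : (∀ k, P k) → ℝ), e * al u f z = al u f z * e := by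
      intro f
      simp only [al, Finset.mul_sum, Finset.sum_mul, mul_smul_comm, smul_mul_assoc, he3]
    have horth : al u (F ω0) z * al u (F ω1) z = 0 := by
      conv_lhs => rw [al, Finset.sum_mul]
      refine Finset.sum_eq_zero fun w _ => ?_
      rw [smul_mul_assoc, h.u_mul_al, smul_smul]
      have : F ω0 w * F ω1 w = 0 := by
        simp only [F]
        by_cases h0 : w l = ω0
        · have h1 : w l ≠ ω1 := fun h1 => hω (h0.symm.trans h1)
          simp [h1]
        · simp [h0]
      rw [this, zero_smul]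
    have hz : (al u (F ω0) z * e) * (al u (F ω1) z * e) = 0 := by
      calc (al u (F ω0) z * e) * (al u (F ω1) z * e)
          = al u (F ω0) z * (e * al u (F ω1) z) * e := by simp only [mul_assoc]
        _ = al u (F ω0) z * (al u (F ω1) z * e) * e := by rw [hecomm]
        _ = (al u (F ω0) z * al u (F ω1) z) * (e * e) := by simp only [mul_assoc]
        _ = 0 := by rw [horth, zero_mul]
    have hfin : ((∑ w, F ω0 w) * (∑ w, F ω1 w)) • e = 0 := by
      calc ((∑ w, F ω0 w) * (∑ w, F ω1 w)) • e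
          = ((∑ w, F ω0 w) • e) * ((∑ w, F ω1 w) • e) := by
            rw [smul_mul_smul_comm, he2]
        _ = 0 := by
            rw [← hcard ω0 z, ← hcard ω1 z, smul_mul_smul_comm, hz, smul_zero]
    have hc : ((∑ w, F ω0 w) * (∑ w, F ω1 w)) ≠ 0 := mul_ne_zero (hpos ω0) (hpos ω1)
    have h5 := congrArg (fun x => ((∑ w, F ω0 w) * (∑ w, F ω1 w))⁻¹ • x) hfin
    simp only [smul_smul, inv_mul_cancel₀ hc, one_smul, smul_zero] at h5
    exact he0 h5
  exact ⟨Finite.injective_iff_surjective.2 hsurj, hsurj⟩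

theorem split_core {ι : Type} [Fintype ι] [DecidableEq ι] {P : ι → Type}
    (G : ∀ i, SimpleGraph (P i)) (q q' : ι → ι × Bool)
    (h1 : Function.Bijective fun i => (q i).1) (h2 : Function.Bijective fun i => (q' i).1)
    (h3 : Function.Bijective (Sum.elim q q')) (z1 z2 : ∀ k : ι × Bool, P k.1)
    (a b a' b' : ∀ i, P i) (ha : ∀ i, a (q i).1 = z1 (q i)) (hb : ∀ i, b (q i).1 = z2 (q i))
    (ha' : ∀ i, a' (q' i).1 = z1 (q' i)) (hb' : ∀ i, b' (q' i).1 = z2 (q' i)) (i : ι) :
    DirAdj (fun k : ι × Bool => G k.1) (q i) z1 z2 ↔ (DirAdj G (q i).1 a b ∧ a' = b') := by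
  have hqq : ∀ i j, q' i ≠ q j := by
    intro i j h
    have := @h3.1 (Sum.inr i) (Sum.inl j) h
    simp at this
  constructor
  · rintro ⟨hadj, hne⟩
    refine ⟨⟨?_, ?_⟩, ?_⟩
    · rw [ha, hb]; exact hadj
    · intro j hj
      obtain ⟨i', hi'⟩ := h1.2 j
      simp only at hi'
      subst hi'
      rw [ha, hb]
      exact hne _ (fun h => hj (by rw [h]))
    · funext j
      obtain ⟨i', hi'⟩ := h2.2 j
      simp only at hi'
      subst hi'
      rw [ha', hb']
      exact hne _ (hqq i' i)
  · rintro ⟨⟨hadj, hne⟩, heq⟩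
    refine ⟨?_, ?_⟩
    · have h := hadj
      rw [ha, hb] at h
      exact h
    · intro k hk
      obtain ⟨s, hs⟩ := h3.2 k
      rcases s with i' | i'
      · simp only [Sum.elim_inl] at hs
        subst hs
        rw [← ha, ← hb]
        apply hne
        intro h
        exact hk (by rw [h1.1 h])
      · simp only [Sum.elim_inr] at hs
        subst hs
        rw [← ha', ← hb', heq]

theorem exists_of_bij {ι : Type} {P : ι → Type} (q : ι → ι × Bool)
    (h1 : Function.Bijective fun i => (q i).1) (w : ∀ k : ι × Bool, P k.1) :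
    ∃ y : ∀ j, P j, ∀ i, y (q i).1 = w (q i) := by
  have h : ∀ j, ∃ v : P j, ∀ i (h : (q i).1 = j), h ▸ w (q i) = v := by
    intro j
    obtain ⟨i0, hi0⟩ := h1.2 j
    simp only at hi0
    subst hi0
    refine ⟨w (q i0), fun i h => ?_⟩
    have : i = i0 := h1.1 h
    subst this
    rfl
  choose y hy using h
  exact ⟨y, fun i => (hy _ i rfl).symm⟩

theorem bij_swap {ι : Type} {q q' : ι → ι × Bool} (h3 : Function.Bijective (Sum.elim q q')) :
    Function.Bijective (Sum.elim q' q) := by
  have h : Sum.elim q' q = Sum.elim q q' ∘ Sum.swap := by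
    funext s; rcases s with s | s <;> rfl
  rw [h]
  exact h3.comp (Equiv.sumComm ι ι).bijective

/-- a splitting of the coordinates of the square -/
theorem exists_iso_split {ι : Type} [Fintype ι] [DecidableEq ι] {P : ι → Type}
    (G : ∀ i, SimpleGraph (P i)) (q q' : ι → ι × Bool)
    (h1 : Function.Bijective fun i => (q i).1) (h2 : Function.Bijective fun i => (q' i).1)
    (h3 : Function.Bijective (Sum.elim q q')) :
    ∃ Ψ : boxPi (fun k : ι × Bool => G k.1) ≃g (boxPi G □ boxPi G),
      ∀ w i, (Ψ w).1 (q i).1 = w (q i) ∧ (Ψ w).2 (q' i).1 = w (q' i) := by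
  classical
  let Θ : ((∀ i, P i) × (∀ i, P i)) → (∀ k : ι × Bool, P k.1) :=
    fun y k => if ∃ i, q i = k then y.1 k.1 else y.2 k.1
  have hqq : ∀ i j, q i ≠ q' j := by
    intro i j h
    have := @h3.1 (Sum.inl i) (Sum.inr j) h
    simp at this
  have hq : ∀ y i, y.1 (q i).1 = Θ y (q i) := fun y i => by
    show _ = if ∃ i', q i' = q i then y.1 (q i).1 else y.2 (q i).1
    rw [if_pos ⟨i, rfl⟩]
  have hq' : ∀ y i, y.2 (q' i).1 = Θ y (q' i) := fun y i => by
    show _ = if ∃ i', q i' = q' i then y.1 (q' i).1 else y.2 (q' i).1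
    rw [if_neg]
    rintro ⟨j, hj⟩
    exact hqq j i hj
  have hinj : Function.Injective Θ := by
    intro y z hyz
    refine Prod.ext ?_ ?_
    · funext j
      obtain ⟨i, hi⟩ := h1.2 j
      simp only at hi
      subst hi
      rw [hq, hq, hyz]
    · funext j
      obtain ⟨i, hi⟩ := h2.2 j
      simp only at hi
      subst hi
      rw [hq', hq', hyz]
  have hsurj : Function.Surjective Θ := by
    intro w
    obtain ⟨y, hy⟩ := exists_of_bij q h1 w
    obtain ⟨y', hy'⟩ := exists_of_bij q' h2 w
    refine ⟨(y, y'), ?_⟩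
    funext k
    obtain ⟨s, hs⟩ := h3.2 k
    rcases s with i | i
    · simp only [Sum.elim_inl] at hs
      subst hs
      rw [← hq]; exact hy i
    · simp only [Sum.elim_inr] at hs
      subst hs
      rw [← hq']; exact hy' i
  let e0 : ((∀ i, P i) × (∀ i, P i)) ≃ (∀ k : ι × Bool, P k.1) :=
    Equiv.ofBijective Θ ⟨hinj, hsurj⟩
  have hadj : ∀ y z, (boxPi (fun k : ι × Bool => G k.1)).Adj (Θ y) (Θ z) ↔
      (boxPi G □ boxPi G).Adj y z := by
    intro y z
    have c1 := split_core G q q' h1 h2 h3 (Θ y) (Θ z) y.1 z.1 y.2 z.2 (hq y) (hq z) (hq' y) (hq' z)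
    have c2 := split_core G q' q h2 h1 (bij_swap h3) (Θ y) (Θ z) y.2 z.2 y.1 z.1 (hq' y) (hq' z)
      (hq y) (hq z)
    rw [SimpleGraph.boxProd_adj]
    constructor
    · rintro ⟨k, hk1, hk2⟩
      obtain ⟨s, hs⟩ := h3.2 k
      rcases s with i | i
      · simp only [Sum.elim_inl] at hs
        subst hs
        obtain ⟨d, d'⟩ := (c1 i).1 ⟨hk1, hk2⟩
        exact Or.inl ⟨⟨_, d⟩, d'⟩
      · simp only [Sum.elim_inr] at hs
        subst hs
        obtain ⟨d, d'⟩ := (c2 i).1 ⟨hk1, hk2⟩
        exact Or.inr ⟨⟨_, d⟩, d'⟩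
    · rintro (⟨⟨j, d⟩, d'⟩ | ⟨⟨j, d⟩, d'⟩)
      · obtain ⟨i, hi⟩ := h1.2 j
        simp only at hi
        subst hi
        exact ⟨q i, (c1 i).2 ⟨d, d'⟩⟩
      · obtain ⟨i, hi⟩ := h2.2 j
        simp only at hi
        subst hi
        exact ⟨q' i, (c2 i).2 ⟨d, d'⟩⟩
  let I : (boxPi G □ boxPi G) ≃g boxPi (fun k : ι × Bool => G k.1) :=
    { toEquiv := e0, map_rel_iff' := fun {y z} => hadj y z }
  refine ⟨I.symm, fun w i => ?_⟩
  have hw : Θ (I.symm w) = w := I.apply_symm_apply w
  constructor
  · rw [hq, hw]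
  · rw [hq', hw]

theorem QIso.transport {V W V' W' : Type} [Fintype V] [Fintype W] [Fintype V'] [Fintype W']
    {B : Type} [Ring B] [StarRing B] [Algebra ℝ B] [StarModule ℝ B]
    {G : SimpleGraph V} {H : SimpleGraph W} {G' : SimpleGraph V'} {H' : SimpleGraph W'}
    {u : V → W → B} (h : QIso G H u) (φ : G' ≃g G) (ψ : H' ≃g H) :
    QIso G' H' (fun a w => u (φ a) (ψ w)) where
  star_eq a w := h.star_eq _ _
  idem a w := h.idem _ _
  rowOrth a w w' hw := h.rowOrth _ _ _ fun h' => hw (ψ.injective h')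
  colOrth a b w hab := h.colOrth _ _ _ fun h' => hab (φ.injective h')
  rowSum a := by
    rw [← h.rowSum (φ a)]
    exact Equiv.sum_comp ψ.toEquiv (fun w => u (φ a) w)
  colSum w := by
    rw [← h.colSum (ψ w)]
    exact Equiv.sum_comp φ.toEquiv (fun a => u a (ψ w))
  adj a b w v hn := h.adj _ _ _ _ fun h' => hn (by
    rw [← φ.map_adj_iff, ← ψ.map_adj_iff]; exact h')

theorem bij_kappa {ι : Type} (κ : ι → Bool) :
    Function.Bijective (Sum.elim (fun i : ι => (i, κ i)) (fun i : ι => (i, !κ i))) := by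
  constructor
  · rintro (i | i) (j | j) h
    · have h1 : i = j := congrArg Prod.fst h
      rw [h1]
    · have h1 : i = j := congrArg Prod.fst h
      subst h1
      have h2 : κ i = !κ i := congrArg Prod.snd h
      cases hk : κ i <;> rw [hk] at h2 <;> exact absurd h2 (by decide)
    · have h1 : i = j := congrArg Prod.fst h
      subst h1
      have h2 : (!κ i) = κ i := congrArg Prod.snd h
      cases hk : κ i <;> rw [hk] at h2 <;> exact absurd h2 (by decide)
    · have h1 : i = j := congrArg Prod.fst h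
      rw [h1]
  · rintro ⟨i, b⟩
    by_cases hb : b = κ i
    · exact ⟨Sum.inl i, by rw [hb]; rfl⟩
    · refine ⟨Sum.inr i, ?_⟩
      have : b = !κ i := by
        cases b <;> cases hk : κ i <;> rw [hk] at hb <;> first | rfl | exact absurd rfl hb
      rw [this]; rfl

theorem bij_const {ι : Type} :
    Function.Bijective (Sum.elim (fun i : ι => (i, false)) (fun i : ι => (i, true))) :=
  bij_kappa (fun _ => false)

/-- auxiliary -/
theorem square_noqs {ι : Type} [Fintype ι] [DecidableEq ι] {P : ι → Type} [∀ i, Fintype (P i)]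
    (G : ∀ i, SimpleGraph (P i)) (hG : ∀ i, (G i).Connected) (hP : ∀ i, 2 ≤ Fintype.card (P i))
    (hprime : ∀ i, PrimeGraph (G i)) (hK : ∀ i, NoK2 (G i))
    (hNQ : NoQuantumSymmetry (boxPi G)) : NoQuantumSymmetry (boxPi G □ boxPi G) := by
  classical
  intro A _ u hu hc x0 y0 z0 w0
  have h0 := qiso_of_magic (boxPi G □ boxPi G) u hu hc
  obtain ⟨Ψ0, -⟩ := exists_iso_split G (fun i => (i, false)) (fun i => (i, true))
    Function.bijective_id Function.bijective_id bij_const
  obtain ⟨u1, hu1⟩ : ∃ u1 : (∀ k : ι × Bool, P k.1) → (∀ k : ι × Bool, P k.1) → A,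
      ∀ z w, u1 z w = u (Ψ0 z) (Ψ0 w) := ⟨fun z w => u (Ψ0 z) (Ψ0 w), fun _ _ => rfl⟩
  have hq1 : QIso (boxPi (fun k : ι × Bool => G k.1)) (boxPi (fun k : ι × Bool => G k.1)) u1 := by
    have h := h0.transport Ψ0 Ψ0
    have he : u1 = fun a w => u (Ψ0 a) (Ψ0 w) := by funext a w; exact hu1 a w
    rw [he]; exact h
  obtain ⟨E, e1, e2, e3, e4, e5, e6⟩ := exists_central (fun k : ι × Bool => G k.1)
    (fun k => hG k.1) (fun k => hP k.1) (fun k => hprime k.1) (fun k => hK k.1)
    (fun x hx => CStarRing.star_mul_self_eq_zero_iff x |>.1 hx) u1 hq1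
  by_contra hne
  have hx : u x0 y0 * u z0 w0 - u z0 w0 * u x0 y0 ≠ 0 := sub_ne_zero.2 hne
  obtain ⟨e, σ, he1, he2, he3, he4, he5⟩ := exists_pure E e1 e2 e3 e4
    (Set.range (fun p : (∀ k : ι × Bool, P k.1) × (∀ k : ι × Bool, P k.1) => u1 p.1 p.2))
    (by rintro k l _ ⟨p, rfl⟩; exact e5 k l p.1 p.2) _ hx
  have he3' : ∀ a w, e * u1 a w = u1 a w * e := fun a w => he3 _ ⟨(a, w), rfl⟩
  have he0 : e ≠ 0 := by
    rintro rfl
    exact he5 (zero_mul _)
  have hEe : ∀ k, E k (σ k) * e = e := by
    intro k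
    have h := congrArg star (he4 k)
    rwa [star_mul, he1, e1] at h
  have hσ : ∀ k a b w v, DirAdj (fun k : ι × Bool => G k.1) k a b →
      ¬ DirAdj (fun k : ι × Bool => G k.1) (σ k) w v → u1 a w * u1 b v * e = 0 := by
    intro k a b w v hd hn
    rw [← hEe k, ← mul_assoc, e6 k (σ k) a b w v hd hn, zero_mul]
  have hbij : Function.Bijective σ := sigma_bijective (fun k : ι × Bool => G k.1)
    (fun k => hG k.1) (fun k => hP k.1) u1 hq1 e he0 he2 he3' σ hσ
  obtain ⟨κ, hκ1, hκ2⟩ := exists_selection (Equiv.ofBijective σ hbij)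
  have hκ1' : Function.Bijective (fun i => (σ (i, κ i)).1) := hκ1
  have hκ2' : Function.Bijective (fun i => (σ (i, !κ i)).1) := hκ2
  have hs := bij_kappa κ
  have hs' : Function.Bijective (Sum.elim (fun i : ι => σ (i, κ i)) (fun i : ι => σ (i, !κ i))) := by
    have h : Sum.elim (fun i : ι => σ (i, κ i)) (fun i : ι => σ (i, !κ i)) =
        σ ∘ Sum.elim (fun i : ι => (i, κ i)) (fun i : ι => (i, !κ i)) := by
      funext s; rcases s with s | s <;> rfl
    rw [h]
    exact hbij.comp hs
  obtain ⟨Φ, hΦ⟩ := exists_iso_split G (fun i => (i, κ i)) (fun i => (i, !κ i))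
    Function.bijective_id Function.bijective_id hs
  obtain ⟨Ψ, hΨ⟩ := exists_iso_split G (fun i => σ (i, κ i)) (fun i => σ (i, !κ i)) hκ1' hκ2' hs'
  have hΦ1 : ∀ (a : (∀ i, P i) × (∀ i, P i)) i, a.1 i = Φ.symm a (i, κ i) := by
    intro a i
    have h := (hΦ (Φ.symm a) i).1
    rwa [Φ.apply_symm_apply] at h
  have hΦ2 : ∀ (a : (∀ i, P i) × (∀ i, P i)) i, a.2 i = Φ.symm a (i, !κ i) := by
    intro a i
    have h := (hΦ (Φ.symm a) i).2
    rwa [Φ.apply_symm_apply] at h
  have hΨ1 : ∀ (a : (∀ i, P i) × (∀ i, P i)) i, a.1 (σ (i, κ i)).1 = Ψ.symm a (σ (i, κ i)) := by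
    intro a i
    have h := (hΨ (Ψ.symm a) i).1
    rwa [Ψ.apply_symm_apply] at h
  have hΨ2 : ∀ (a : (∀ i, P i) × (∀ i, P i)) i, a.2 (σ (i, !κ i)).1 = Ψ.symm a (σ (i, !κ i)) := by
    intro a i
    have h := (hΨ (Ψ.symm a) i).2
    rwa [Ψ.apply_symm_apply] at h
  have hX : (boxPi G).Connected := boxPi_connected G hG
  have : Nonempty (∀ i, P i) := hX.nonempty
  have hut := hq1.transport Φ.symm Ψ.symm
  have hend := end_lemma (boxPi G) hX hNQ (fun a w => u1 (Φ.symm a) (Ψ.symm w)) hut e he1 he2
    (fun a w => he3' _ _) (by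
      intro a b w v hab1 hab2 hwv
      obtain ⟨i0, hi0⟩ := hab1
      refine hσ (i0, κ i0) _ _ _ _ ?_ ?_
      · exact (split_core G (fun i => (i, κ i)) (fun i => (i, !κ i)) Function.bijective_id
          Function.bijective_id hs (Φ.symm a) (Φ.symm b) a.1 b.1 a.2 b.2 (hΦ1 a) (hΦ1 b)
          (hΦ2 a) (hΦ2 b) i0).2 ⟨hi0, hab2⟩
      · intro hd
        obtain ⟨d1, d2⟩ := (split_core G (fun i => σ (i, κ i)) (fun i => σ (i, !κ i)) hκ1' hκ2' hs'
          (Ψ.symm w) (Ψ.symm v) w.1 v.1 w.2 v.2 (hΨ1 w) (hΨ1 v) (hΨ2 w) (hΨ2 v) i0).1 hd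
        exact hwv ⟨⟨_, d1⟩, d2⟩) (by
      intro a b w v hab1 hab2 hwv
      obtain ⟨i0, hi0⟩ := hab2
      refine hσ (i0, !κ i0) _ _ _ _ ?_ ?_
      · exact (split_core G (fun i => (i, !κ i)) (fun i => (i, κ i)) Function.bijective_id
          Function.bijective_id (bij_swap hs) (Φ.symm a) (Φ.symm b) a.2 b.2 a.1 b.1 (hΦ2 a) (hΦ2 b)
          (hΦ1 a) (hΦ1 b) i0).2 ⟨hi0, hab1⟩
      · intro hd
        obtain ⟨d1, d2⟩ := (split_core G (fun i => σ (i, !κ i)) (fun i => σ (i, κ i)) hκ2' hκ1'
          (bij_swap hs')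
          (Ψ.symm w) (Ψ.symm v) w.2 v.2 w.1 v.1 (hΨ2 w) (hΨ2 v) (hΨ1 w) (hΨ1 v) i0).1 hd
        exact hwv ⟨d2, ⟨_, d1⟩⟩)
  have hut' : ∀ a w, u a w = u1 (Φ.symm (Φ (Ψ0.symm a))) (Ψ.symm (Ψ (Ψ0.symm w))) := by
    intro a w
    rw [Φ.symm_apply_apply, Ψ.symm_apply_apply, hu1, Ψ0.apply_symm_apply, Ψ0.apply_symm_apply]
  apply he5
  rw [mul_sub, sub_eq_zero, hut' x0 y0, hut' z0 w0]
  exact hend _ _ _ _

end

end Pool.Agent.H741.QS
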