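import Pool.Agent.Helper741.QSym.End

set_option autoImplicit false
set_option linter.unusedSectionVars false

namespace Pool.Agent.H741.QS

theorem noqs_of_iso {V V' : Type} [Fintype V] [Fintype V'] {X : SimpleGraph V}
    {X' : SimpleGraph V'} (e : X ≃g X') (h : NoQuantumSymmetry X) : NoQuantumSymmetry X' := by
  intro A _ u hu hc x y z w
  have h0 := qiso_of_magic X' u hu hc
  have h1 := h0.transport e e
  have h2 := comm_of_qiso X h _ h1 (e.symm x) (e.symm y) (e.symm z) (e.symm w)
  simpa using h2

theorem main {V : Type} [Fintype V] [Nonempty V] (X : SimpleGraph V) :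
    NoQuantumSymmetry (X □ X) ↔ X.Connected ∧ NoQuantumSymmetry X ∧ NoK2 X := by
  constructor
  · intro h
    refine ⟨necessity_connected X h, necessity_self X X h, ?_⟩
    intro W _ Y
    refine ⟨fun e => ?_⟩
    exact necessity_K2 X Y e h
  · rintro ⟨h1, h2, h3⟩
    obtain ⟨ι, i1, i2, P, i3, G, hG, ⟨e⟩⟩ := exists_prime_factorization X h1 h3
    have h4 : NoQuantumSymmetry (boxPi G) := noqs_of_iso e h2
    have h5 := square_noqs G (fun i => (hG i).1) (fun i => (hG i).2.1) (fun i => (hG i).2.2.1)
      (fun i => (hG i).2.2.2) h4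
    exact noqs_of_iso (prodCongr e.symm e.symm) h5

end Pool.Agent.H741.QS
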