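import Pool.Agent.Helper741.QSym.Rel
import Pool.Agent.Helper741.QSym.Alg

set_option autoImplicit false
set_option linter.unusedSectionVars false
set_option linter.unusedVariables false

namespace Pool.Agent.H741.QS

section

variable {V W W1 W2 : Type} [Fintype V] [Fintype W]
variable {B : Type} [Ring B] [StarRing B] [Algebra ℝ B] [StarModule ℝ B]
variable {G : SimpleGraph V} {H : SimpleGraph W} {u : V → W → B}
variable {Y1 : SimpleGraph W1} {Y2 : SimpleGraph W2} {p1 : W → W1} {p2 : W → W2}

/-- The pair `a`, `b` is good with respect to the splitting. -/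
def Good (H : SimpleGraph W) (p1 : W → W1) (p2 : W → W2) (u : V → W → B) (a b : V) : Prop :=
  ∀ w v w', H.Adj w v → p2 w = p2 v → H.Adj v w' → p1 v = p1 w' → u a w * u b v * u a w' = 0

theorem m1_left (h : QIso G H u) (F : W → ℝ) (a b : V) (w : W) :
    u a w * (al u F a - al u F b) = ∑ v, (F w - F v) • (u a w * u b v) := by
  have h1 : u a w * al u F a = ∑ v, F w • (u a w * u b v) := by
    rw [h.u_mul_al, ← Finset.smul_sum, ← Finset.mul_sum, h.rowSum, mul_one]
  have h2 : u a w * al u F b = ∑ v, F v • (u a w * u b v) := by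
    unfold al
    rw [Finset.mul_sum]
    exact Finset.sum_congr rfl fun v _ => mul_smul_comm _ _ _
  rw [mul_sub, h1, h2, ← Finset.sum_sub_distrib]
  exact Finset.sum_congr rfl fun v _ => (sub_smul _ _ _).symm

theorem m1_right (h : QIso G H u) (K : W → ℝ) (a b : V) (w : W) :
    (al u K a - al u K b) * u a w = ∑ v, (K w - K v) • (u b v * u a w) := by
  have h1 : al u K a * u a w = ∑ v, K w • (u b v * u a w) := by
    rw [h.al_mul_u, ← Finset.smul_sum, ← Finset.sum_mul, h.rowSum, one_mul]
  have h2 : al u K b * u a w = ∑ v, K v • (u b v * u a w) := by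
    unfold al
    rw [Finset.sum_mul]
    exact Finset.sum_congr rfl fun v _ => smul_mul_assoc _ _ _
  rw [sub_mul, h1, h2, ← Finset.sum_sub_distrib]
  exact Finset.sum_congr rfl fun v _ => (sub_smul _ _ _).symm

/-- the sandwich formula -/
theorem m1_sandwich (h : QIso G H u) (F K : W → ℝ) (a b : V) (w w' : W) :
    u a w * ((al u F a - al u F b) * (al u K a - al u K b)) * u a w' =
      ∑ v, ((F w - F v) * (K w' - K v)) • (u a w * u b v * u a w') := by
  classical
  have e1 : u a w * ((al u F a - al u F b) * (al u K a - al u K b)) * u a w' =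
      (u a w * (al u F a - al u F b)) * ((al u K a - al u K b) * u a w') := by
    simp only [mul_assoc]
  rw [e1, m1_left h F a b w, m1_right h K a b w', Finset.sum_mul]
  refine Finset.sum_congr rfl fun v _ => ?_
  rw [Finset.mul_sum, Finset.sum_eq_single v]
  · rw [smul_mul_assoc, mul_smul_comm, smul_smul]
    congr 1
    calc u a w * u b v * (u b v * u a w') = u a w * (u b v * u b v) * u a w' := by
          simp only [mul_assoc]
      _ = _ := by rw [h.idem]
  · intro v' _ hv'
    rw [smul_mul_assoc, mul_smul_comm]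
    have : u a w * u b v * (u b v' * u a w') = 0 := by
      calc u a w * u b v * (u b v' * u a w') = u a w * (u b v * u b v') * u a w' := by
            simp only [mul_assoc]
        _ = 0 := by rw [h.rowOrth b v v' hv'.symm, mul_zero, zero_mul]
    rw [this, smul_zero, smul_zero]
  · intro hv; exact absurd (Finset.mem_univ _) hv

/-- good edges: one direction -/
theorem good_imp (h : QIso G H u) (hs : Split H Y1 Y2 p1 p2) {a b : V} (hab : G.Adj a b)
    (hgood : Good H p1 p2 u a b) {F K : W → ℝ} (hF : ∀ w v, p1 w = p1 v → F w = F v)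
    (hK : ∀ w v, p2 w = p2 v → K w = K v) :
    (al u F a - al u F b) * (al u K a - al u K b) = 0 := by
  apply h.eq_zero a a
  intro w w'
  rw [m1_sandwich h]
  refine Finset.sum_eq_zero fun v _ => ?_
  by_cases h1 : H.Adj w v
  · by_cases h2 : H.Adj v w'
    · rcases hs.adj_cases h1 with ⟨h3, -, -⟩ | ⟨h3, -, -⟩
      · rcases hs.adj_cases h2 with ⟨h4, -, -⟩ | ⟨h4, -, -⟩
        · rw [hK w' v h4.symm, sub_self, mul_zero, zero_smul]
        · rw [hgood w v w' h1 h3 h2 h4, smul_zero]
      · rw [hF w v h3, sub_self, zero_mul, zero_smul]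
    · have h3 : u b v * u a w' = 0 := h.adj b a v w' fun h' => h2 (h'.1 hab.symm)
      rw [mul_assoc, h3, mul_zero, smul_zero]
  · have h3 : u a w * u b v = 0 := h.adj a b w v fun h' => h1 (h'.1 hab)
    rw [h3, zero_mul, smul_zero]

/-- good edges: the converse, only needs the functions in `RR` -/
theorem good_of (h : QIso G H u) (hs : Split H Y1 Y2 p1 p2) {a b : V} (hab : G.Adj a b)
    (hz : ∀ F ∈ RR Y1 p1, ∀ K ∈ RR Y2 p2, (al u F a - al u F b) * (al u K a - al u K b) = 0) :
    Good H p1 p2 u a b := by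
  classical
  intro w v w' h1 h2 h3 h4
  have a1 : Y1.Adj (p1 w) (p1 v) := by
    rcases hs.adj_cases h1 with h5 | h5
    · exact h5.2.2
    · exact absurd h2 h5.2.1
  have a2 : Y2.Adj (p2 v) (p2 w') := by
    rcases hs.adj_cases h3 with h5 | h5
    · exact absurd h4 h5.2.1
    · exact h5.2.2
  obtain ⟨F, hFdef⟩ : ∃ F : W → ℝ, F = fun x => (Y1.dist (p1 x) (p1 w) : ℝ) -
    (Y1.dist (p1 x) (p1 v) : ℝ) := ⟨_, rfl⟩
  obtain ⟨K, hKdef⟩ : ∃ K : W → ℝ, K = fun x => (Y2.dist (p2 x) (p2 w') : ℝ) -
    (Y2.dist (p2 x) (p2 v) : ℝ) := ⟨_, rfl⟩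
  have hF : F ∈ RR Y1 p1 := by
    apply Submodule.subset_span
    right
    exact ⟨(p1 w, p1 v), hFdef.symm⟩
  have hK : K ∈ RR Y2 p2 := by
    apply Submodule.subset_span
    right
    exact ⟨(p2 w', p2 v), hKdef.symm⟩
  have d1 : Y1.dist (p1 w) (p1 v) = 1 := SimpleGraph.dist_eq_one_iff_adj.2 a1
  have d1' : Y1.dist (p1 v) (p1 w) = 1 := SimpleGraph.dist_eq_one_iff_adj.2 a1.symm
  have d2 : Y2.dist (p2 v) (p2 w') = 1 := SimpleGraph.dist_eq_one_iff_adj.2 a2
  have d2' : Y2.dist (p2 w') (p2 v) = 1 := SimpleGraph.dist_eq_one_iff_adj.2 a2.symm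
  have hFw : F w - F v = -2 := by
    rw [hFdef]
    simp only [SimpleGraph.dist_self, d1, d1']
    norm_num
  have hKw : K w' - K v = -2 := by
    rw [hKdef]
    simp only [SimpleGraph.dist_self, d2, d2']
    norm_num
  have hs0 := m1_sandwich h F K a b w w'
  rw [hz F hF K hK, mul_zero, zero_mul, Finset.sum_eq_single v, hFw, hKw] at hs0
  · have h5 : ((-2 : ℝ) * -2) ≠ 0 := by norm_num
    have h6 := congrArg (fun x => ((-2 : ℝ) * -2)⁻¹ • x) hs0
    simp only [smul_zero, smul_smul, inv_mul_cancel₀ h5, one_smul] at h6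
    exact h6.symm
  · intro v' _ hv'
    by_cases e1 : H.Adj w v'
    · by_cases e2 : H.Adj v' w'
      · by_cases e3 : p1 w = p1 v'
        · rw [RR_factor Y1 p1 hF w v' e3, sub_self, zero_mul, zero_smul]
        · by_cases e4 : p2 w' = p2 v'
          · rw [RR_factor Y2 p2 hK w' v' e4, sub_self, mul_zero, zero_smul]
          · exfalso
            apply hv'
            have e5 : p2 w = p2 v' := (hs.adj_or e1).resolve_left e3
            have e6 : p1 v' = p1 w' := by
              rcases hs.adj_or e2 with e | e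
              · exact e
              · exact absurd e.symm e4
            exact hs.inj _ _ (e6.trans h4.symm) (e5.symm.trans h2)
      · have e3 : u b v' * u a w' = 0 := h.adj b a v' w' fun h' => e2 (h'.1 hab.symm)
        rw [mul_assoc, e3, mul_zero, smul_zero]
    · have e3 : u a w * u b v' = 0 := h.adj a b w v' fun h' => e1 (h'.1 hab)
      rw [e3, zero_mul, smul_zero]
  · intro hv; exact absurd (Finset.mem_univ _) hv

theorem good_symm (h : QIso G H u) (hs : Split H Y1 Y2 p1 p2) {a b : V} (hab : G.Adj a b)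
    (hgood : Good H p1 p2 u a b) : Good H p1 p2 u b a := by
  apply good_of h hs hab.symm
  intro F hF K hK
  have h1 := good_imp h hs hab hgood (F := F) (K := K) (RR_factor Y1 p1 hF) (RR_factor Y2 p2 hK)
  rw [← h1, ← neg_sub (al u F a) (al u F b), ← neg_sub (al u K a) (al u K b), neg_mul_neg]

theorem good_swap (h : QIso G H u) {a b : V}
    (hgood : Good H p1 p2 u a b) : Good H p2 p1 u a b := by
  intro w v w' h1 h2 h3 h4
  have h5 := hgood w' v w h3.symm h4.symm h1.symm h2.symm
  have h6 := congrArg star h5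
  rw [star_mul, star_mul, h.star_eq, h.star_eq, h.star_eq, star_zero, ← mul_assoc] at h6
  exact h6

theorem good_loc (h : QIso G H u) (hs : Split H Y1 Y2 p1 p2) {a b c : V}
    (hab : G.Adj a b) (hac : G.Adj a c) (hbc : b ≠ c) (hn : ¬ ∃ d, Diag G b c a d) :
    Good H p1 p2 u a b := by
  classical
  let M : V → V → ℝ := fun b c => if (b ≠ c ∧ ¬ (¬ G.Adj b c ∧ cn G b c = 2)) then (1:ℝ) else 0
  let N : W → W → ℝ := fun b c => if (b ≠ c ∧ ¬ (¬ H.Adj b c ∧ cn H b c = 2)) then (1:ℝ) else 0
  have hM0 : ∀ x y, 0 ≤ M x y := fun x y => by simp only [M]; split_ifs <;> norm_num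
  have hMsymm : ∀ x y, M x y = M y x := by
    intro x y
    simp only [M]
    exact if_congr (by rw [cn_symm G x y, G.adj_comm x y, ne_comm]) rfl rfl
  have hNsymm : ∀ x y, N x y = N y x := by
    intro x y
    simp only [N]
    exact if_congr (by rw [cn_symm H x y, H.adj_comm x y, ne_comm]) rfl rfl
  have hNdiag : ∀ {x y w r : W}, Diag H x y w r → N x y = 0 := by
    intro x y w r hd
    have h1 := diag_iff.1 ⟨w, r, hd⟩
    simp only [N]
    rw [if_neg]
    rintro ⟨-, h2⟩
    exact h2 ⟨h1.2.1, h1.2.2⟩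
  have hP : QIso.Pres u M N := by
    intro a b w v hne
    by_contra hX
    apply hne
    have e1 : a = b ↔ w = v := by by_contra h'; exact hX (h.pres_eq h')
    have e2 : G.Adj a b ↔ H.Adj w v := by by_contra h'; exact hX (h.adj a b w v h')
    have e3 : cn G a b = cn H w v := by by_contra h'; exact hX (h.pres_cn h')
    simp only [M, N, e1, e2, e3, ne_eq]
  have hAM := QIso.Pres.mul h h.pres_adj hP
  have hMbc : M c b = 1 := by
    simp only [M]
    rw [if_pos]
    refine ⟨hbc.symm, ?_⟩
    rintro ⟨h1, h2⟩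
    apply hn
    obtain ⟨a', d', hd⟩ := diag_iff.2 ⟨hbc, fun h' => h1 h'.symm, by rw [cn_symm]; exact h2⟩
    rcases (hd.2.2.2 a).1 ⟨hab.symm, hac.symm⟩ with rfl | rfl
    · exact ⟨d', hd⟩
    · exact ⟨a', hd.symm'⟩
  intro w v w' hwv h2 hvw' h1
  by_cases hX : u a w * u b v = 0
  · rw [hX, zero_mul]
  have hk : (∑ c, (if G.Adj a c then (1 : ℝ) else 0) * M c b) =
      ∑ x, (if H.Adj w x then (1 : ℝ) else 0) * N x v := by
    by_contra h'
    exact hX (hAM a b w v h')
  have hk1 : (1 : ℝ) ≤ ∑ c, (if G.Adj a c then (1 : ℝ) else 0) * M c b := by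
    have h3 := Finset.single_le_sum (s := Finset.univ)
      (f := fun c => (if G.Adj a c then (1 : ℝ) else 0) * M c b)
      (fun i _ => mul_nonneg (by split_ifs <;> norm_num) (hM0 i b)) (Finset.mem_univ c)
    simp only [if_pos hac, hMbc, mul_one] at h3
    exact h3
  obtain ⟨v', -, hv'⟩ : ∃ x ∈ Finset.univ, (if H.Adj w x then (1 : ℝ) else 0) * N x v ≠ 0 := by
    apply Finset.exists_ne_zero_of_sum_ne_zero
    rw [← hk]
    intro h'
    rw [h'] at hk1
    norm_num at hk1
  have hwv' : H.Adj w v' := by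
    by_contra h'
    exact hv' (by rw [if_neg h', zero_mul])
  have hNv : N v' v ≠ 0 := fun h' => hv' (by rw [h', mul_zero])
  have hNv1 : N v v' = 1 := by
    have h3 : N v v' ≠ 0 := by rw [hNsymm]; exact hNv
    simp only [N] at h3 ⊢
    by_contra h4
    apply h3
    rw [if_neg]
    intro h5
    exact h4 (if_pos h5)
  have hvv' : v' ≠ v := by
    rintro rfl
    apply hNv
    simp [N]
  have hp2 : p2 w = p2 v' := by
    rcases hs.adj_cases hwv' with h3 | h3
    · exact h3.1
    · exfalso
      obtain ⟨r, hr⟩ := hs.corner_diag hwv hwv' h2 h3.1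
      exact hNv (by rw [hNsymm]; exact hNdiag hr)
  have hvw'ne : v ≠ w' := hvw'.ne
  have hp2' : p2 v ≠ p2 w' := fun h' => hvw'ne (hs.inj _ _ h1 h')
  have hp1w : p1 w ≠ p1 w' := fun h' => hwv.ne (hs.inj _ _ (h'.trans h1.symm) h2)
  have hp2w : p2 w ≠ p2 w' := fun h' => hp2' (h2.symm.trans h')
  have hrel := (h.pres_iff M N).1 hP b v'
  have hL : u a w * (∑ c, M b c • u c v') * u a w' = 0 := by
    rw [Finset.mul_sum, Finset.sum_mul]
    refine Finset.sum_eq_zero fun e _ => ?_
    rw [mul_smul_comm, smul_mul_assoc]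
    have : u a w * u e v' * u a w' = 0 := by
      by_contra h'
      have h3 : u a w * u e v' ≠ 0 := fun h'' => h' (by rw [h'', zero_mul])
      have h4 : u e v' * u a w' ≠ 0 := fun h'' => h' (by rw [mul_assoc, h'', mul_zero])
      have h5 : G.Adj a e := by
        by_contra h6
        exact h3 (h.adj a e w v' fun h7 => h6 (h7.2 hwv'))
      have h6 : H.Adj v' w' := by
        by_contra h7
        exact h4 (h.adj e a v' w' fun h8 => h7 (h8.1 h5.symm))
      rcases hs.adj_or h6 with h7 | h7
      · exact hvv' (hs.inj _ _ (h7.trans h1.symm) (hp2.symm.trans h2))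
      · exact hp2w (hp2.trans h7)
    rw [this, smul_zero]
  have hR : u a w * (∑ y, N y v' • u b y) * u a w' = u a w * u b v * u a w' := by
    rw [Finset.mul_sum, Finset.sum_mul, Finset.sum_eq_single v]
    · rw [hNv1, one_smul]
    · intro y _ hy
      rw [mul_smul_comm, smul_mul_assoc]
      by_contra h'
      have h0 : N y v' ≠ 0 := fun h'' => h' (by rw [h'', zero_smul])
      have h00 : u a w * u b y * u a w' ≠ 0 := fun h'' => h' (by rw [h'', smul_zero])
      have h3 : u a w * u b y ≠ 0 := fun h'' => h00 (by rw [h'', zero_mul])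
      have h4 : u b y * u a w' ≠ 0 := fun h'' => h00 (by rw [mul_assoc, h'', mul_zero])
      have h5 : H.Adj w y := by
        by_contra h6
        exact h3 (h.adj a b w y fun h7 => h6 (h7.1 hab))
      have h6 : H.Adj y w' := by
        by_contra h7
        exact h4 (h.adj b a y w' fun h8 => h7 (h8.1 hab.symm))
      rcases hs.common_nbr hp1w hp2w h5 h6.symm with ⟨h7, h8⟩ | ⟨h7, h8⟩
      · obtain ⟨r, hr⟩ := hs.corner_diag hwv' h5 hp2 h7.symm
        exact h0 (by rw [hNsymm]; exact hNdiag hr)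
      · exact hy (hs.inj _ _ (h7.trans h1.symm) (h8.trans h2))
    · intro h'; exact absurd (Finset.mem_univ _) h'
  rw [← hR, ← hrel, hL]

theorem sq3_h1 (h : QIso G H u) (hs : Split H Y1 Y2 p1 p2) {a b : V} (hab : G.Adj a b)
    {F K : W → ℝ} (hF : F ∈ RR Y1 p1) (hK : K ∈ RR Y2 p2) :
    (al u F a - al u F b) * (al u K a - al u K b) +
      (al u K a - al u K b) * (al u F a - al u F b) = 0 := by
  have hFK : ∀ w v, H.Adj w v → F w = F v ∨ K w = K v := by
    intro w v hwv
    rcases hs.adj_or hwv with h1 | h1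
    · exact Or.inl (RR_factor Y1 p1 hF w v h1)
    · exact Or.inr (RR_factor Y2 p2 hK w v h1)
  have e1 := h.L2 hFK hab
  have e2 := h.L2 hFK hab.symm
  linear_combination (norm := noncomm_ring) e1 + e2

theorem sq3_h3 (h : QIso G H u) (hs : Split H Y1 Y2 p1 p2) {a b c d : V} (hd1 : Diag G b c a d)
    (hd2 : Diag G a d b c) {F K : W → ℝ} (hF : F ∈ RR Y1 p1) (hK : K ∈ RR Y2 p2) :
    ((al u F a - al u F b) - (al u F c - al u F d)) * (al u K a - al u K b) =
      - ((al u K c - al u K d) * ((al u F a - al u F b) - (al u F c - al u F d))) := by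
  have hFK : ∀ t v w r, Diag H t v w r → K t ≠ K v → F w + F r = F t + F v := by
    intro t v w r hd hne
    exact hs.diag_sum (RR_factor Y1 p1 hF) (RR_factor Y2 p2 hK) hd hne
  have e1 := h.T1 hFK hd1
  have e2 := h.T1 hFK hd2
  linear_combination (norm := noncomm_ring) - e2 - e1

theorem sq3_h4 (h : QIso G H u) (hs : Split H Y1 Y2 p1 p2) {a b c d : V} (hd1 : Diag G b c a d)
    (hd2 : Diag G a d b c) {F K : W → ℝ} (hF : F ∈ RR Y1 p1) (hK : K ∈ RR Y2 p2) :
    ((al u F a - al u F b) - (al u F c - al u F d)) * (al u K c - al u K d) =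
      - ((al u K a - al u K b) * ((al u F a - al u F b) - (al u F c - al u F d))) := by
  have hFK : ∀ t v w r, Diag H t v w r → K t ≠ K v → F w + F r = F t + F v := by
    intro t v w r hd hne
    exact hs.diag_sum (RR_factor Y1 p1 hF) (RR_factor Y2 p2 hK) hd hne
  have e1 := h.T1 hFK hd1.symm
  have e2 := h.T1 hFK hd2.symm
  linear_combination (norm := noncomm_ring) e2 + e1

theorem sq3_h7 (h : QIso G H u) (hG : G.Connected) (hs : Split H Y1 Y2 p1 p2) (a b c d : V)
    {F K : W → ℝ} (hF : F ∈ RR Y1 p1) (hK : K ∈ RR Y2 p2) :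
    (al u F a - al u F b) * (al u K c - al u K d) - (al u K c - al u K d) * (al u F a - al u F b) =
      (al u F c - al u F d) * (al u K a - al u K b) -
      (al u K a - al u K b) * (al u F c - al u F d) := by
  have hc := CC_RR h hG hs hF hK
  have e1 := hc a c
  have e2 := hc a d
  have e3 := hc b c
  have e4 := hc b d
  linear_combination (norm := noncomm_ring) e1 - e2 - e3 + e4

theorem sq3_main (h : QIso G H u) (hG : G.Connected) (hs : Split H Y1 Y2 p1 p2)
    (hB : ∀ x : B, star x * x = 0 → x = 0) {a b c d : V} (hd1 : Diag G b c a d)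
    (hd2 : Diag G a d b c) {F K : W → ℝ} (hF : F ∈ RR Y1 p1) (hK : K ∈ RR Y2 p2) :
    ((al u F a - al u F b) * (al u F c - al u F d) + (al u F c - al u F d) *
      (al u F a - al u F b)) * ((al u K a - al u K b) - (al u K c - al u K d)) = 0 := by
  apply square_algebra hB
  · rw [star_sub, h.star_al, h.star_al]
  · rw [star_sub, h.star_al, h.star_al]
  · rw [star_sub, h.star_al, h.star_al]
  · rw [star_sub, h.star_al, h.star_al]
  · exact sq3_h1 h hs hd1.adj1.symm hF hK
  · exact sq3_h1 h hs hd1.adj4 hF hK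
  · exact sq3_h3 h hs hd1 hd2 hF hK
  · exact sq3_h4 h hs hd1 hd2 hF hK
  · exact sq3_h3 h hs.symm hd1 hd2 hK hF
  · exact sq3_h4 h hs.symm hd1 hd2 hK hF
  · exact sq3_h7 h hG hs a b c d hF hK

theorem sq3_dist (h : QIso G H u) (hG : G.Connected) (hs : Split H Y1 Y2 p1 p2) (x y : V) :
    ∑ w, ∑ w', (H.dist w w' : ℝ) • (u x w * u y w') = (G.dist x y : ℝ) • (1 : B) := by
  have h1 : ∀ w w', (H.dist w w' : ℝ) • (u x w * u y w') = (G.dist x y : ℝ) • (u x w * u y w') := by
    intro w w'
    by_cases hne : G.dist x y = H.dist w w'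
    · rw [hne]
    · rw [h.dist_rel hG hs.conn hne]
      simp
  simp only [h1, ← Finset.smul_sum, ← Finset.mul_sum, ← Finset.sum_mul, h.rowSum, mul_one]

theorem sq3_two (hG : G.Connected) {a b c d : V} (hd : Diag G b c a d) : G.dist b c = 2 := by
  have h1 : G.dist b c ≤ 2 :=
    SimpleGraph.dist_le (SimpleGraph.Walk.cons hd.adj1 (SimpleGraph.Walk.cons hd.adj2.symm
      SimpleGraph.Walk.nil))
  have h2 : G.dist b c ≠ 0 := by
    intro h0
    exact hd.1 ((hG.dist_eq_zero_iff).1 h0)
  have h3 : G.dist b c ≠ 1 := by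
    intro h0
    exact hd.2.1 (SimpleGraph.dist_eq_one_iff_adj.1 h0)
  omega

theorem sq3_ker (h : QIso G H u) (hs : Split H Y1 Y2 p1 p2) [DecidableEq W]
    (Ψ : (W → ℝ) →ₗ[ℝ] (W → ℝ) →ₗ[ℝ] B)
    (hΨ : ∀ f ∈ RR Y1 p1, ∀ g ∈ RR Y1 p1, Ψ f g = 0)
    (h1 : ∀ f, Ψ f (fun _ => 1) = 0) (h2 : ∀ f, Ψ (fun _ => 1) f = 0) :
    ∑ w, ∑ w', (Y1.dist (p1 w) (p1 w') : ℝ) • Ψ (Pi.single w 1) (Pi.single w' 1) = 0 := by
  obtain ⟨w0⟩ := hs.conn.nonempty
  set o := p1 w0 with ho
  have hone : (∑ w, (Pi.single w (1 : ℝ) : W → ℝ)) = fun _ => 1 := by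
    funext x
    simp [Finset.sum_apply, Pi.single_apply]
  have hl : ∀ f, ∑ w', Ψ f (Pi.single w' 1) = 0 := by
    intro f
    rw [← map_sum, hone, h1]
  have hr : ∀ f, ∑ w, Ψ (Pi.single w 1) f = 0 := by
    intro f
    rw [← LinearMap.sum_apply, ← map_sum, hone, h2]
  have key := kernel_lemma
    (fun w w' => (Y1.dist (p1 w) (p1 w') : ℝ) - (Y1.dist (p1 w) o : ℝ) - (Y1.dist (p1 w') o : ℝ))
    (by intro x y; simp only [Y1.dist_comm (u := p1 x) (v := p1 y)]; ring)
    (RR Y1 p1)
    (by
      intro y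
      have e1 : (fun w => (Y1.dist (p1 w) (p1 y) : ℝ) - (Y1.dist (p1 w) o : ℝ)) ∈ RR Y1 p1 :=
        Submodule.subset_span (Or.inr ⟨(p1 y, o), rfl⟩)
      have e2 : (fun _ => (1 : ℝ)) ∈ RR Y1 p1 := Submodule.subset_span (Or.inl rfl)
      have e3 := Submodule.sub_mem _ e1 (Submodule.smul_mem _ (Y1.dist (p1 y) o : ℝ) e2)
      convert e3 using 1
      funext w
      simp)
    Ψ hΨ
  simp only [sub_smul, Finset.sum_sub_distrib] at key
  have e1 : ∑ x, ∑ y, (Y1.dist (p1 x) o : ℝ) • Ψ (Pi.single x 1) (Pi.single y 1) = 0 := by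
    refine Finset.sum_eq_zero fun x _ => ?_
    rw [← Finset.smul_sum, hl, smul_zero]
  have e2 : ∑ x, ∑ y, (Y1.dist (p1 y) o : ℝ) • Ψ (Pi.single x 1) (Pi.single y 1) = 0 := by
    rw [Finset.sum_comm]
    refine Finset.sum_eq_zero fun y _ => ?_
    rw [← Finset.smul_sum, hr, smul_zero]
  rw [e1, e2, sub_zero, sub_zero] at key
  exact key

theorem square_zero (h : QIso G H u) (hG : G.Connected) (hs : Split H Y1 Y2 p1 p2)
    (hB : ∀ x : B, star x * x = 0 → x = 0) {a b c d : V} (hd1 : Diag G b c a d)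
    (hd2 : Diag G a d b c) {F K : W → ℝ} (hF : F ∈ RR Y1 p1) (hK : K ∈ RR Y2 p2) :
    (al u F a - al u F b - al u F c + al u F d) *
      (al u K a - al u K b - al u K c + al u K d) = 0 := by
  classical
  set Z : B := (al u F a - al u F b - al u F c + al u F d) *
      (al u K a - al u K b - al u K c + al u K d) with hZ
  have eZ1 : Z = ((al u F a - al u F b) - (al u F c - al u F d)) *
      ((al u K a - al u K b) - (al u K c - al u K d)) := by
    rw [hZ]; noncomm_ring
  have eZ2 : Z = ((al u K a - al u K b) - (al u K c - al u K d)) *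
      ((al u F a - al u F b) - (al u F c - al u F d)) := by
    rw [eZ1]
    have e3 := sq3_h3 h hs hd1 hd2 hF hK
    have e4 := sq3_h4 h hs hd1 hd2 hF hK
    linear_combination (norm := noncomm_ring) e3 - e4
  let D1 : (W → ℝ) →ₗ[ℝ] B := alL u a - alL u b
  let D2 : (W → ℝ) →ₗ[ℝ] B := alL u c - alL u d
  have hD1 : ∀ f, D1 f = al u f a - al u f b := fun f => rfl
  have hD2 : ∀ f, D2 f = al u f c - al u f d := fun f => rfl
  let Ψ : (W → ℝ) →ₗ[ℝ] (W → ℝ) →ₗ[ℝ] B := LinearMap.mk₂ ℝ
    (fun f g => (D1 f * D2 g + D2 g * D1 f + D1 g * D2 f + D2 f * D1 g) * Z)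
    (by intro f f' g; simp only [map_add]; noncomm_ring)
    (by intro r f g; simp only [map_smul, smul_mul_assoc, mul_smul_comm, ← smul_add])
    (by intro f g g'; simp only [map_add]; noncomm_ring)
    (by intro r f g; simp only [map_smul, smul_mul_assoc, mul_smul_comm, ← smul_add])
  have hΨ : ∀ f g, Ψ f g = (D1 f * D2 g + D2 g * D1 f + D1 g * D2 f + D2 f * D1 g) * Z :=
    fun f g => rfl
  have sq1 : ∀ f ∈ RR Y1 p1, (D1 f * D2 f + D2 f * D1 f) * Z = 0 := by
    intro f hf
    rw [eZ2, ← mul_assoc, hD1, hD2, sq3_main h hG hs hB hd1 hd2 hf hK, zero_mul]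
  have sq2 : ∀ f ∈ RR Y2 p2, (D1 f * D2 f + D2 f * D1 f) * Z = 0 := by
    intro f hf
    rw [eZ1, ← mul_assoc, hD1, hD2, sq3_main h hG hs.symm hB hd1 hd2 hf hF, zero_mul]
  have pol : ∀ R : Submodule ℝ (W → ℝ), (∀ f ∈ R, (D1 f * D2 f + D2 f * D1 f) * Z = 0) →
      ∀ f ∈ R, ∀ g ∈ R, Ψ f g = 0 := by
    intro R hR f hf g hg
    have e1 := hR f hf
    have e2 := hR g hg
    have e3 := hR (f + g) (R.add_mem hf hg)
    rw [hΨ]
    simp only [map_add] at e3
    linear_combination (norm := noncomm_ring) e3 - e1 - e2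
  have D1one : D1 (fun _ => (1 : ℝ)) = 0 := by rw [hD1, h.al_one, h.al_one, sub_self]
  have D2one : D2 (fun _ => (1 : ℝ)) = 0 := by rw [hD2, h.al_one, h.al_one, sub_self]
  have one1 : ∀ f, Ψ f (fun _ => 1) = 0 := by
    intro f; rw [hΨ, D1one, D2one]; simp
  have one2 : ∀ f, Ψ (fun _ => 1) f = 0 := by
    intro f; rw [hΨ, D1one, D2one]; simp
  have k1 := sq3_ker h hs Ψ (pol _ sq1) one1 one2
  have k2 := sq3_ker h hs.symm Ψ (pol _ sq2) one1 one2
  have k3 : ∑ w, ∑ w', (H.dist w w' : ℝ) • Ψ (Pi.single w 1) (Pi.single w' 1) = 0 := by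
    have : ∀ w w', (H.dist w w' : ℝ) • Ψ (Pi.single w 1) (Pi.single w' 1) =
        (Y1.dist (p1 w) (p1 w') : ℝ) • Ψ (Pi.single w 1) (Pi.single w' 1) +
        (Y2.dist (p2 w) (p2 w') : ℝ) • Ψ (Pi.single w 1) (Pi.single w' 1) := by
      intro w w'
      rw [← add_smul, hs.dist]
      push_cast
      rfl
    simp only [this, Finset.sum_add_distrib, k1, k2, add_zero]
  have k4 : ∑ w, ∑ w', (H.dist w w' : ℝ) • Ψ (Pi.single w 1) (Pi.single w' 1) =
      ((4 * ((G.dist a c : ℝ) - G.dist a d - G.dist b c + G.dist b d)) • (1 : B)) * Z := by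
    have e1 : ∀ w w', (H.dist w w' : ℝ) • Ψ (Pi.single w 1) (Pi.single w' 1) =
        ((H.dist w w' : ℝ) • (u a w * u c w') - (H.dist w w' : ℝ) • (u a w * u d w')
        - (H.dist w w' : ℝ) • (u b w * u c w') + (H.dist w w' : ℝ) • (u b w * u d w')
        + ((H.dist w' w : ℝ) • (u c w' * u a w) - (H.dist w' w : ℝ) • (u d w' * u a w)
        - (H.dist w' w : ℝ) • (u c w' * u b w) + (H.dist w' w : ℝ) • (u d w' * u b w))
        + ((H.dist w' w : ℝ) • (u a w' * u c w) - (H.dist w' w : ℝ) • (u a w' * u d w)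
        - (H.dist w' w : ℝ) • (u b w' * u c w) + (H.dist w' w : ℝ) • (u b w' * u d w))
        + ((H.dist w w' : ℝ) • (u c w * u a w') - (H.dist w w' : ℝ) • (u d w * u a w')
        - (H.dist w w' : ℝ) • (u c w * u b w') + (H.dist w w' : ℝ) • (u d w * u b w'))) * Z := by
      intro w w'
      rw [hΨ, hD1, hD1, hD2, hD2]
      simp only [al_single]
      rw [← smul_mul_assoc]
      congr 1
      rw [H.dist_comm (u := w') (v := w)]
      simp only [← smul_sub, ← smul_add]
      congr 1
      noncomm_ring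
    simp only [e1, ← Finset.sum_mul]
    congr 1
    simp only [Finset.sum_add_distrib, Finset.sum_sub_distrib]
    rw [Finset.sum_comm (f := fun w w' => (H.dist w' w : ℝ) • (u c w' * u a w)),
      Finset.sum_comm (f := fun w w' => (H.dist w' w : ℝ) • (u d w' * u a w)),
      Finset.sum_comm (f := fun w w' => (H.dist w' w : ℝ) • (u c w' * u b w)),
      Finset.sum_comm (f := fun w w' => (H.dist w' w : ℝ) • (u d w' * u b w)),
      Finset.sum_comm (f := fun w w' => (H.dist w' w : ℝ) • (u a w' * u c w)),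
      Finset.sum_comm (f := fun w w' => (H.dist w' w : ℝ) • (u a w' * u d w)),
      Finset.sum_comm (f := fun w w' => (H.dist w' w : ℝ) • (u b w' * u c w)),
      Finset.sum_comm (f := fun w w' => (H.dist w' w : ℝ) • (u b w' * u d w))]
    simp only [sq3_dist h hG hs]
    rw [G.dist_comm (u := c) (v := a), G.dist_comm (u := c) (v := b), G.dist_comm (u := d) (v := a),
      G.dist_comm (u := d) (v := b)]
    simp only [← sub_smul, ← add_smul]
    congr 1
    ring
  rw [k3] at k4
  have d1 : G.dist a c = 1 := SimpleGraph.dist_eq_one_iff_adj.2 hd1.adj2.symm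
  have d2 : G.dist b d = 1 := SimpleGraph.dist_eq_one_iff_adj.2 hd1.adj3
  have d3 : G.dist a d = 2 := sq3_two hG hd2
  have d4 : G.dist b c = 2 := sq3_two hG hd1
  rw [d1, d2, d3, d4, smul_mul_assoc, one_mul] at k4
  have k5 : (-8 : ℝ) • Z = 0 := by
    rw [k4]; congr 1; norm_num
  have k6 := congrArg (fun x => (-8 : ℝ)⁻¹ • x) k5
  simpa [smul_smul] using k6

theorem square_zero' (h : QIso G H u) (hG : G.Connected) (hs : Split H Y1 Y2 p1 p2)
    (hB : ∀ x : B, star x * x = 0 → x = 0) {a b c d : V} (hd1 : Diag G b c a d)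
    (hd2 : Diag G a d b c) {F K : W → ℝ} (hF : F ∈ RR Y1 p1) (hK : K ∈ RR Y2 p2) :
    (al u F a - al u F b) * (al u K a - al u K b - al u K c + al u K d) = 0 ∧
    (al u F c - al u F d) * (al u K a - al u K b - al u K c + al u K d) = 0 := by
  have e0 := square_zero h hG hs hB hd1 hd2 hF hK
  have e1 : al u K a - al u K b - al u K c + al u K d =
    (al u K a - al u K b) - (al u K c - al u K d) := by abel
  have e2 : al u F a - al u F b - al u F c + al u F d =
    (al u F a - al u F b) - (al u F c - al u F d) := by abel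
  rw [e1, e2] at e0
  rw [e1]
  apply square_algebra_zero hB _ _ _ _ _ _ _ _ _ _ _ _ _ _ _ e0
  · rw [star_sub, h.star_al, h.star_al]
  · rw [star_sub, h.star_al, h.star_al]
  · rw [star_sub, h.star_al, h.star_al]
  · rw [star_sub, h.star_al, h.star_al]
  · exact sq3_h1 h hs hd1.adj1.symm hF hK
  · exact sq3_h1 h hs hd1.adj4 hF hK
  · exact sq3_h3 h hs hd1 hd2 hF hK
  · exact sq3_h4 h hs hd1 hd2 hF hK
  · exact sq3_h3 h hs.symm hd1 hd2 hK hF
  · exact sq3_h4 h hs.symm hd1 hd2 hK hF
  · exact sq3_h7 h hG hs a b c d hF hK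


theorem lambda_zero (h : QIso G H u) (hG : G.Connected) (hs : Split H Y1 Y2 p1 p2)
    {a b c d z : V} (hd1 : Diag G b c a d) (hd2 : Diag G a d b c)
    (hz : (G.dist a z : ℤ) - G.dist b z - G.dist c z + G.dist d z ≠ 0)
    {Y : B} (hY1 : ∀ F ∈ RR Y1 p1, Y * (al u F a - al u F b - al u F c + al u F d) = 0)
    (hY2 : ∀ K ∈ RR Y2 p2, Y * (al u K a - al u K b - al u K c + al u K d) = 0) : Y = 0 := by
  classical
  obtain ⟨D, hD⟩ : ∃ D : W → W → ℝ, D = fun o w => (H.dist w o : ℝ) := ⟨_, rfl⟩
  obtain ⟨lam, hlam⟩ : ∃ lam : V → ℝ,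
      lam = fun x => (G.dist a x : ℝ) - G.dist b x - G.dist c x + G.dist d x := ⟨_, rfl⟩
  have hΔ : ∀ o, al u (D o) a - al u (D o) b - al u (D o) c + al u (D o) d
      = ∑ x, lam x • u x o := by
    intro o
    have e : ∀ a : V, al u (D o) a = ∑ c, (G.dist a c : ℝ) • u c o := fun a => by
      rw [hD]; exact h.al_dist hG hs.conn o a
    rw [e, e, e, e, ← Finset.sum_sub_distrib, ← Finset.sum_sub_distrib, ← Finset.sum_add_distrib]
    refine Finset.sum_congr rfl fun x _ => ?_
    rw [hlam]
    simp only [sub_smul, add_smul]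
  have hmul : ∀ o e, (∑ x, lam x • u x o) * u e o = lam e • u e o := by
    intro o e
    rw [Finset.sum_mul, Finset.sum_eq_single e]
    · rw [smul_mul_assoc, h.idem]
    · intro x _ hx
      rw [smul_mul_assoc, h.colOrth x e o hx, smul_zero]
    · intro he; exact absurd (Finset.mem_univ _) he
  have hT : ∀ o o', Y * (∑ x, lam x • u x o) = Y * (∑ x, lam x • u x o') := by
    intro o o'
    rw [← hΔ, ← hΔ]
    obtain ⟨F, hF⟩ : ∃ F : W → ℝ,
        F = fun w => (Y1.dist (p1 w) (p1 o) : ℝ) - (Y1.dist (p1 w) (p1 o') : ℝ) := ⟨_, rfl⟩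
    obtain ⟨K, hK⟩ : ∃ K : W → ℝ,
        K = fun w => (Y2.dist (p2 w) (p2 o) : ℝ) - (Y2.dist (p2 w) (p2 o') : ℝ) := ⟨_, rfl⟩
    have hFm : F ∈ RR Y1 p1 := by
      rw [hF]; exact Submodule.subset_span (Or.inr ⟨(p1 o, p1 o'), rfl⟩)
    have hKm : K ∈ RR Y2 p2 := by
      rw [hK]; exact Submodule.subset_span (Or.inr ⟨(p2 o, p2 o'), rfl⟩)
    have hDo : D o = D o' + F + K := by
      funext w
      rw [hD, hF, hK]
      simp only [Pi.add_apply, hs.dist]
      push_cast
      ring
    have e : ∀ x, al u (D o) x = al u (D o') x + al u F x + al u K x := fun x => by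
      rw [hDo, al_add, al_add]
    rw [e, e, e, e]
    have h1 := hY1 F hFm
    have h2 := hY2 K hKm
    linear_combination (norm := noncomm_ring) h1 + h2
  have hba : G.dist b a = 1 := SimpleGraph.dist_eq_one_iff_adj.2 hd1.adj1
  have hca : G.dist c a = 1 := SimpleGraph.dist_eq_one_iff_adj.2 hd1.adj2
  have hda : G.dist d a = 2 := by
    have h1 : G.dist d a ≤ 2 := by
      have := SimpleGraph.dist_le (SimpleGraph.Walk.cons hd1.adj3.symm
        (SimpleGraph.Walk.cons hd1.adj1 SimpleGraph.Walk.nil))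
      simpa using this
    have h2 : G.dist d a ≠ 0 := by
      intro h0
      exact hd2.1 (hG.dist_eq_zero_iff.1 h0).symm
    have h3 : G.dist d a ≠ 1 := by
      intro h0
      exact hd2.2.1 (SimpleGraph.dist_eq_one_iff_adj.1 h0).symm
    omega
  have hla : lam a = 0 := by
    rw [hlam]
    simp only [SimpleGraph.dist_self, hba, hca, hda]
    norm_num
  obtain ⟨o0⟩ := hs.conn.nonempty
  have hT0 : Y * (∑ x, lam x • u x o0) = 0 := by
    apply h.eq_zero_right a
    intro w
    rw [hT o0 w, mul_assoc, hmul, hla, zero_smul, mul_zero]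
  have hlz : lam z ≠ 0 := by
    intro h0
    apply hz
    rw [hlam] at h0
    have h1 : (((G.dist a z : ℤ) - G.dist b z - G.dist c z + G.dist d z : ℤ) : ℝ) = 0 := by
      push_cast
      exact h0
    exact_mod_cast h1
  apply h.eq_zero_right z
  intro w
  have h1 : Y * (∑ x, lam x • u x w) * u z w = 0 := by rw [hT w o0, hT0, zero_mul]
  rw [mul_assoc, hmul, mul_smul_comm] at h1
  have h2 := congrArg (fun x => (lam z)⁻¹ • x) h1
  simpa [smul_smul, inv_mul_cancel₀ hlz] using h2

/-- in a square with `λ ≠ 0` -/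
theorem lambda_good (h : QIso G H u) (hG : G.Connected) (hs : Split H Y1 Y2 p1 p2)
    (hB : ∀ x : B, star x * x = 0 → x = 0)
    {a b c d z : V} (hd1 : Diag G b c a d) (hd2 : Diag G a d b c)
    (hz : (G.dist a z : ℤ) - G.dist b z - G.dist c z + G.dist d z ≠ 0) :
    Good H p1 p2 u a b ∧
    ∀ F ∈ RR Y1 p1, ∀ K ∈ RR Y2 p2, (al u F a - al u F b) * (al u K a - al u K c) = 0 := by
  have hFK : ∀ F ∈ RR Y1 p1, ∀ K ∈ RR Y2 p2, ∀ w v, H.Adj w v → F w = F v ∨ K w = K v := by
    intro F hF K hK w v hwv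
    rcases hs.adj_or hwv with h1 | h1
    · exact Or.inl (RR_factor Y1 p1 hF _ _ h1)
    · exact Or.inr (RR_factor Y2 p2 hK _ _ h1)
  constructor
  · apply good_of h hs hd1.adj1.symm
    intro F hF K hK
    apply lambda_zero h hG hs hd1 hd2 hz
    · intro F' hF'
      have h1 := (square_zero' h hG hs.symm hB hd1 hd2 hK hF').1
      rw [mul_assoc, h1, mul_zero]
    · intro K' hK'
      have h1 := (square_zero' h hG hs hB hd1 hd2 hF hK').1
      have h2 := h.L2 (hFK F hF K hK) hd1.adj1.symm
      have h3 := h.L2 (hFK F hF K hK) hd1.adj1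
      have h4 : (al u F a - al u F b) * (al u K a - al u K b)
          = -((al u K a - al u K b) * (al u F a - al u F b)) := by
        linear_combination (norm := noncomm_ring) h2 + h3
      rw [h4, neg_mul, mul_assoc, h1, mul_zero, neg_zero]
  · intro F hF K hK
    apply lambda_zero h hG hs hd1 hd2 hz
    · intro F' hF'
      have h1 := (square_zero' h hG hs.symm hB hd1.symm hd2.symm' hK hF').1
      have h2 : al u F' a - al u F' b - al u F' c + al u F' d
          = al u F' a - al u F' c - al u F' b + al u F' d := by abel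
      rw [mul_assoc, h2, h1, mul_zero]
    · intro K' hK'
      have h1 := (square_zero' h hG hs hB hd1 hd2 hF hK').2
      have h2 := h.L2 (hFK F hF K hK) hd1.adj1.symm
      have h3 := h.L2 (hFK F hF K hK) hd1.adj4
      have h4 := h.T1 (F := F) (K := K) (fun t v w r hd hne =>
        hs.diag_sum (fun w v => RR_factor Y1 p1 hF w v) (fun w v => RR_factor Y2 p2 hK w v) hd hne)
        hd1.symm
      have h5 : (al u F a - al u F b) * (al u K a - al u K c)
          = (al u K b - al u K d) * (al u F c - al u F d) := by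
        linear_combination (norm := noncomm_ring) h2 - h3 - h4
      rw [h5, mul_assoc, h1, mul_zero]

theorem bad_move (h : QIso G H u) (hG : G.Connected) (hs : Split H Y1 Y2 p1 p2)
    (hB : ∀ x : B, star x * x = 0 → x = 0)
    {a b c : V} (hab : G.Adj a b) (hbad : ¬ Good H p1 p2 u a b) (hac : G.Adj a c) (hcb : c ≠ b) :
    ∃ d, G.Adj b d ∧ G.Adj c d ∧ ¬ Good H p1 p2 u c d ∧
      ∀ z, (G.dist a z : ℤ) - G.dist b z = G.dist c z - G.dist d z := by
  by_cases hdex : ∃ d, Diag G b c a d
  swap
  · exact absurd (good_loc h hs hab hac hcb.symm hdex) hbad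
  obtain ⟨d, hd1⟩ := hdex
  have hbad' : ¬ Good H p1 p2 u b a := fun hg => hbad (good_symm h hs hab.symm hg)
  by_cases heex : ∃ e, Diag G a d b e
  swap
  · exact absurd (good_loc h hs hab.symm hd1.adj3 hd1.2.2.1 heex) hbad'
  obtain ⟨e, he⟩ := heex
  have hce : c = e := by
    rcases (he.2.2.2 c).1 ⟨hac, hd1.adj4.symm⟩ with h1 | h1
    · exact absurd h1 hcb
    · exact h1
  subst hce
  refine ⟨d, hd1.adj3, hd1.adj4, ?_, ?_⟩
  · intro hgood
    apply hbad
    apply good_of h hs hab
    intro F hF K hK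
    have h0 := good_imp h hs hd1.adj4 hgood (fun w v => RR_factor Y1 p1 hF w v)
      (fun w v => RR_factor Y2 p2 hK w v)
    have h1 := (square_zero' h hG hs hB hd1 he hF hK).1
    have h2 := (square_zero' h hG hs.symm hB hd1 he hK hF).2
    have h3 := congrArg star h2
    simp only [star_mul, star_sub, star_add, h.star_al, star_zero] at h3
    linear_combination (norm := noncomm_ring) h1 + h3 + h0
  · intro z
    by_contra hz
    apply hbad
    exact (lambda_good h hG hs hB hd1 he (z := z) (fun h0 => hz (by linarith))).1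

open Classical in
/-- the projection attached to the edge `a b` and the relation `D` -/
noncomputable def EE (D : W → W → Prop) (u : V → W → B) (a b : V) : B :=
  ∑ w, ∑ v, if D w v then u a w * u b v else 0

/-- direction one edges -/
def Dir1 (H : SimpleGraph W) (p2 : W → W2) (w v : W) : Prop := H.Adj w v ∧ p2 w = p2 v

open Classical in
theorem M5_left (h : QIso G H u) (D : W → W → Prop) (a b : V) (w : W) :
    u a w * EE D u a b = ∑ v, if D w v then u a w * u b v else 0 := by
  unfold EE
  rw [Finset.mul_sum, Finset.sum_eq_single w]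
  · rw [Finset.mul_sum]
    refine Finset.sum_congr rfl fun v _ => ?_
    split_ifs
    · rw [← mul_assoc, h.idem]
    · rw [mul_zero]
  · intro w' _ hw'
    rw [Finset.mul_sum]
    refine Finset.sum_eq_zero fun v _ => ?_
    split_ifs
    · rw [← mul_assoc, h.rowOrth a w w' hw'.symm, zero_mul]
    · rw [mul_zero]
  · intro hw; exact absurd (Finset.mem_univ _) hw

open Classical in
theorem M5_star (h : QIso G H u) {D : W → W → Prop} (hD : ∀ w v, D w v ↔ D v w) (a b : V) :
    star (EE D u a b) = EE D u b a := by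
  unfold EE
  rw [star_sum]
  have : ∀ w, star (∑ v, if D w v then u a w * u b v else 0) =
      ∑ v, if D v w then u b v * u a w else 0 := by
    intro w
    rw [star_sum]
    refine Finset.sum_congr rfl fun v _ => ?_
    by_cases hD' : D w v
    · rw [if_pos hD', if_pos ((hD w v).1 hD'), star_mul, h.star_eq, h.star_eq]
    · rw [if_neg hD', if_neg (fun h' => hD' ((hD w v).2 h')), star_zero]
  rw [Finset.sum_congr rfl fun w _ => this w, Finset.sum_comm]

theorem M5_dir (H : SimpleGraph W) (p2 : W → W2) (w v : W) : Dir1 H p2 w v ↔ Dir1 H p2 v w := by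
  unfold Dir1
  rw [H.adj_comm w v]
  exact and_congr_right fun _ => eq_comm

open Classical in
theorem M5_sum (h : QIso G H u) (hs : Split H Y1 Y2 p1 p2) {a b : V} (hab : G.Adj a b) :
    EE (Dir1 H p2) u a b + EE (Dir1 H p1) u a b = 1 := by
  have h1 : EE (Dir1 H p2) u a b + EE (Dir1 H p1) u a b = ∑ w, ∑ v, u a w * u b v := by
    unfold EE
    rw [← Finset.sum_add_distrib]
    refine Finset.sum_congr rfl fun w _ => ?_
    rw [← Finset.sum_add_distrib]
    refine Finset.sum_congr rfl fun v _ => ?_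
    by_cases hw : H.Adj w v
    · rcases hs.adj_cases hw with ⟨h1, h2, -⟩ | ⟨h1, h2, -⟩
      · rw [if_pos ⟨hw, h1⟩, if_neg (fun h' => h2 h'.2), add_zero]
      · rw [if_neg (fun h' => h2 h'.2), if_pos ⟨hw, h1⟩, zero_add]
    · rw [if_neg (fun h' => hw h'.1), if_neg (fun h' => hw h'.1),
        h.adj a b w v (fun h' => hw (h'.1 hab)), add_zero]
  rw [h1]
  simp only [← Finset.mul_sum]
  rw [h.rowSum b]
  simp only [mul_one]
  exact h.rowSum a

open Classical in
theorem M5_off (h : QIso G H u) (hs : Split H Y1 Y2 p1 p2) {a b : V} (hab : G.Adj a b)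
    (hgood : Good H p1 p2 u a b) {w w' : W} (hne : w ≠ w') :
    u a w * EE (Dir1 H p2) u a b * u a w' = 0 := by
  rw [M5_left h, Finset.sum_mul]
  by_cases hp : p2 w = p2 w'
  · have hp1 : p1 w ≠ p1 w' := fun h' => hne (hs.inj _ _ h' hp)
    have key : ∀ v, (if Dir1 H p2 w v then u a w * u b v else 0) * u a w' =
        u a w * u b v * u a w' := by
      intro v
      by_cases hD : Dir1 H p2 w v
      · rw [if_pos hD]
      · rw [if_neg hD, zero_mul]
        by_cases hw : H.Adj w v
        · rcases hs.adj_cases hw with ⟨h1, h2, -⟩ | ⟨h1, h2, -⟩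
          · exact absurd ⟨hw, h1⟩ hD
          · have hna : ¬ H.Adj v w' := by
              intro h3
              rcases hs.adj_or h3 with h4 | h4
              · exact hp1 (h1.trans h4)
              · exact h2 (hp.trans h4.symm)
            have : u b v * u a w' = 0 := h.adj _ _ _ _ fun h' => hna (h'.1 hab.symm)
            rw [mul_assoc, this, mul_zero]
        · rw [h.adj a b w v (fun h' => hw (h'.1 hab)), zero_mul]
    rw [Finset.sum_congr rfl fun v _ => key v, ← Finset.sum_mul, ← Finset.mul_sum, h.rowSum,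
      mul_one, h.rowOrth a w w' hne]
  · refine Finset.sum_eq_zero fun v _ => ?_
    by_cases hD : Dir1 H p2 w v
    · rw [if_pos hD]
      by_cases hv : H.Adj v w'
      · rcases hs.adj_or hv with h4 | h4
        · exact hgood w v w' hD.1 hD.2 hv h4
        · exact absurd (hD.2.trans h4) hp
      · have : u b v * u a w' = 0 := h.adj _ _ _ _ fun h' => hv (h'.1 hab.symm)
        rw [mul_assoc, this, mul_zero]
    · rw [if_neg hD, zero_mul]

theorem M5_comm_a (h : QIso G H u) (hs : Split H Y1 Y2 p1 p2) {a b : V} (hab : G.Adj a b)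
    (hgood : Good H p1 p2 u a b) (w : W) :
    EE (Dir1 H p2) u a b * u a w = u a w * EE (Dir1 H p2) u a b ∧
    u a w * EE (Dir1 H p2) u a b = u a w * EE (Dir1 H p2) u a b * u a w := by
  have h1 : u a w * EE (Dir1 H p2) u a b = u a w * EE (Dir1 H p2) u a b * u a w := by
    conv_lhs => rw [← mul_one (u a w * EE (Dir1 H p2) u a b), ← h.rowSum a, Finset.mul_sum]
    rw [Finset.sum_eq_single w]
    · intro w' _ hw'
      exact M5_off h hs hab hgood hw'.symm
    · intro hw; exact absurd (Finset.mem_univ _) hw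
  have h2 : EE (Dir1 H p2) u a b * u a w = u a w * EE (Dir1 H p2) u a b * u a w := by
    conv_lhs => rw [← one_mul (EE (Dir1 H p2) u a b * u a w), ← h.rowSum a, Finset.sum_mul]
    rw [Finset.sum_eq_single w]
    · rw [mul_assoc]
    · intro w' _ hw'
      rw [← mul_assoc]
      exact M5_off h hs hab hgood hw'
    · intro hw; exact absurd (Finset.mem_univ _) hw
  exact ⟨h2.trans h1.symm, h1⟩

open Classical in
theorem M5_star_eq (h : QIso G H u) (hs : Split H Y1 Y2 p1 p2) {a b : V} (hab : G.Adj a b)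
    (hgood : Good H p1 p2 u a b) :
    star (EE (Dir1 H p2) u a b) = EE (Dir1 H p2) u a b := by
  have h1 : EE (Dir1 H p2) u a b =
      ∑ w, ∑ v, if Dir1 H p2 w v then u a w * u b v * u a w else 0 := by
    conv_lhs => rw [← one_mul (EE (Dir1 H p2) u a b), ← h.rowSum a, Finset.sum_mul]
    refine Finset.sum_congr rfl fun w _ => ?_
    rw [(M5_comm_a h hs hab hgood w).2, M5_left h, Finset.sum_mul]
    refine Finset.sum_congr rfl fun v _ => ?_
    split_ifs
    · rfl
    · rw [zero_mul]
  rw [h1, star_sum]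
  refine Finset.sum_congr rfl fun w _ => ?_
  rw [star_sum]
  refine Finset.sum_congr rfl fun v _ => ?_
  split_ifs
  · rw [star_mul, star_mul, h.star_eq, h.star_eq, mul_assoc]
  · rw [star_zero]

theorem M5_flip (h : QIso G H u) (hs : Split H Y1 Y2 p1 p2) {a b : V} (hab : G.Adj a b)
    (hgood : Good H p1 p2 u a b) : EE (Dir1 H p2) u a b = EE (Dir1 H p2) u b a := by
  rw [← M5_star_eq h hs hab hgood, M5_star h (M5_dir H p2)]

open Classical in
theorem M5_orth (h : QIso G H u) (hs : Split H Y1 Y2 p1 p2) {a b : V} (hab : G.Adj a b)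
    (hgood : Good H p1 p2 u a b) :
    EE (Dir1 H p2) u a b * EE (Dir1 H p1) u a b = 0 := by
  rw [M5_flip h hs.symm hab (good_swap h hgood)]
  conv_lhs => rw [EE, Finset.sum_mul]
  refine Finset.sum_eq_zero fun w _ => ?_
  rw [Finset.sum_mul]
  refine Finset.sum_eq_zero fun v _ => ?_
  by_cases hD : Dir1 H p2 w v
  · rw [if_pos hD, mul_assoc, M5_left h, Finset.mul_sum]
    refine Finset.sum_eq_zero fun w' _ => ?_
    by_cases hD' : Dir1 H p1 v w'
    · rw [if_pos hD', ← mul_assoc]
      exact hgood w v w' hD.1 hD.2 hD'.1 hD'.2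
    · rw [if_neg hD', mul_zero]
  · rw [if_neg hD, zero_mul]

open Classical in
theorem EE_sandwich (h : QIso G H u) (D : W → W → Prop) (a b : V) (w v : W) :
    u a w * EE D u a b * u b v = if D w v then u a w * u b v else 0 := by
  rw [M5_left h, Finset.sum_mul, Finset.sum_eq_single v]
  · split_ifs
    · rw [mul_assoc, h.idem]
    · rw [zero_mul]
  · intro v' _ hv'
    split_ifs
    · rw [mul_assoc, h.rowOrth b v' v hv', mul_zero]
    · rw [zero_mul]
  · intro hw; exact absurd (Finset.mem_univ _) hw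

theorem EE_props (h : QIso G H u) (hs : Split H Y1 Y2 p1 p2) {a b : V} (hab : G.Adj a b)
    (hgood : Good H p1 p2 u a b) :
    star (EE (Dir1 H p2) u a b) = EE (Dir1 H p2) u a b ∧
    EE (Dir1 H p2) u a b * EE (Dir1 H p2) u a b = EE (Dir1 H p2) u a b ∧
    (∀ w, EE (Dir1 H p2) u a b * u a w = u a w * EE (Dir1 H p2) u a b) ∧
    (∀ w, EE (Dir1 H p2) u a b * u b w = u b w * EE (Dir1 H p2) u a b) ∧
    EE (Dir1 H p2) u a b + EE (Dir1 H p1) u a b = 1 ∧
    EE (Dir1 H p2) u a b * EE (Dir1 H p1) u a b = 0 := by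
  refine ⟨M5_star_eq h hs hab hgood, ?_, fun w => (M5_comm_a h hs hab hgood w).1, ?_,
    M5_sum h hs hab, M5_orth h hs hab hgood⟩
  · have h1 := M5_sum h hs hab
    have h2 := M5_orth h hs hab hgood
    calc EE (Dir1 H p2) u a b * EE (Dir1 H p2) u a b
        = EE (Dir1 H p2) u a b * (EE (Dir1 H p2) u a b + EE (Dir1 H p1) u a b) := by
          rw [mul_add, h2, add_zero]
      _ = EE (Dir1 H p2) u a b := by rw [h1, mul_one]
  · intro w
    have h1 := (M5_comm_a h hs hab.symm (good_symm h hs hab hgood) w).1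
    rw [M5_flip h hs hab hgood]
    exact h1

theorem EE_flip (h : QIso G H u) (hs : Split H Y1 Y2 p1 p2) {a b : V} (hab : G.Adj a b)
    (hgood : Good H p1 p2 u a b) : EE (Dir1 H p2) u a b = EE (Dir1 H p2) u b a :=
  M5_flip h hs hab hgood

open Classical in
theorem aux_u_mul_EE (h : QIso G H u) (D : W → W → Prop) (a b : V) (w : W) :
    u a w * EE D u a b = ∑ v, if D w v then u a w * u b v else 0 := by
  unfold EE
  rw [Finset.mul_sum, Finset.sum_eq_single w]
  · rw [Finset.mul_sum]
    refine Finset.sum_congr rfl fun v _ => ?_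
    split_ifs with hD
    · rw [← mul_assoc, h.idem]
    · rw [mul_zero]
  · intro w' _ hw'
    rw [Finset.mul_sum]
    refine Finset.sum_eq_zero fun v _ => ?_
    split_ifs with hD
    · rw [← mul_assoc, h.rowOrth a w w' hw'.symm, zero_mul]
    · rw [mul_zero]
  · intro hw; exact absurd (Finset.mem_univ _) hw

open Classical in
theorem aux_EE_mul_u (h : QIso G H u) (D : W → W → Prop) (a b : V) (v : W) :
    EE D u a b * u b v = ∑ w, if D w v then u a w * u b v else 0 := by
  unfold EE
  rw [Finset.sum_mul]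
  refine Finset.sum_congr rfl fun w _ => ?_
  rw [Finset.sum_mul, Finset.sum_eq_single v]
  · split_ifs with hD
    · rw [mul_assoc, h.idem]
    · rw [zero_mul]
  · intro v' _ hv'
    split_ifs with hD
    · rw [mul_assoc, h.rowOrth b v' v hv'.symm.symm, mul_zero]
    · rw [zero_mul]
  · intro hw; exact absurd (Finset.mem_univ _) hw

theorem aux_loc_zero (h : QIso G H u) (hs : Split H Y1 Y2 p1 p2) {a b c : V} (hab : G.Adj a b)
    (hac : G.Adj a c) (hn : ¬ ∃ d, Diag G b c a d)
    (hg : Good H p1 p2 u a b) :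
    EE (Dir1 H p2) u a b * EE (Dir1 H p1) u a c = 0 := by
  classical
  apply h.eq_zero_left a
  intro w
  have c1 := (EE_props h hs hab hg).2.2.1 w
  have c2 := aux_u_mul_EE h (Dir1 H p2) a b w
  have c4 := aux_u_mul_EE h (Dir1 H p1) a c w
  have e1 : u a w * (EE (Dir1 H p2) u a b * EE (Dir1 H p1) u a c) =
      (u a w * EE (Dir1 H p2) u a b) * (u a w * EE (Dir1 H p1) u a c) := by
    calc u a w * (EE (Dir1 H p2) u a b * EE (Dir1 H p1) u a c)
        = u a w * (u a w * EE (Dir1 H p2) u a b) * EE (Dir1 H p1) u a c := by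
          rw [← mul_assoc (u a w) (u a w), h.idem, mul_assoc]
      _ = u a w * (EE (Dir1 H p2) u a b * u a w) * EE (Dir1 H p1) u a c := by rw [c1]
      _ = _ := by simp only [mul_assoc]
  have c5 : u a w * EE (Dir1 H p1) u a c = u a w * ∑ v, (if Dir1 H p1 w v then u c v else 0) := by
    rw [c4, Finset.mul_sum]
    refine Finset.sum_congr rfl fun v _ => ?_
    split_ifs <;> simp
  have c6 : u a w * EE (Dir1 H p2) u a b = u a w * ∑ v, (if Dir1 H p2 w v then u b v else 0) := by
    rw [c2, Finset.mul_sum]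
    refine Finset.sum_congr rfl fun v _ => ?_
    split_ifs <;> simp
  have e2 : (u a w * EE (Dir1 H p2) u a b) * (u a w * EE (Dir1 H p1) u a c) =
      u a w * ((∑ v, (if Dir1 H p2 w v then u b v else 0)) *
        ∑ v, (if Dir1 H p1 w v then u c v else 0)) := by
    rw [c5]
    calc u a w * EE (Dir1 H p2) u a b * (u a w * ∑ v, (if Dir1 H p1 w v then u c v else 0))
        = u a w * (EE (Dir1 H p2) u a b * u a w) *
          ∑ v, (if Dir1 H p1 w v then u c v else 0) := by simp only [mul_assoc]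
      _ = (u a w * u a w) * EE (Dir1 H p2) u a b *
          ∑ v, (if Dir1 H p1 w v then u c v else 0) := by rw [c1]; simp only [mul_assoc]
      _ = u a w * EE (Dir1 H p2) u a b *
          ∑ v, (if Dir1 H p1 w v then u c v else 0) := by rw [h.idem]
      _ = _ := by rw [c6, mul_assoc]
  rw [e1, e2]
  have e3 : (∑ v, (if Dir1 H p2 w v then u b v else 0)) *
        ∑ v, (if Dir1 H p1 w v then u c v else 0) = 0 := by
    rw [Finset.sum_mul_sum]
    refine Finset.sum_eq_zero fun v _ => Finset.sum_eq_zero fun v' _ => ?_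
    split_ifs with h1 h2
    · by_contra hne
      obtain ⟨r, hr⟩ := hs.corner_diag h1.1 h2.1 h1.2 h2.2
      obtain ⟨k1, k2, k3⟩ := diag_iff.1 ⟨w, r, hr⟩
      have m1 : b ≠ c := by
        rintro rfl
        exact hne (h.rowOrth b v v' k1)
      have m2 : ¬ G.Adj b c := by
        intro hadj
        exact hne (h.adj b c v v' fun h' => k2 (h'.1 hadj))
      have m3 : cn G b c = 2 := by
        by_contra h4
        exact hne (h.pres_cn (by rw [k3]; exact h4))
      obtain ⟨a', d', hd'⟩ := diag_iff.2 ⟨m1, m2, m3⟩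
      rcases (hd'.2.2.2 a).1 ⟨hab.symm, hac.symm⟩ with rfl | rfl
      · exact hn ⟨d', hd'⟩
      · exact hn ⟨a', hd'.symm'⟩
    all_goals simp
  rw [e3, mul_zero]

theorem EE_loc (h : QIso G H u) (hs : Split H Y1 Y2 p1 p2) {a b c : V} (hab : G.Adj a b)
    (hac : G.Adj a c) (hbc : b ≠ c) (hn : ¬ ∃ d, Diag G b c a d) :
    EE (Dir1 H p2) u a b = EE (Dir1 H p2) u a c := by
  have hn' : ¬ ∃ d, Diag G c b a d := fun ⟨d, hd⟩ => hn ⟨d, hd.symm⟩
  have g1 : Good H p1 p2 u a b := good_loc h hs hab hac hbc hn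
  have g2 : Good H p1 p2 u a c := good_loc h hs hac hab hbc.symm hn'
  have z1 := aux_loc_zero h hs hab hac hn g1
  have z2 := aux_loc_zero h hs.symm hab hac hn (good_swap h g1)
  have s1 := (EE_props h hs hab g1).2.2.2.2.1
  have s2 := (EE_props h hs hac g2).2.2.2.2.1
  calc EE (Dir1 H p2) u a b = EE (Dir1 H p2) u a b *
        (EE (Dir1 H p2) u a c + EE (Dir1 H p1) u a c) := by rw [s2, mul_one]
    _ = EE (Dir1 H p2) u a b * EE (Dir1 H p2) u a c := by rw [mul_add, z1, add_zero]
    _ = (EE (Dir1 H p2) u a b + EE (Dir1 H p1) u a b) * EE (Dir1 H p2) u a c := by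
        rw [add_mul, z2, add_zero]
    _ = EE (Dir1 H p2) u a c := by rw [s1, one_mul]

theorem aux_col_two (h : QIso G H u) {a b c d : V} (hd : Diag G b c a d) {v t x : W}
    (hv : H.Adj v x) (ht : H.Adj t x) :
    u b v * u c t = u b v * u a x * u c t + u b v * u d x * u c t := by
  classical
  have h1 : u b v * u c t = ∑ e, u b v * u e x * u c t := by
    rw [← Finset.sum_mul, ← Finset.mul_sum, h.colSum, mul_one]
  rw [h1]
  rw [← Finset.sum_subset (Finset.subset_univ {a, d})]
  · rw [Finset.sum_pair hd.2.2.1]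
  · intro e _ he
    simp only [Finset.mem_insert, Finset.mem_singleton] at he
    rw [← hd.2.2.2 e, not_and_or] at he
    rcases he with he | he
    · have : u b v * u e x = 0 := h.adj _ _ _ _ fun h' => he (h'.2 hv)
      rw [this, zero_mul]
    · have : u e x * u c t = 0 := h.adj _ _ _ _ fun h' => he (h'.2 ht.symm).symm
      rw [mul_assoc, this, mul_zero]

theorem EE_sq (h : QIso G H u) (hs : Split H Y1 Y2 p1 p2) {a b c d : V} (hd : Diag G b c a d)
    (hg1 : Good H p1 p2 u a b) (hg2 : Good H p1 p2 u c d) :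
    EE (Dir1 H p2) u a b = EE (Dir1 H p2) u c d := by
  classical
  apply h.eq_of b c
  intro v t
  by_cases hvt : v = t
  · subst hvt
    have c1 := (EE_props h hs hd.adj1.symm hg1).2.2.2.1 v
    have c2 := (EE_props h hs hd.adj4 hg2).2.2.1 v
    rw [← c1, mul_assoc, h.colOrth b c v hd.1, mul_zero, mul_assoc, c2, ← mul_assoc,
      h.colOrth b c v hd.1, zero_mul]
  have A1 : u b v * EE (Dir1 H p2) u a b * u c t =
      ∑ w, if Dir1 H p2 v w then u b v * u a w * u c t else 0 := by
    rw [EE_flip h hs hd.adj1.symm hg1, aux_u_mul_EE h, Finset.sum_mul]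
    refine Finset.sum_congr rfl fun w _ => ?_
    split_ifs <;> simp
  have C1 : u b v * EE (Dir1 H p2) u c d * u c t =
      ∑ r, if Dir1 H p2 r t then u b v * u d r * u c t else 0 := by
    rw [EE_flip h hs hd.adj4 hg2, mul_assoc, aux_EE_mul_u h, Finset.mul_sum]
    refine Finset.sum_congr rfl fun w _ => ?_
    split_ifs <;> simp [mul_assoc]
  rw [A1, C1]
  have nadjA1 : ∀ w, ¬ H.Adj v w → u b v * u a w * u c t = 0 := fun w hw => by
    rw [h.adj b a v w fun h' => hw (h'.1 hd.adj1), zero_mul]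
  have nadjA2 : ∀ w, ¬ H.Adj w t → u b v * u a w * u c t = 0 := fun w hw => by
    rw [mul_assoc, h.adj a c w t fun h' => hw (h'.1 hd.adj2.symm), mul_zero]
  have nadjC1 : ∀ w, ¬ H.Adj v w → u b v * u d w * u c t = 0 := fun w hw => by
    rw [h.adj b d v w fun h' => hw (h'.1 hd.adj3), zero_mul]
  have nadjC2 : ∀ w, ¬ H.Adj w t → u b v * u d w * u c t = 0 := fun w hw => by
    rw [mul_assoc, h.adj d c w t fun h' => hw (h'.1 hd.adj4.symm), mul_zero]
  by_cases hp2 : p2 v = p2 t
  · have hp1 : p1 v ≠ p1 t := fun h' => hvt (hs.inj _ _ h' hp2)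
    have A2 : (∑ w, if Dir1 H p2 v w then u b v * u a w * u c t else 0) = u b v * u c t := by
      have : ∀ w, (if Dir1 H p2 v w then u b v * u a w * u c t else 0) =
          u b v * u a w * u c t := by
        intro w
        split_ifs with hD
        · rfl
        · by_cases h1 : H.Adj v w
          · by_cases h2 : H.Adj w t
            · exfalso
              have h3 : p2 v ≠ p2 w := fun h' => hD ⟨h1, h'⟩
              rcases hs.adj_or h1 with h4 | h4
              · rcases hs.adj_or h2 with h5 | h5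
                · exact hp1 (h4.trans h5)
                · exact h3 (hp2.trans h5.symm)
              · exact h3 h4
            · rw [nadjA2 w h2]
          · rw [nadjA1 w h1]
      simp only [this]
      rw [← Finset.sum_mul, ← Finset.mul_sum, h.rowSum, mul_one]
    have C2 : (∑ w, if Dir1 H p2 w t then u b v * u d w * u c t else 0) = u b v * u c t := by
      have : ∀ w, (if Dir1 H p2 w t then u b v * u d w * u c t else 0) =
          u b v * u d w * u c t := by
        intro w
        split_ifs with hD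
        · rfl
        · by_cases h1 : H.Adj v w
          · by_cases h2 : H.Adj w t
            · exfalso
              have h3 : p2 w ≠ p2 t := fun h' => hD ⟨h2, h'⟩
              rcases hs.adj_or h1 with h4 | h4
              · rcases hs.adj_or h2 with h5 | h5
                · exact hp1 (h4.trans h5)
                · exact h3 h5
              · exact h3 (h4.symm.trans hp2)
            · rw [nadjC2 w h2]
          · rw [nadjC1 w h1]
      simp only [this]
      rw [← Finset.sum_mul, ← Finset.mul_sum, h.rowSum, mul_one]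
    rw [A2, C2]
  by_cases hp1 : p1 v = p1 t
  · have A2 : (∑ w, if Dir1 H p2 v w then u b v * u a w * u c t else 0) = 0 := by
      refine Finset.sum_eq_zero fun w _ => ?_
      split_ifs with hD
      · by_cases h2 : H.Adj w t
        · exfalso
          rcases hs.adj_or h2 with h5 | h5
          · have : v = w := hs.inj _ _ (hp1.trans h5.symm) hD.2
            exact hD.1.ne this
          · exact hp2 (hD.2.trans h5)
        · exact nadjA2 w h2
      · rfl
    have C2 : (∑ w, if Dir1 H p2 w t then u b v * u d w * u c t else 0) = 0 := by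
      refine Finset.sum_eq_zero fun w _ => ?_
      split_ifs with hD
      · by_cases h2 : H.Adj v w
        · exfalso
          rcases hs.adj_or h2 with h5 | h5
          · have : w = t := hs.inj _ _ (h5.symm.trans hp1) hD.2
            exact hD.1.ne this
          · exact hp2 (h5.trans hD.2)
        · exact nadjC1 w h2
      · rfl
    rw [A2, C2]
  obtain ⟨w0, hw1, hw2⟩ := hs.surj (p1 t) (p2 v)
  obtain ⟨r0, hr1, hr2⟩ := hs.surj (p1 v) (p2 t)
  have A2 : (∑ w, if Dir1 H p2 v w then u b v * u a w * u c t else 0) =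
      u b v * u a w0 * u c t := by
    rw [Finset.sum_eq_single w0]
    · split_ifs with hD
      · rfl
      · have : ¬ H.Adj v w0 := fun h' => hD ⟨h', hw2.symm⟩
        rw [nadjA1 w0 this]
    · intro w _ hw
      split_ifs with hD
      · by_cases h2 : H.Adj w t
        · exfalso
          rcases hs.common_nbr (t := t) (v := v) (w := w) (fun h' => hp1 h'.symm)
            (fun h' => hp2 h'.symm) h2.symm hD.1 with ⟨h5, h6⟩ | ⟨h5, h6⟩
          · exact hw (hs.inj _ _ (h5.trans hw1.symm) (h6.trans hw2.symm))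
          · exact hp2 (hD.2.trans h6)
        · exact nadjA2 w h2
      · rfl
    · intro hw; exact absurd (Finset.mem_univ _) hw
  have C2 : (∑ w, if Dir1 H p2 w t then u b v * u d w * u c t else 0) =
      u b v * u d r0 * u c t := by
    rw [Finset.sum_eq_single r0]
    · split_ifs with hD
      · rfl
      · have : ¬ H.Adj r0 t := fun h' => hD ⟨h', hr2⟩
        rw [nadjC2 r0 this]
    · intro w _ hw
      split_ifs with hD
      · by_cases h2 : H.Adj v w
        · exfalso
          rcases hs.common_nbr (t := t) (v := v) (w := w) (fun h' => hp1 h'.symm)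
            (fun h' => hp2 h'.symm) hD.1.symm h2 with ⟨h5, h6⟩ | ⟨h5, h6⟩
          · exact hp2 (h6.symm.trans hD.2)
          · exact hw (hs.inj _ _ (h5.trans hr1.symm) (h6.trans hr2.symm))
        · exact nadjC1 w h2
      · rfl
    · intro hw; exact absurd (Finset.mem_univ _) hw
  rw [A2, C2]
  by_cases q1 : H.Adj v w0
  · by_cases q2 : H.Adj w0 t
    · obtain ⟨r, hr⟩ := hs.corner_diag q1.symm q2 hw2 hw1
      have hrr : r = r0 := by
        rcases hs.common_nbr (t := t) (v := v) (w := r) (fun h' => hp1 h'.symm)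
            (fun h' => hp2 h'.symm) hr.adj4 hr.adj3 with ⟨h5, h6⟩ | ⟨h5, h6⟩
        · exact absurd (hs.inj _ _ (hw1.trans h5.symm) (hw2.trans h6.symm)) hr.2.2.1
        · exact hs.inj _ _ (h5.trans hr1.symm) (h6.trans hr2.symm)
      subst hrr
      have t1 := aux_col_two h hd q1 q2.symm
      have t2 := aux_col_two h.transpose hr hd.adj3 hd.adj4

      have t3 : u b v * u a w0 * u c t + u b v * u d w0 * u c t =
          u b v * u d r * u c t + u b v * u d w0 * u c t := by
        rw [← t1, t2, add_comm]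
      exact add_right_cancel t3
    · have q3 : ¬ H.Adj v r0 := by
        intro h'
        apply q2
        rw [hs.adj]
        right
        refine ⟨hw1, ?_⟩
        rcases hs.adj_cases h' with h1 | h1
        · exact absurd (h1.1.trans hr2) hp2
        · rw [hw2, ← hr2]; exact h1.2.2
      rw [nadjA2 w0 q2, nadjC1 r0 q3]
  · have q3 : ¬ H.Adj r0 t := by
      intro h'
      apply q1
      rw [hs.adj]
      left
      refine ⟨?_, hw2.symm⟩
      rcases hs.adj_cases h' with h1 | h1
      · rw [hw1, ← hr1]; exact h1.2.2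
      · exact absurd (hr1.symm.trans h1.1) hp1
    rw [nadjA1 w0 q1, nadjC2 r0 q3]

theorem aux_tw_term (h : QIso G H u) (hs : Split H Y1 Y2 p1 p2) {a b c : V} (hab : G.Adj a b)
    (hac : G.Adj a c)
    (hz : ∀ F ∈ RR Y1 p1, ∀ K ∈ RR Y2 p2, (al u F a - al u F b) * (al u K a - al u K c) = 0)
    {v w t : W} (hvw : H.Adj v w) (h2 : p2 v = p2 w) (hwt : H.Adj w t) (h1 : p1 w = p1 t) :
    u b v * u a w * u c t = 0 := by
  classical
  have a1 : Y1.Adj (p1 v) (p1 w) := by
    rcases hs.adj_cases hvw with h3 | h3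
    · exact h3.2.2
    · exact absurd h2 h3.2.1
  have a2 : Y2.Adj (p2 w) (p2 t) := by
    rcases hs.adj_cases hwt with h3 | h3
    · exact absurd h1 h3.2.1
    · exact h3.2.2
  set F : W → ℝ := fun x => (Y1.dist (p1 x) (p1 w) : ℝ) - (Y1.dist (p1 x) (p1 v) : ℝ) with hF
  set K : W → ℝ := fun x => (Y2.dist (p2 x) (p2 w) : ℝ) - (Y2.dist (p2 x) (p2 t) : ℝ) with hK
  have mF : F ∈ RR Y1 p1 := Submodule.subset_span (Or.inr ⟨(p1 w, p1 v), rfl⟩)
  have mK : K ∈ RR Y2 p2 := Submodule.subset_span (Or.inr ⟨(p2 w, p2 t), rfl⟩)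
  have d1 : Y1.dist (p1 v) (p1 w) = 1 := SimpleGraph.dist_eq_one_iff_adj.2 a1
  have d1' : Y1.dist (p1 w) (p1 v) = 1 := SimpleGraph.dist_eq_one_iff_adj.2 a1.symm
  have d2 : Y2.dist (p2 w) (p2 t) = 1 := SimpleGraph.dist_eq_one_iff_adj.2 a2
  have d2' : Y2.dist (p2 t) (p2 w) = 1 := SimpleGraph.dist_eq_one_iff_adj.2 a2.symm
  have fF : F w - F v = -2 := by
    simp only [hF, SimpleGraph.dist_self, d1, d1']
    norm_num
  have fK : K w - K t = -2 := by
    simp only [hK, SimpleGraph.dist_self, d2, d2']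
    norm_num
  have z := hz F mF K mK
  have l1 : u b v * (al u F a - al u F b) = ∑ x, (F x - F v) • (u b v * u a x) := by
    have : ∑ x, (F x - F v) • (u b v * u a x) =
        u b v * (∑ x, F x • u a x) - F v • (u b v * ∑ x, u a x) := by
      rw [Finset.mul_sum, Finset.mul_sum, Finset.smul_sum, ← Finset.sum_sub_distrib]
      refine Finset.sum_congr rfl fun x _ => ?_
      rw [sub_smul, mul_smul_comm]
    rw [this, h.rowSum, mul_one, mul_sub, h.u_mul_al]
    rfl
  have l2 : (al u K a - al u K c) * u c t = ∑ y, (K y - K t) • (u a y * u c t) := by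
    have : ∑ y, (K y - K t) • (u a y * u c t) =
        (∑ y, K y • u a y) * u c t - K t • ((∑ y, u a y) * u c t) := by
      rw [Finset.sum_mul, Finset.sum_mul, Finset.smul_sum, ← Finset.sum_sub_distrib]
      refine Finset.sum_congr rfl fun x _ => ?_
      rw [sub_smul, smul_mul_assoc]
    rw [this, h.rowSum, one_mul, sub_mul, h.al_mul_u]
    rfl
  have l3 : (u b v * (al u F a - al u F b)) * ((al u K a - al u K c) * u c t) = 0 := by
    calc (u b v * (al u F a - al u F b)) * ((al u K a - al u K c) * u c t)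
        = u b v * ((al u F a - al u F b) * (al u K a - al u K c)) * u c t := by
          simp only [mul_assoc]
      _ = 0 := by rw [z, mul_zero, zero_mul]
  rw [l1, l2, Finset.sum_mul_sum] at l3
  have l4 : ∑ x, ∑ y, (F x - F v) • (u b v * u a x) * ((K y - K t) • (u a y * u c t)) =
      (4 : ℝ) • (u b v * u a w * u c t) := by
    rw [Finset.sum_eq_single w]
    · rw [Finset.sum_eq_single w]
      · rw [smul_mul_assoc, mul_smul_comm, smul_smul, fF, fK, mul_assoc (u b v),
          ← mul_assoc (u a w) (u a w), h.idem, ← mul_assoc]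
        norm_num
      · intro y _ hy
        rw [smul_mul_assoc, mul_smul_comm, mul_assoc (u b v), ← mul_assoc (u a w) (u a y),
          h.rowOrth a w y hy.symm]
        simp
      · intro hw; exact absurd (Finset.mem_univ _) hw
    · intro x _ hx
      refine Finset.sum_eq_zero fun y _ => ?_
      by_cases hxy : x = y
      · subst hxy
        by_cases k1 : H.Adj v x
        · by_cases k2 : H.Adj x t
          · by_cases k3 : p1 x = p1 v
            · have : F x = F v := by simp only [hF, k3]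
              rw [this]; simp
            · by_cases k4 : p2 x = p2 t
              · have : K x = K t := by simp only [hK, k4]
                rw [this]; simp
              · exfalso
                apply hx
                have k5 : p2 v = p2 x := by
                  rcases hs.adj_or k1 with h5 | h5
                  · exact absurd h5.symm k3
                  · exact h5
                have k6 : p1 x = p1 t := by
                  rcases hs.adj_or k2 with h5 | h5
                  · exact h5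
                  · exact absurd h5 k4
                exact hs.inj _ _ (k6.trans h1.symm) (k5.symm.trans h2)
          · rw [h.adj a c x t fun h' => k2 (h'.1 hac)]
            simp
        · rw [h.adj b a v x fun h' => k1 (h'.1 hab.symm)]
          simp
      · rw [smul_mul_assoc, mul_smul_comm, mul_assoc (u b v), ← mul_assoc (u a x) (u a y),
          h.rowOrth a x y hxy]
        simp
    · intro hw; exact absurd (Finset.mem_univ _) hw
  rw [l4] at l3
  have l5 := congrArg (fun z => (4 : ℝ)⁻¹ • z) l3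
  simpa [smul_smul] using l5

theorem aux_tw_zero (h : QIso G H u) (hs : Split H Y1 Y2 p1 p2) {a b c : V} (hab : G.Adj a b)
    (hac : G.Adj a c) (hg : Good H p1 p2 u a b)
    (hz : ∀ F ∈ RR Y1 p1, ∀ K ∈ RR Y2 p2, (al u F a - al u F b) * (al u K a - al u K c) = 0) :
    EE (Dir1 H p2) u a b * EE (Dir1 H p1) u a c = 0 := by
  classical
  apply h.eq_zero b c
  intro v t
  rw [EE_flip h hs hab hg]
  have e1 : u b v * (EE (Dir1 H p2) u b a * EE (Dir1 H p1) u a c) * u c t =
      (u b v * EE (Dir1 H p2) u b a) * (EE (Dir1 H p1) u a c * u c t) := by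
    simp only [mul_assoc]
  rw [e1, aux_u_mul_EE h, aux_EE_mul_u h, Finset.sum_mul_sum]
  refine Finset.sum_eq_zero fun w _ => Finset.sum_eq_zero fun w' _ => ?_
  split_ifs with h1 h2
  · by_cases hw : w = w'
    · subst hw
      rw [mul_assoc (u b v), ← mul_assoc (u a w) (u a w), h.idem, ← mul_assoc]
      exact aux_tw_term h hs hab hac hz h1.1 h1.2 h2.1 h2.2
    · rw [mul_assoc (u b v), ← mul_assoc (u a w) (u a w'), h.rowOrth a w w' hw]
      simp
  all_goals simp

theorem EE_tw (h : QIso G H u) (hG : G.Connected) (hs : Split H Y1 Y2 p1 p2)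
    (hB : ∀ x : B, star x * x = 0 → x = 0)
    {a b c d z : V} (hd1 : Diag G b c a d) (hd2 : Diag G a d b c)
    (hz : (G.dist a z : ℤ) - G.dist b z - G.dist c z + G.dist d z ≠ 0) :
    EE (Dir1 H p2) u a b = EE (Dir1 H p2) u a c := by
  obtain ⟨g1, z1⟩ := lambda_good h hG hs hB hd1 hd2 hz
  have hz' : (G.dist a z : ℤ) - G.dist c z - G.dist b z + G.dist d z ≠ 0 := by
    intro h'
    apply hz
    linarith
  obtain ⟨g2, z2⟩ := lambda_good h hG hs hB hd1.symm hd2.symm' hz'
  have hab : G.Adj a b := hd1.adj1.symm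
  have hac : G.Adj a c := hd1.adj2.symm
  have y1 := aux_tw_zero h hs hab hac g1 z1
  have y2 := aux_tw_zero h hs hac hab g2 z2
  obtain ⟨st1, -, -, -, s1, -⟩ := EE_props h hs hab g1
  obtain ⟨st2, -, -, -, s2, -⟩ := EE_props h hs hac g2
  have e1 : EE (Dir1 H p2) u a b = EE (Dir1 H p2) u a b * EE (Dir1 H p2) u a c := by
    calc EE (Dir1 H p2) u a b = EE (Dir1 H p2) u a b *
          (EE (Dir1 H p2) u a c + EE (Dir1 H p1) u a c) := by rw [s2, mul_one]
      _ = EE (Dir1 H p2) u a b * EE (Dir1 H p2) u a c := by rw [mul_add, y1, add_zero]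
  have e2 : EE (Dir1 H p2) u a c = EE (Dir1 H p2) u a c * EE (Dir1 H p2) u a b := by
    calc EE (Dir1 H p2) u a c = EE (Dir1 H p2) u a c *
          (EE (Dir1 H p2) u a b + EE (Dir1 H p1) u a b) := by rw [s1, mul_one]
      _ = EE (Dir1 H p2) u a c * EE (Dir1 H p2) u a b := by rw [mul_add, y2, add_zero]
  have e3 : EE (Dir1 H p2) u a b = EE (Dir1 H p2) u a c * EE (Dir1 H p2) u a b := by
    have := congrArg star e1
    rwa [star_mul, st1, st2] at this
  rw [e3, ← e2]

end

end Pool.Agent.H741.QS
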