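import Pool.Agent.Helper741.QSym.Basic

set_option autoImplicit false
set_option linter.unusedSectionVars false

namespace Pool.Agent.H741.QS

theorem diag_iff {V : Type} [Fintype V] {G : SimpleGraph V} {b c : V} :
    (∃ a d, Diag G b c a d) ↔ b ≠ c ∧ ¬ G.Adj b c ∧ cn G b c = 2 := by
  classical
  constructor
  · rintro ⟨a, d, h⟩
    refine ⟨h.1, h.2.1, ?_⟩
    have : (Finset.univ.filter fun e => G.Adj b e ∧ G.Adj e c) = {a, d} := by
      ext e
      simp only [Finset.mem_filter, Finset.mem_univ, true_and, Finset.mem_insert,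
        Finset.mem_singleton]
      rw [← h.2.2.2 e, G.adj_comm e c]
    have h2 : cn G b c = (Finset.univ.filter fun e => G.Adj b e ∧ G.Adj e c).card := by
      unfold cn; congr
    rw [h2, this, Finset.card_pair h.2.2.1]
  · rintro ⟨h1, h2, h3⟩
    have h4 : cn G b c = (Finset.univ.filter fun e => G.Adj b e ∧ G.Adj e c).card := by
      unfold cn; congr
    rw [h4, Finset.card_eq_two] at h3
    obtain ⟨a, d, had, he⟩ := h3
    refine ⟨a, d, h1, h2, had, fun e => ?_⟩
    have := Finset.ext_iff.1 he e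
    simp only [Finset.mem_filter, Finset.mem_univ, true_and, Finset.mem_insert,
        Finset.mem_singleton] at this
    rw [← this, G.adj_comm e c]

theorem cn_symm {V : Type} [Fintype V] (G : SimpleGraph V) (b c : V) : cn G b c = cn G c b := by
  classical
  unfold cn
  congr 1
  ext e
  simp only [Finset.mem_filter, Finset.mem_univ, true_and]
  rw [G.adj_comm b e, G.adj_comm e c]
  exact and_comm

section

variable {V W : Type} [Fintype V] [Fintype W]
variable {B : Type} [Ring B] [StarRing B] [Algebra ℝ B] [StarModule ℝ B]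
variable {G : SimpleGraph V} {H : SimpleGraph W} {u : V → W → B}

namespace QIso

theorem diag_rel (h : QIso G H u) {b c a d : V} (hd : Diag G b c a d) {t v : W}
    (hne : u b t * u c v ≠ 0) : ∃ w r, Diag H t v w r := by
  rw [diag_iff]
  obtain ⟨h1, h2, h3⟩ := diag_iff.1 ⟨a, d, hd⟩
  refine ⟨?_, ?_, ?_⟩
  · rintro rfl
    exact hne (h.colOrth b c t h1)
  · intro hadj
    exact hne (h.adj b c t v fun h' => h2 (h'.2 hadj))
  · by_contra h4
    exact hne (h.pres_cn (by rw [h3]; exact fun h' => h4 h'.symm))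

/-- L2 -/
theorem L2 (h : QIso G H u) {F K : W → ℝ}
    (hFK : ∀ w v, H.Adj w v → F w = F v ∨ K w = K v) {a b : V} (hab : G.Adj a b) :
    (al u F a - al u F b) * al u K a = al u K b * (al u F a - al u F b) := by
  apply h.eq_of b a
  intro w v
  have h1 : u b w * (al u F a - al u F b) * u a v = (F v - F w) • (u b w * u a v) := by
    rw [mul_sub, sub_mul, mul_assoc, h.al_mul_u, h.u_mul_al, mul_smul_comm, smul_mul_assoc,
      sub_smul]
  have h2 : u b w * ((al u F a - al u F b) * al u K a) * u a v =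
      K v • ((F v - F w) • (u b w * u a v)) := by
    rw [← h1]
    rw [mul_assoc, mul_assoc (al u F a - al u F b), h.al_mul_u, mul_smul_comm, mul_smul_comm,
      mul_assoc]
  have h3 : u b w * (al u K b * (al u F a - al u F b)) * u a v =
      K w • ((F v - F w) • (u b w * u a v)) := by
    rw [← h1, ← mul_assoc, h.u_mul_al, smul_mul_assoc, smul_mul_assoc]
  rw [h2, h3]
  by_cases hwv : H.Adj v w
  · rcases hFK v w hwv with h4 | h4
    · rw [h4]; simp
    · rw [h4]
  · have : u b w * u a v = 0 := by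
      apply h.adj
      intro h'
      exact hwv (h'.1 hab.symm).symm
    rw [this]; simp

open Classical in
/-- key computation at a square -/
theorem square_sum (h : QIso G H u) {a b c d : V} (hd : Diag G b c a d) (F : W → ℝ) (t v : W) :
    u c t * (al u F a + al u F d) * u b v =
      (∑ x, if (H.Adj t x ∧ H.Adj v x) then F x else 0) • (u c t * u b v) := by
  classical
  have key : ∀ x, u c t * (u a x + u d x) * u b v =
      if (H.Adj t x ∧ H.Adj v x) then u c t * u b v else 0 := by
    intro x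
    split_ifs with hx
    · have h1 : u c t * u b v = ∑ e, u c t * u e x * u b v := by
        rw [← Finset.sum_mul, ← Finset.mul_sum, h.colSum, mul_one]
      rw [h1]
      rw [← Finset.sum_subset (Finset.subset_univ {a, d})]
      · rw [Finset.sum_pair hd.2.2.1]
        noncomm_ring
      · intro e _ he
        simp only [Finset.mem_insert, Finset.mem_singleton] at he
        rw [← hd.2.2.2 e, not_and_or] at he
        rcases he with he | he
        · have : u e x * u b v = 0 := h.adj _ _ _ _ fun h' => he (h'.2 hx.2.symm).symm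
          rw [mul_assoc, this, mul_zero]
        · have : u c t * u e x = 0 := h.adj _ _ _ _ fun h' => he (h'.2 hx.1)
          rw [this, zero_mul]
    · rw [not_and_or] at hx
      rcases hx with hx | hx
      · have h1 : u c t * u a x = 0 := h.adj _ _ _ _ fun h' => hx (h'.1 hd.adj2)
        have h2 : u c t * u d x = 0 := h.adj _ _ _ _ fun h' => hx (h'.1 hd.adj4)
        rw [mul_add, h1, h2, add_zero, zero_mul]
      · have h1 : u a x * u b v = 0 := h.adj _ _ _ _ fun h' => hx (h'.1 hd.adj1.symm).symm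
        have h2 : u d x * u b v = 0 := h.adj _ _ _ _ fun h' => hx (h'.1 hd.adj3.symm).symm
        rw [mul_assoc, add_mul, h1, h2, add_zero, mul_zero]
  have h1 : al u F a + al u F d = ∑ x, F x • (u a x + u d x) := by
    simp only [al, smul_add, Finset.sum_add_distrib]
  rw [h1, Finset.mul_sum, Finset.sum_mul, Finset.sum_smul]
  refine Finset.sum_congr rfl fun x _ => ?_
  rw [mul_smul_comm, smul_mul_assoc, key]
  split_ifs <;> simp

theorem T1 (h : QIso G H u) {F K : W → ℝ}
    (hFK : ∀ t v w r, Diag H t v w r → K t ≠ K v → F w + F r = F t + F v)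
    {a b c d : V} (hd : Diag G b c a d) :
    (al u F a - al u F b - al u F c + al u F d) * al u K b =
      al u K c * (al u F a - al u F b - al u F c + al u F d) := by
  classical
  apply h.eq_of c b
  intro t v
  have h1 : u c t * (al u F a - al u F b - al u F c + al u F d) * u b v =
      ((∑ x, if (H.Adj t x ∧ H.Adj v x) then F x else 0) - F v - F t) • (u c t * u b v) := by
    have e1 : u c t * (al u F a - al u F b - al u F c + al u F d) * u b v =
        u c t * (al u F a + al u F d) * u b v - u c t * (al u F b * u b v) -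
          (u c t * al u F c) * u b v := by noncomm_ring
    rw [e1, h.square_sum hd, h.al_mul_u, h.u_mul_al, mul_smul_comm, smul_mul_assoc, sub_smul,
      sub_smul]
  have h2 : u c t * ((al u F a - al u F b - al u F c + al u F d) * al u K b) * u b v =
      K v • (u c t * (al u F a - al u F b - al u F c + al u F d) * u b v) := by
    rw [mul_assoc, mul_assoc (al u F a - al u F b - al u F c + al u F d), h.al_mul_u,
      mul_smul_comm, mul_smul_comm, mul_assoc]
  have h3 : u c t * (al u K c * (al u F a - al u F b - al u F c + al u F d)) * u b v =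
      K t • (u c t * (al u F a - al u F b - al u F c + al u F d) * u b v) := by
    rw [← mul_assoc, h.u_mul_al, smul_mul_assoc, smul_mul_assoc]
  rw [h2, h3, h1]
  by_cases hX : u c t * u b v = 0
  · rw [hX]; simp
  by_cases hK : K t = K v
  · rw [hK]
  obtain ⟨w, r, hw⟩ := h.diag_rel hd.symm hX
  have h4 := hFK t v w r hw hK
  have h5 : (∑ x, if (H.Adj t x ∧ H.Adj v x) then F x else 0) = F w + F r := by
    have : ∀ x, (if (H.Adj t x ∧ H.Adj v x) then F x else 0) =
        if (x = w ∨ x = r) then F x else 0 := fun x => by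
      simp only [hw.2.2.2 x]
    simp only [this]
    rw [← Finset.sum_filter]
    have h6 : (Finset.univ.filter fun x => x = w ∨ x = r) = {w, r} := by
      ext x; simp
    rw [h6, Finset.sum_pair hw.2.2.1]
  rw [h5, h4]
  simp

/-- the commutation relation between one-functions and two-functions -/
def CC (u : V → W → B) (F K : W → ℝ) : Prop :=
  ∀ a b, al u F a * al u K b - al u K b * al u F a +
    (al u K a * al u F b - al u F b * al u K a) = 0

theorem CC.symm {F K : W → ℝ} (h : CC u F K) : CC u K F := by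
  intro a b
  have h1 := h a b
  have : al u K a * al u F b - al u F b * al u K a + (al u F a * al u K b - al u K b * al u F a) =
    al u F a * al u K b - al u K b * al u F a +
    (al u K a * al u F b - al u F b * al u K a) := by abel
  rw [this, h1]

theorem dist_comm (h : QIso G H u) (hG : G.Connected) (hH : H.Connected) (o : W) (a b : V) :
    al u (fun w => (H.dist w o : ℝ)) a * al u (fun w => (H.dist w o : ℝ)) b =
    al u (fun w => (H.dist w o : ℝ)) b * al u (fun w => (H.dist w o : ℝ)) a := by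
  rw [h.al_dist hG hH, h.al_dist hG hH]
  exact h.transpose.al_comm (fun c => (G.dist a c : ℝ)) (fun c => (G.dist b c : ℝ)) o

end QIso

end

/-- A splitting of the vertices of `H` into two coordinates. -/
structure Split {W W1 W2 : Type} (H : SimpleGraph W) (Y1 : SimpleGraph W1) (Y2 : SimpleGraph W2)
    (p1 : W → W1) (p2 : W → W2) : Prop where
  inj : ∀ w v, p1 w = p1 v → p2 w = p2 v → w = v
  surj : ∀ x y, ∃ w, p1 w = x ∧ p2 w = y
  adj : ∀ w v, H.Adj w v ↔
    (Y1.Adj (p1 w) (p1 v) ∧ p2 w = p2 v) ∨ (p1 w = p1 v ∧ Y2.Adj (p2 w) (p2 v))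
  dist : ∀ w v, H.dist w v = Y1.dist (p1 w) (p1 v) + Y2.dist (p2 w) (p2 v)
  conn : H.Connected

namespace Split

variable {W W1 W2 : Type} {H : SimpleGraph W} {Y1 : SimpleGraph W1} {Y2 : SimpleGraph W2}
    {p1 : W → W1} {p2 : W → W2}

theorem symm (h : Split H Y1 Y2 p1 p2) : Split H Y2 Y1 p2 p1 where
  inj w v h1 h2 := h.inj w v h2 h1
  surj x y := by obtain ⟨w, h1, h2⟩ := h.surj y x; exact ⟨w, h2, h1⟩
  adj w v := by rw [h.adj]; tauto
  dist w v := by rw [h.dist]; ring
  conn := h.conn

theorem adj_cases (h : Split H Y1 Y2 p1 p2) {w v : W} (hw : H.Adj w v) :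
    (p2 w = p2 v ∧ p1 w ≠ p1 v ∧ Y1.Adj (p1 w) (p1 v)) ∨
    (p1 w = p1 v ∧ p2 w ≠ p2 v ∧ Y2.Adj (p2 w) (p2 v)) := by
  rcases (h.adj w v).1 hw with ⟨h1, h2⟩ | ⟨h1, h2⟩
  · exact Or.inl ⟨h2, h1.ne, h1⟩
  · exact Or.inr ⟨h1, h2.ne, h2⟩

theorem adj_or (h : Split H Y1 Y2 p1 p2) {w v : W} (hw : H.Adj w v) :
    p1 w = p1 v ∨ p2 w = p2 v := by
  rcases h.adj_cases hw with h1 | h1
  · exact Or.inr h1.1
  · exact Or.inl h1.1

/-- common neighbours of two vertices that differ in both coordinates -/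
theorem common_nbr (h : Split H Y1 Y2 p1 p2) {t v w : W} (h1 : p1 t ≠ p1 v) (h2 : p2 t ≠ p2 v)
    (htw : H.Adj t w) (hvw : H.Adj v w) :
    (p1 w = p1 t ∧ p2 w = p2 v) ∨ (p1 w = p1 v ∧ p2 w = p2 t) := by
  rcases h.adj_cases htw with ⟨h3, h4, -⟩ | ⟨h3, h4, -⟩
  · rcases h.adj_cases hvw with ⟨h5, h6, -⟩ | ⟨h5, h6, -⟩
    · exact absurd (h3.trans h5.symm) h2
    · exact Or.inr ⟨h5.symm, h3.symm⟩
  · rcases h.adj_cases hvw with ⟨h5, h6, -⟩ | ⟨h5, h6, -⟩
    · exact Or.inl ⟨h3.symm, h5.symm⟩
    · exact absurd (h3.trans h5.symm) h1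

/-- a corner of a product square -/
theorem corner_diag (h : Split H Y1 Y2 p1 p2) {w v v' : W} (hv : H.Adj w v) (hv' : H.Adj w v')
    (h1 : p2 w = p2 v) (h2 : p1 w = p1 v') : ∃ r, Diag H v v' w r := by
  have a1 : Y1.Adj (p1 w) (p1 v) := by
    rcases h.adj_cases hv with h3 | h3
    · exact h3.2.2
    · exact absurd h1 h3.2.1
  have a2 : Y2.Adj (p2 w) (p2 v') := by
    rcases h.adj_cases hv' with h3 | h3
    · exact absurd h2 h3.2.1
    · exact h3.2.2
  obtain ⟨r, hr1, hr2⟩ := h.surj (p1 v) (p2 v')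
  have n1 : p1 v ≠ p1 v' := by rw [← h2]; exact a1.ne'
  have n2 : p2 v ≠ p2 v' := by rw [← h1]; exact a2.ne
  refine ⟨r, ?_, ?_, ?_, ?_⟩
  · rintro rfl; exact n1 rfl
  · intro hadj
    rcases h.adj_or hadj with h3 | h3
    · exact n1 h3
    · exact n2 h3
  · rintro rfl
    rw [hr1] at a1
    exact a1.ne rfl
  · intro e
    constructor
    · rintro ⟨h3, h4⟩
      rcases h.common_nbr n1 n2 h3 h4 with ⟨h5, h6⟩ | ⟨h5, h6⟩
      · right
        exact h.inj _ _ (h5.trans hr1.symm) (h6.trans hr2.symm)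
      · left
        exact h.inj _ _ (h5.trans h2.symm) (h6.trans h1.symm)
    · rintro (rfl | rfl)
      · exact ⟨hv.symm, hv'.symm⟩
      · refine ⟨(h.adj _ _).2 (Or.inr ⟨hr1.symm, ?_⟩), (h.adj _ _).2 (Or.inl ⟨?_, hr2.symm⟩)⟩
        · rw [hr2, ← h1]; exact a2
        · rw [hr1, ← h2]; exact a1

/-- the sum rule over the common neighbours -/
theorem diag_sum (h : Split H Y1 Y2 p1 p2) {F K : W → ℝ}
    (hF : ∀ w v, p1 w = p1 v → F w = F v) (hK : ∀ w v, p2 w = p2 v → K w = K v)
    {t v w r : W} (hd : Diag H t v w r) (hne : K t ≠ K v) : F w + F r = F t + F v := by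
  have n2 : p2 t ≠ p2 v := fun h' => hne (hK _ _ h')
  by_cases n1 : p1 t = p1 v
  · have key : ∀ x, H.Adj t x → H.Adj v x → F x = F t := by
      intro x h1 h2
      apply hF
      rcases h.adj_cases h1 with ⟨h3, h4, -⟩ | ⟨h3, h4, -⟩
      · rcases h.adj_cases h2 with ⟨h5, h6, -⟩ | ⟨h5, h6, -⟩
        · exact absurd (h3.trans h5.symm) n2
        · exact h5.symm.trans n1.symm
      · exact h3.symm
    rw [key w hd.adj1 hd.adj2, key r hd.adj3 hd.adj4, hF t v n1]
  · have c1 := h.common_nbr n1 n2 hd.adj1 hd.adj2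
    have c2 := h.common_nbr n1 n2 hd.adj3 hd.adj4
    rcases c1 with ⟨h3, h4⟩ | ⟨h3, h4⟩
    · rcases c2 with ⟨h5, h6⟩ | ⟨h5, h6⟩
      · exact absurd (h.inj _ _ (h3.trans h5.symm) (h4.trans h6.symm)) hd.2.2.1
      · rw [hF w t h3, hF r v h5]
    · rcases c2 with ⟨h5, h6⟩ | ⟨h5, h6⟩
      · rw [hF w v h3, hF r t h5]; ring
      · exact absurd (h.inj _ _ (h3.trans h5.symm) (h4.trans h6.symm)) hd.2.2.1

end Split

section

variable {V W W1 W2 : Type} [Fintype V] [Fintype W]
variable {B : Type} [Ring B] [StarRing B] [Algebra ℝ B] [StarModule ℝ B]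
variable {G : SimpleGraph V} {H : SimpleGraph W} {u : V → W → B}
variable {Y1 : SimpleGraph W1} {Y2 : SimpleGraph W2} {p1 : W → W1} {p2 : W → W2}

/-- spanned by differences of distance functions and constants -/
def RR (Y : SimpleGraph W1) (p : W → W1) : Submodule ℝ (W → ℝ) :=
  Submodule.span ℝ ({fun _ => (1 : ℝ)} ∪
    Set.range fun q : W1 × W1 => fun w => (Y.dist (p w) q.1 : ℝ) - (Y.dist (p w) q.2 : ℝ))

theorem RR_factor (Y : SimpleGraph W1) (p : W → W1) {F : W → ℝ} (hF : F ∈ RR Y p) (w v : W)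
    (h : p w = p v) : F w = F v := by
  induction hF using Submodule.span_induction with
  | mem x hx =>
    rcases hx with hx | ⟨q, rfl⟩
    · rw [Set.mem_singleton_iff.1 hx]
    · simp only [h]
  | zero => rfl
  | add x y _ _ hx hy => simp [hx, hy]
  | smul c x _ hx => simp [hx]

theorem CC_base (h : QIso G H u) (hG : G.Connected) (hs : Split H Y1 Y2 p1 p2)
    (x x' : W1) (y y' : W2) :
    QIso.CC u (fun w => (Y1.dist (p1 w) x : ℝ) - (Y1.dist (p1 w) x' : ℝ))
      (fun w => (Y2.dist (p2 w) y : ℝ) - (Y2.dist (p2 w) y' : ℝ)) := by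
  intro a b
  have hD : ∀ (x : W1) (y : W2), ∃ o, ∀ c, al u (fun w => (H.dist w o : ℝ)) c =
      al u (fun w => (Y1.dist (p1 w) x : ℝ)) c + al u (fun w => (Y2.dist (p2 w) y : ℝ)) c := by
    intro x y
    obtain ⟨o, ho1, ho2⟩ := hs.surj x y
    refine ⟨o, fun c => ?_⟩
    rw [← al_add]
    congr 1
    funext w
    simp [hs.dist, ho1, ho2]
  have hQ : ∀ (x : W1) (y : W2),
      (al u (fun w => (Y1.dist (p1 w) x : ℝ)) a + al u (fun w => (Y2.dist (p2 w) y : ℝ)) a) *
      (al u (fun w => (Y1.dist (p1 w) x : ℝ)) b + al u (fun w => (Y2.dist (p2 w) y : ℝ)) b) =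
      (al u (fun w => (Y1.dist (p1 w) x : ℝ)) b + al u (fun w => (Y2.dist (p2 w) y : ℝ)) b) *
      (al u (fun w => (Y1.dist (p1 w) x : ℝ)) a + al u (fun w => (Y2.dist (p2 w) y : ℝ)) a) := by
    intro x y
    obtain ⟨o, ho⟩ := hD x y
    rw [← ho, ← ho]
    exact h.dist_comm hG hs.conn o a b
  have e1 : (fun w => (Y1.dist (p1 w) x : ℝ) - (Y1.dist (p1 w) x' : ℝ)) =
    (fun w => (Y1.dist (p1 w) x : ℝ)) - (fun w => (Y1.dist (p1 w) x' : ℝ)) := rfl
  have e2 : (fun w => (Y2.dist (p2 w) y : ℝ) - (Y2.dist (p2 w) y' : ℝ)) =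
    (fun w => (Y2.dist (p2 w) y : ℝ)) - (fun w => (Y2.dist (p2 w) y' : ℝ)) := rfl
  rw [e1, e2, al_sub, al_sub, al_sub, al_sub]
  have q1 := hQ x y
  have q2 := hQ x' y
  have q3 := hQ x y'
  have q4 := hQ x' y'
  linear_combination (norm := noncomm_ring) q1 - q2 - q3 + q4

theorem CC_one_left (h : QIso G H u) (K : W → ℝ) : QIso.CC u (fun _ => (1 : ℝ)) K := by
  intro a b
  rw [h.al_one, h.al_one]
  simp

theorem CC_RR (h : QIso G H u) (hG : G.Connected) (hs : Split H Y1 Y2 p1 p2)
    {F K : W → ℝ} (hF : F ∈ RR Y1 p1) (hK : K ∈ RR Y2 p2) : QIso.CC u F K := by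
  have lin : ∀ K : W → ℝ, ∀ S : Set (W → ℝ), (∀ F ∈ S, QIso.CC u F K) →
      ∀ F ∈ Submodule.span ℝ S, QIso.CC u F K := by
    intro K S hS F hF
    induction hF using Submodule.span_induction with
    | mem x hx => exact hS x hx
    | zero => intro a b; simp [al_zero]
    | add x y _ _ hx hy =>
      intro a b
      have h1 := hx a b
      have h2 := hy a b
      rw [al_add, al_add]
      linear_combination (norm := noncomm_ring) h1 + h2
    | smul c x _ hx =>
      intro a b
      have h1 := congrArg (fun z => c • z) (hx a b)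
      simp only [smul_add, smul_sub, smul_zero] at h1
      rw [al_smul, al_smul]
      simp only [smul_mul_assoc, mul_smul_comm]
      exact h1
  refine lin K _ ?_ F hF
  rintro F (hF | ⟨q, rfl⟩)
  · rw [Set.mem_singleton_iff.1 hF]
    exact CC_one_left h K
  · apply QIso.CC.symm
    refine lin _ _ ?_ K hK
    rintro K (hK | ⟨q', rfl⟩)
    · rw [Set.mem_singleton_iff.1 hK]
      exact CC_one_left h _
    · apply QIso.CC.symm
      exact CC_base h hG hs _ _ _ _

end

end Pool.Agent.H741.QS
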